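import Pool.Agent.V5helper96.BM.Calc

/-!
# Small rotations of a Hilbert space
-/

set_option autoImplicit false

namespace Pool.Agent.V5helper96.BM

open Filter Topology Metric
open scoped InnerProductSpace
open Pool.H590R3.Ab (op op_apply op_mul op_one op_norm_le)

section
variable {H : Type*} [NormedAddCommGroup H] [InnerProductSpace ℝ H]

/-- reflection -/
noncomputable def rfl' (v : H) : H ≃ₗᵢ[ℝ] H := ((ℝ ∙ v)ᗮ : Submodule ℝ H).reflection

lemma rfl'_apply {v : H} (hv : ‖v‖ = 1) (z : H) : rfl' v z = z - (2 * ⟪v, z⟫_ℝ) • v := by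
  unfold rfl'
  rw [Submodule.reflection_orthogonal_apply, Submodule.reflection_apply,
    Submodule.starProjection_unit_singleton ℝ hv, two_smul, mul_smul, two_smul]
  abel

lemma rfl'_compact (v : H) : op (rfl' v) - 1 ∈ KK H := by
  have h1 : IsCompactOperator ((ℝ ∙ v).orthogonalProjectionOnto : H →L[ℝ] (ℝ ∙ v)) :=
    isCompactOperator_of_locallyCompactSpace_dom _
  have h2 := h1.clm_comp (((-2 : ℝ) • (ℝ ∙ v).subtypeL) : (ℝ ∙ v) →L[ℝ] H)
  have h3 : (op (rfl' v) - 1 : H →L[ℝ] H) =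
      (((-2 : ℝ) • (ℝ ∙ v).subtypeL : (ℝ ∙ v) →L[ℝ] H)) ∘L
        ((ℝ ∙ v).orthogonalProjectionOnto : H →L[ℝ] (ℝ ∙ v)) := by
    ext z
    show rfl' v z - z = (-2 : ℝ) • (ℝ ∙ v).starProjection z
    unfold rfl'
    rw [Submodule.reflection_orthogonal_apply, Submodule.reflection_apply]
    rw [two_smul, neg_smul, two_smul]
    abel
  rw [mem_KK, h3]
  exact h2

lemma rfl'_rfl' (v z : H) : rfl' v (rfl' v z) = z := Submodule.reflection_reflection _ z

lemma hilbert_small (hH : ¬ FiniteDimensional ℝ H) {ε : ℝ} (hε : 0 < ε) :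
    ∃ S : H ≃ₗᵢ[ℝ] H, S ≠ 1 ∧ op S - 1 ∈ KK H ∧ ∀ z, ‖S z - z‖ ≤ ε * ‖z‖ := by
  haveI : Nontrivial H := by
    by_contra hc
    rw [not_nontrivial_iff_subsingleton] at hc
    exact hH inferInstance
  obtain ⟨e, he⟩ : ∃ e : H, ‖e‖ = 1 := exists_norm_eq H zero_le_one
  have he0 : e ≠ 0 := by
    intro h
    rw [h, norm_zero] at he
    exact zero_ne_one he
  obtain ⟨f, hf⟩ : ∃ f : H, f ∉ (ℝ ∙ e) := by
    by_contra hcon
    push Not at hcon
    apply hH
    have : (ℝ ∙ e) = ⊤ := by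
      rw [eq_top_iff]
      exact fun x _ => hcon x
    have h2 : FiniteDimensional ℝ (⊤ : Submodule ℝ H) := by rw [← this]; infer_instance
    exact Module.Finite.equiv (Submodule.topEquiv (R := ℝ) (M := H))
  let y : ℝ → H := fun s => ‖e + s • f‖⁻¹ • (e + s • f)
  have hne : ∀ s : ℝ, e + s • f ≠ 0 := by
    intro s h
    by_cases hs : s = 0
    · rw [hs, zero_smul, add_zero] at h
      exact he0 h
    · apply hf
      rw [Submodule.mem_span_singleton]
      refine ⟨-s⁻¹, ?_⟩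
      have h1 : e = -(s • f) := eq_neg_of_add_eq_zero_left h
      rw [h1, neg_smul, smul_neg, neg_neg, smul_smul, inv_mul_cancel₀ hs, one_smul]
  have hy : Continuous y := by
    have h1 : Continuous fun s : ℝ => e + s • f := by fun_prop
    exact (h1.norm.inv₀ fun s => norm_ne_zero_iff.2 (hne s)).smul h1
  have hy0 : y 0 = e := by
    show ‖e + (0 : ℝ) • f‖⁻¹ • (e + (0 : ℝ) • f) = e
    rw [zero_smul, add_zero, he, inv_one, one_smul]
  have hyu : ∀ s, ‖y s‖ = 1 := by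
    intro s
    show ‖‖e + s • f‖⁻¹ • (e + s • f)‖ = 1
    rw [norm_smul, norm_inv, norm_norm, inv_mul_cancel₀ (norm_ne_zero_iff.2 (hne s))]
  have hlim : Tendsto (fun s => ‖y s - e‖) (𝓝[>] (0 : ℝ)) (𝓝 0) := by
    have h1 : Tendsto (fun s => ‖y s - e‖) (𝓝 (0 : ℝ)) (𝓝 ‖y 0 - e‖) :=
      ((hy.sub continuous_const).norm).tendsto 0
    rw [hy0, sub_self, norm_zero] at h1
    exact h1.mono_left nhdsWithin_le_nhds
  obtain ⟨s, hs1, hs⟩ :=
    ((hlim.eventually_lt_const (by positivity : (0 : ℝ) < ε / 4)).and self_mem_nhdsWithin).exists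
  have hs0 : s ≠ 0 := ne_of_gt hs
  refine ⟨rfl' e * rfl' (y s), ?_, KK_op_mul (rfl'_compact e) (rfl'_compact _), fun z => ?_⟩
  · intro h
    have h1 : rfl' e (rfl' (y s) e) = e := by
      have : (rfl' e * rfl' (y s)) e = e := by rw [h]; rfl
      exact this
    have h2 : rfl' (y s) e = rfl' e e := by
      rw [← rfl'_rfl' e (rfl' (y s) e), h1]
    rw [rfl'_apply (hyu s), rfl'_apply he, real_inner_self_eq_norm_sq, he] at h2
    have h3 : ⟪y s, e⟫_ℝ • y s = e := by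
      have h4 : (2 : ℝ) • (⟪y s, e⟫_ℝ • y s) = (2 : ℝ) • e := by
        rw [smul_smul]
        have h5 := sub_right_inj.1 h2
        rw [h5]
        norm_num
      exact smul_right_injective H (two_ne_zero) h4
    have h6 : ⟪y s, e⟫_ℝ ≠ 0 := by
      intro h0
      rw [h0, zero_smul] at h3
      exact he0 h3.symm
    have h7 : y s = (⟪y s, e⟫_ℝ)⁻¹ • e := by
      conv_rhs => rw [← h3]
      rw [smul_smul, h3, inv_mul_cancel₀ h6, one_smul]
    apply hf
    rw [Submodule.mem_span_singleton]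
    set a := ‖e + s • f‖ with ha
    have ha0 : a ≠ 0 := norm_ne_zero_iff.2 (hne s)
    have h8 : e + s • f = (a * (⟪y s, e⟫_ℝ)⁻¹) • e := by
      rw [mul_smul, ← h7]
      show e + s • f = a • (a⁻¹ • (e + s • f))
      rw [smul_smul, mul_inv_cancel₀ ha0, one_smul]
    refine ⟨s⁻¹ * (a * (⟪y s, e⟫_ℝ)⁻¹ - 1), ?_⟩
    have h9 : s • f = (a * (⟪y s, e⟫_ℝ)⁻¹ - 1) • e := by
      rw [sub_smul, one_smul, ← h8, add_sub_cancel_left]
    rw [mul_smul, ← h9, smul_smul, inv_mul_cancel₀ hs0, one_smul]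
  · have h1 : (rfl' e * rfl' (y s)) z - z = rfl' e (rfl' (y s) z - rfl' e z) := by
      rw [map_sub, rfl'_rfl']
      rfl
    rw [h1, (rfl' e).norm_map, rfl'_apply (hyu s), rfl'_apply he]
    have h2 : z - (2 * ⟪y s, z⟫_ℝ) • y s - (z - (2 * ⟪e, z⟫_ℝ) • e) =
        (2 * ⟪e, z⟫_ℝ) • (e - y s) + (2 * ⟪e - y s, z⟫_ℝ) • y s := by
      rw [inner_sub_left, mul_sub, sub_smul, smul_sub]
      abel
    rw [h2]
    refine (norm_add_le _ _).trans ?_
    rw [norm_smul, norm_smul, hyu s, Real.norm_eq_abs, Real.norm_eq_abs, abs_mul, abs_mul, abs_two]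
    have h3 : |⟪e, z⟫_ℝ| ≤ ‖z‖ := by
      have := abs_real_inner_le_norm e z
      rwa [he, one_mul] at this
    have h4 : |⟪e - y s, z⟫_ℝ| ≤ ‖e - y s‖ * ‖z‖ := abs_real_inner_le_norm _ _
    have h5 : ‖e - y s‖ ≤ ε / 4 := by rw [norm_sub_rev]; exact hs1.le
    have h6 : ‖e - y s‖ * ‖z‖ ≤ ε / 4 * ‖z‖ := mul_le_mul_of_nonneg_right h5 (norm_nonneg _)
    have h7 : |⟪e, z⟫_ℝ| * ‖e - y s‖ ≤ ‖z‖ * (ε / 4) :=
      mul_le_mul h3 h5 (norm_nonneg _) (norm_nonneg _)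
    nlinarith

end

end Pool.Agent.V5helper96.BM
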