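import Pool.Agent.V5helper96.BM.NoFR

/-!
# Ultraproducts of almost isometries, approximation by subspaces of bounded dimension
-/

set_option autoImplicit false

namespace Pool.Agent.V5helper96.BM

open Filter Topology Metric
open scoped ENNReal
open Pool.H590R3.Ab (op op_apply op_mul op_one op_norm_le)
open Pool.Agent.R287.UP
open Pool.Agent.TH596.RO (cj AT DD)

section
variable {E : Type*} [NormedAddCommGroup E] [NormedSpace ℝ E]

/-- surjective linear `(1 + ε)`-isometry -/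
def AI (ε : ℝ) (T : E ≃L[ℝ] E) : Prop :=
  ∀ z : E, ‖T z‖ ≤ (1 + ε) * ‖z‖ ∧ ‖z‖ ≤ (1 + ε) * ‖T z‖

/-- `a x` is at distance at most `c ‖x‖` from a subspace of dimension at most `m` -/
def Wd (m : ℕ) (c : ℝ) (a : E →L[ℝ] E) : Prop :=
  ∃ F : Submodule ℝ E, FiniteDimensional ℝ F ∧ Module.finrank ℝ F ≤ m ∧
    ∀ x : E, ∃ y ∈ F, ‖a x - y‖ ≤ c * ‖x‖

lemma BF_AI {T : ℕ → E ≃L[ℝ] E} {ε : ℕ → ℝ} (h1 : ∀ i, ε i ≤ 1) (hT : ∀ i, AI (ε i) (T i)) :
    BF (fun i => ((T i : E ≃L[ℝ] E) : E →L[ℝ] E)) := by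
  refine ⟨2, fun i => ContinuousLinearMap.opNorm_le_bound _ (by norm_num) fun x => ?_⟩
  have h2 := (hT i x).1
  have h3 := h1 i
  have h4 := norm_nonneg x
  show ‖T i x‖ ≤ 2 * ‖x‖
  nlinarith

lemma BF_AI_symm {T : ℕ → E ≃L[ℝ] E} {ε : ℕ → ℝ} (h1 : ∀ i, ε i ≤ 1)
    (hT : ∀ i, AI (ε i) (T i)) : BF (fun i => (((T i).symm : E ≃L[ℝ] E) : E →L[ℝ] E)) := by
  refine ⟨2, fun i => ContinuousLinearMap.opNorm_le_bound _ (by norm_num) fun x => ?_⟩
  have h2 := (hT i ((T i).symm x)).2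
  rw [ContinuousLinearEquiv.apply_symm_apply] at h2
  have h3 := h1 i
  have h4 := norm_nonneg x
  show ‖(T i).symm x‖ ≤ 2 * ‖x‖
  nlinarith

/-- the ultraproduct of almost isometries with constants tending to `1` is an isometry -/
noncomputable def twa (T : ℕ → E ≃L[ℝ] E) (ε : ℕ → ℝ) (h1 : ∀ i, ε i ≤ 1)
    (h0 : Tendsto ε atTop (𝓝 0)) (hT : ∀ i, AI (ε i) (T i)) : UX E ≃ₗᵢ[ℝ] UX E where
  toFun := tw (fun i => ((T i : E ≃L[ℝ] E) : E →L[ℝ] E)) (BF_AI h1 hT)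
  invFun := tw (fun i => (((T i).symm : E ≃L[ℝ] E) : E →L[ℝ] E)) (BF_AI_symm h1 hT)
  map_add' := map_add _
  map_smul' := map_smul _
  left_inv := by
    intro u
    obtain ⟨x, hx, rfl⟩ := exists_cl u
    rw [tw_cl, tw_cl]
    congr 1
    funext i
    exact (T i).symm_apply_apply (x i)
  right_inv := by
    intro u
    obtain ⟨x, hx, rfl⟩ := exists_cl u
    rw [tw_cl, tw_cl]
    congr 1
    funext i
    exact (T i).apply_symm_apply (x i)
  norm_map' := by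
    intro u
    obtain ⟨x, hx, rfl⟩ := exists_cl u
    show ‖tw (fun i => ((T i : E ≃L[ℝ] E) : E →L[ℝ] E)) (BF_AI h1 hT) (cl x hx)‖ = ‖cl x hx‖
    rw [tw_cl]
    have h2 : Tendsto (fun i => 1 + ε i) (hyperfilter ℕ : Filter ℕ) (𝓝 1) := by
      simpa using (h0.mono_left hyp_le).const_add 1
    have hy := (BF_AI h1 hT).app hx
    have h3 := cl_norm hy
    have h4 := cl_norm hx
    refine le_antisymm ?_ ?_
    · have h5 := h2.mul h4
      rw [one_mul] at h5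
      exact le_of_tendsto_of_tendsto h3 h5 (Eventually.of_forall fun i => (hT i (x i)).1)
    · have h5 := h2.mul h3
      rw [one_mul] at h5
      exact le_of_tendsto_of_tendsto h4 h5 (Eventually.of_forall fun i => (hT i (x i)).2)

lemma twa_cl {T : ℕ → E ≃L[ℝ] E} {ε : ℕ → ℝ} (h1 : ∀ i, ε i ≤ 1)
    (h0 : Tendsto ε atTop (𝓝 0)) (hT : ∀ i, AI (ε i) (T i)) {x : ℕ → E} (hx : BF x) :
    twa T ε h1 h0 hT (cl x hx) = cl (fun i => T i (x i)) ((BF_AI h1 hT).app hx) := rfl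

lemma inv_le_one' (i : ℕ) : 1 / ((i : ℝ) + 1) ≤ 1 := by
  rw [div_le_one (by positivity)]
  have : (0 : ℝ) ≤ i := Nat.cast_nonneg i
  linarith

lemma UX_transitive' (hAT : ∀ x y : E, ‖x‖ = 1 → ‖y‖ = 1 → ∀ ε : ℝ, 0 < ε →
    ∃ T : E ≃L[ℝ] E, AI ε T ∧ ‖T x - y‖ < ε) {e : E} (he : ‖e‖ = 1) (u v : UX E)
    (hu : ‖u‖ = 1) (hv : ‖v‖ = 1) : ∃ g : UX E ≃ₗᵢ[ℝ] UX E, g u = v := by
  obtain ⟨x, hx, hx1, rfl⟩ := exists_unit_cl he hu
  obtain ⟨y, hy, hy1, rfl⟩ := exists_unit_cl he hv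
  have hg : ∀ i : ℕ, ∃ g : E ≃L[ℝ] E, AI (1 / ((i : ℝ) + 1)) g ∧
      ‖g (x i) - y i‖ < 1 / ((i : ℝ) + 1) := fun i =>
    hAT (x i) (y i) (hx1 i) (hy1 i) (1 / ((i : ℝ) + 1)) (by positivity)
  choose g hgI hg using hg
  refine ⟨twa g (fun i => 1 / ((i : ℝ) + 1)) inv_le_one' tendsto_one_div_add_atTop_nhds_zero_nat
    hgI, ?_⟩
  rw [twa_cl, cl_eq]
  refine squeeze_zero (fun i => norm_nonneg _) (fun i => (hg i).le) ?_
  exact tendsto_one_div_add_atTop_nhds_zero_nat.mono_left hyp_le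

lemma cl_sum {ι : Type*} (s : Finset ι) (c : ι → ℝ) (y : ι → ℕ → E) (hy : ∀ w, BF (y w)) :
    ∃ h : BF (fun i => ∑ w ∈ s, c w • y w i), cl _ h = ∑ w ∈ s, c w • cl (y w) (hy w) := by
  classical
  induction s using Finset.induction_on with
  | empty =>
    refine ⟨by simpa using BF.const (0 : E), ?_⟩
    have h0 : (∑ w ∈ (∅ : Finset ι), c w • cl (y w) (hy w)) = dia (0 : E) := by
      rw [Finset.sum_empty, map_zero]
    rw [h0, dia_apply, cl_eq]
    simp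
  | insert a s ha ih =>
    obtain ⟨h, hh⟩ := ih
    have h1 : BF (fun i => c a • y a i + ∑ w ∈ s, c w • y w i) := ((hy a).smul (c a)).add h
    have h2 : (fun i => ∑ w ∈ insert a s, c w • y w i) =
        fun i => c a • y a i + ∑ w ∈ s, c w • y w i := by
      funext i
      rw [Finset.sum_insert ha]
    refine ⟨by rw [h2]; exact h1, ?_⟩
    rw [Finset.sum_insert ha, ← hh, ← cl_smul (hy a) (c a), ← cl_add ((hy a).smul (c a)) h]
    congr 1

/-- a compact perturbation is approximated by subspaces of finite dimension -/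
lemma KK_of_approx [CompleteSpace E] {a : E →L[ℝ] E} (h : ∀ ε : ℝ, 0 < ε →
    ∃ F : Submodule ℝ E, FiniteDimensional ℝ F ∧ ∀ x : E, ‖x‖ ≤ 1 → ∃ y ∈ F, ‖a x - y‖ ≤ ε) :
    a ∈ KK E := by
  have h1 : TotallyBounded (a '' closedBall (0 : E) 1) := by
    rw [Metric.totallyBounded_iff]
    intro ε hε
    obtain ⟨F, hF, hFa⟩ := h (ε / 3) (by positivity)
    have hc : IsCompact (closedBall (0 : F) (‖a‖ + ε / 3)) := isCompact_closedBall _ _
    obtain ⟨t, -, htf, ht⟩ := hc.finite_cover_balls (show 0 < ε / 3 by positivity)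
    refine ⟨(fun v : F => (v : E)) '' t, htf.image _, ?_⟩
    rintro _ ⟨x, hx, rfl⟩
    rw [mem_closedBall_zero_iff] at hx
    obtain ⟨y, hy, hxy⟩ := hFa x hx
    have h2 : ‖y‖ ≤ ‖a‖ + ε / 3 := by
      have h3 : y = a x - (a x - y) := by abel
      rw [h3]
      refine (norm_sub_le _ _).trans (add_le_add ?_ hxy)
      refine (a.le_opNorm x).trans ?_
      exact mul_le_of_le_one_right (norm_nonneg _) hx
    have h4 : (⟨y, hy⟩ : F) ∈ closedBall (0 : F) (‖a‖ + ε / 3) := by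
      rw [mem_closedBall_zero_iff]; exact h2
    obtain ⟨z, hz, hyz⟩ := Set.mem_iUnion₂.1 (ht h4)
    refine Set.mem_iUnion₂.2 ⟨(z : E), ⟨z, hz, rfl⟩, ?_⟩
    rw [mem_ball, dist_eq_norm] at hyz ⊢
    have h5 : ‖y - (z : E)‖ < ε / 3 := hyz
    have h6 : a x - (z : E) = (a x - y) + (y - z) := by abel
    rw [h6]
    have h7 := norm_add_le (a x - y) (y - (z : E))
    linarith
  rw [mem_KK]
  refine ⟨closure (a '' closedBall (0 : E) 1), h1.closure.isCompact_of_isClosed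
    isClosed_closure, ?_⟩
  refine Filter.mem_of_superset (closedBall_mem_nhds (0 : E) one_pos) ?_
  intro x hx
  exact subset_closure ⟨x, hx, rfl⟩

lemma Wd_of_KK {a : E →L[ℝ] E} (ha : a ∈ KK E) {ε : ℝ} (hε : 0 < ε) : ∃ m, Wd m ε a := by
  rw [mem_KK] at ha
  obtain ⟨C, hC, hCK⟩ := ha.image_closedBall_subset_compact (r := 1)
  obtain ⟨t, -, htf, ht⟩ := hC.finite_cover_balls hε
  have hfd : FiniteDimensional ℝ (Submodule.span ℝ t) := FiniteDimensional.span_of_finite ℝ htf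
  refine ⟨Module.finrank ℝ (Submodule.span ℝ t), Submodule.span ℝ t, hfd, le_rfl, fun x => ?_⟩
  rcases eq_or_ne x 0 with rfl | hx
  · exact ⟨0, Submodule.zero_mem _, by simp⟩
  · have hx0 : 0 < ‖x‖ := norm_pos_iff.2 hx
    have h1 : a (‖x‖⁻¹ • x) ∈ C := by
      refine hCK ⟨‖x‖⁻¹ • x, ?_, rfl⟩
      rw [mem_closedBall_zero_iff, norm_smul, norm_inv, norm_norm, inv_mul_cancel₀ hx0.ne']
    obtain ⟨y, hy, hxy⟩ := Set.mem_iUnion₂.1 (ht h1)
    rw [mem_ball, dist_eq_norm] at hxy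
    refine ⟨‖x‖ • y, Submodule.smul_mem _ _ (Submodule.subset_span hy), ?_⟩
    have h2 : a x - ‖x‖ • y = ‖x‖ • (a (‖x‖⁻¹ • x) - y) := by
      rw [map_smul, smul_sub, smul_smul, mul_inv_cancel₀ hx0.ne', one_smul]
    rw [h2, norm_smul, norm_norm, mul_comm]
    exact mul_le_mul_of_nonneg_right hxy.le (norm_nonneg _)

end

end Pool.Agent.V5helper96.BM
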