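import Pool.Agent.V5helper96.BM.FinRk

/-!
# The subspaces invariant under all conjugates of a generator of finite rank
-/

set_option autoImplicit false

namespace Pool.Agent.V5helper96.BM

open Filter
open Pool.H590R3.Ab
open Pool.Agent.TH596.RO (cj cj_apply norm_cj)

section
variable {X : Type*} [NormedAddCommGroup X] [NormedSpace ℝ X]

/-- invariant under all conjugates of `F` -/
def IV (F : X →L[ℝ] X) (V : Submodule ℝ X) : Prop := ∀ g : X ≃ₗᵢ[ℝ] X, ∀ v ∈ V, cj g F v ∈ V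

/-- the sum of the ranges of finitely many conjugates -/
noncomputable def VF (F : X →L[ℝ] X) (Φ : Finset (X ≃ₗᵢ[ℝ] X)) : Submodule ℝ X :=
  ⨆ g ∈ Φ, LinearMap.range ((cj g F : X →L[ℝ] X) : X →ₗ[ℝ] X)

lemma VF_mono (F : X →L[ℝ] X) {Φ Ψ : Finset (X ≃ₗᵢ[ℝ] X)} (h : Φ ⊆ Ψ) : VF F Φ ≤ VF F Ψ :=
  iSup₂_le fun g hg => le_iSup₂_of_le g (h hg) le_rfl

lemma mem_VF (F : X →L[ℝ] X) {Φ : Finset (X ≃ₗᵢ[ℝ] X)} {g : X ≃ₗᵢ[ℝ] X} (hg : g ∈ Φ) (x : X) :
    cj g F x ∈ VF F Φ :=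
  (le_iSup₂_of_le (f := fun g (_ : g ∈ Φ) => LinearMap.range ((cj g F : X →L[ℝ] X) : X →ₗ[ℝ] X))
    g hg le_rfl) ⟨x, rfl⟩

/-- the smallest invariant subspace containing a subspace -/
def gen (F : X →L[ℝ] X) (W : Submodule ℝ X) : Submodule ℝ X := sInf {V | IV F V ∧ W ≤ V}

lemma gen_iv (F : X →L[ℝ] X) (W : Submodule ℝ X) : IV F (gen F W) := by
  intro g v hv
  rw [gen, Submodule.mem_sInf] at *
  intro V hV
  exact hV.1 g v (hv V hV)

lemma le_gen (F : X →L[ℝ] X) (W : Submodule ℝ X) : W ≤ gen F W :=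
  le_sInf fun V hV => hV.2

lemma gen_le {F : X →L[ℝ] X} {W V : Submodule ℝ X} (hV : IV F V) (h : W ≤ V) : gen F W ≤ V :=
  sInf_le ⟨hV, h⟩

/-- generated by a vector -/
def cy (F : X →L[ℝ] X) (x : X) : Submodule ℝ X := gen F (Submodule.span ℝ {x})

lemma cy_iv (F : X →L[ℝ] X) (x : X) : IV F (cy F x) := gen_iv _ _

lemma mem_cy (F : X →L[ℝ] X) (x : X) : x ∈ cy F x :=
  le_gen _ _ (Submodule.mem_span_singleton_self x)

lemma cy_le {F : X →L[ℝ] X} {x : X} {V : Submodule ℝ X} (hV : IV F V) (h : x ∈ V) : cy F x ≤ V :=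
  gen_le hV ((Submodule.span_singleton_le_iff_mem _ _).2 h)

/-- no proper nonzero invariant subspace -/
def Simp (F : X →L[ℝ] X) (V : Submodule ℝ X) : Prop :=
  IV F V ∧ ∀ U : Submodule ℝ X, IV F U → U ≤ V → U ≠ ⊥ → U = V

lemma IV_map {F : X →L[ℝ] X} {V : Submodule ℝ X} (hV : IV F V) (h : X ≃ₗᵢ[ℝ] X) :
    IV F (V.map (op h : X →ₗ[ℝ] X)) := by
  rintro g _ ⟨v, hv, rfl⟩
  refine ⟨cj (h⁻¹ * g) F v, hV _ v hv, ?_⟩
  show h (cj (h⁻¹ * g) F v) = cj g F (h v)
  rw [cj_mul, cj_apply, cj_apply]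
  show h (h⁻¹ (g (F (g.symm (h v))))) = _
  exact h.apply_symm_apply _

lemma Simp_map {F : X →L[ℝ] X} {V : Submodule ℝ X} (hV : Simp F V) (h : X ≃ₗᵢ[ℝ] X) :
    Simp F (V.map (op h : X →ₗ[ℝ] X)) := by
  refine ⟨IV_map hV.1 h, fun U hU hUV hU0 => ?_⟩
  have hc1 : ∀ W : Submodule ℝ X, (W.map (op h⁻¹ : X →ₗ[ℝ] X)).map (op h : X →ₗ[ℝ] X) = W := by
    intro W
    ext x
    constructor
    · rintro ⟨_, ⟨w, hw, rfl⟩, rfl⟩
      have : h (h⁻¹ w) = w := h.apply_symm_apply w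
      show h (h⁻¹ w) ∈ W
      rw [this]; exact hw
    · intro hx
      exact ⟨h⁻¹ x, ⟨x, hx, rfl⟩, h.apply_symm_apply x⟩
  have h1 : U.map (op h⁻¹ : X →ₗ[ℝ] X) = V := by
    refine hV.2 _ (IV_map hU _) ?_ ?_
    · rintro _ ⟨u, hu, rfl⟩
      obtain ⟨v, hv, hvu⟩ := hUV hu
      have : (op h⁻¹ : X →ₗ[ℝ] X) u = v := by
        rw [← hvu]; exact h.symm_apply_apply v
      rw [this]; exact hv
    · intro h0
      apply hU0
      rw [← hc1 U, h0, Submodule.map_bot]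
  rw [← h1, hc1]

/-- the theorem on invariant subspaces: there are none -/
theorem irred (htr : ∀ x y : X, ‖x‖ = 1 → ‖y‖ = 1 → ∃ g : X ≃ₗᵢ[ℝ] X, g x = y)
    (hX : ¬ FiniteDimensional ℝ X) {F : X →L[ℝ] X} (hF0 : F ≠ 0) (hFR : FR F)
    (b : Finset (X ≃ₗᵢ[ℝ] X) → X →ₗ[ℝ] X →ₗ[ℝ] ℝ)
    (hskew : ∀ Φ, ∀ g ∈ Φ, ∀ x ∈ VF F Φ, ∀ y ∈ VF F Φ, b Φ (cj g F x) y = - b Φ x (cj g F y))
    (hpos : ∀ Φ, ∀ x ∈ VF F Φ, x ≠ 0 → 0 < b Φ x x)
    {V : Submodule ℝ X} (hV : IV F V) {x0 : X} (hx0 : x0 ∈ V) (hx00 : x0 ≠ 0) : V = ⊤ := by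
  classical
  -- any two nonzero vectors are interchanged up to a multiple
  have htr' : ∀ x y : X, x ≠ 0 → y ≠ 0 → ∃ (g : X ≃ₗᵢ[ℝ] X) (c : ℝ), c ≠ 0 ∧ c • g x = y := by
    intro x y hx hy
    have hx' : ‖x‖ ≠ 0 := norm_ne_zero_iff.2 hx
    have hy' : ‖y‖ ≠ 0 := norm_ne_zero_iff.2 hy
    obtain ⟨g, hg⟩ := htr (‖x‖⁻¹ • x) (‖y‖⁻¹ • y)
      (by rw [norm_smul, norm_inv, norm_norm, inv_mul_cancel₀ hx'])
      (by rw [norm_smul, norm_inv, norm_norm, inv_mul_cancel₀ hy'])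
    refine ⟨g, ‖y‖ * ‖x‖⁻¹, mul_ne_zero hy' (inv_ne_zero hx'), ?_⟩
    rw [map_smul] at hg
    rw [mul_smul, hg, smul_smul, mul_inv_cancel₀ hy', one_smul]
  set W := LinearMap.range (F : X →ₗ[ℝ] X) with hW
  haveI : FiniteDimensional ℝ W := hFR
  -- a nonzero vector in the range
  obtain ⟨u0, hu0⟩ : ∃ u, F u ≠ 0 := by
    by_contra hcon
    push Not at hcon
    exact hF0 (ContinuousLinearMap.ext hcon)
  have cj1 : cj (1 : X ≃ₗᵢ[ℝ] X) F = F := cj_one F
  -- every vector is in the range of a conjugate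
  have hran : ∀ x : X, ∃ g : X ≃ₗᵢ[ℝ] X, ∃ y, cj g F y = x := by
    intro x
    by_cases hx : x = 0
    · exact ⟨1, 0, by rw [map_zero, hx]⟩
    obtain ⟨g, c, hc, hgc⟩ := htr' (F u0) x hu0 hx
    refine ⟨g, c • g u0, ?_⟩
    rw [map_smul, cj_apply, g.symm_apply_apply, hgc]
  have hev : ∀ x : X, ∀ᶠ Φ in (atTop : Filter (Finset (X ≃ₗᵢ[ℝ] X))), x ∈ VF F Φ := by
    intro x
    obtain ⟨g, y, hy⟩ := hran x
    filter_upwards [eventually_ge_atTop {g}] with Φ hΦ
    rw [← hy]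
    exact mem_VF F (hΦ (Finset.mem_singleton_self g)) y
  have hevg : ∀ g : X ≃ₗᵢ[ℝ] X, ∀ᶠ Φ in (atTop : Filter (Finset (X ≃ₗᵢ[ℝ] X))), g ∈ Φ := by
    intro g
    filter_upwards [eventually_ge_atTop {g}] with Φ hΦ
    exact hΦ (Finset.mem_singleton_self g)
  -- the orthogonal space of an invariant space killed by `F`
  have hkill : ∀ U : Submodule ℝ X, IV F U → U ⊓ W = ⊥ → ∀ V' : Submodule ℝ X, V' ≤ W →
      U ≤ gen F V' → U = ⊥ := by
    intro U hU hUW V' hV' hUV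
    have hFU : ∀ u ∈ U, F u = 0 := by
      intro u hu
      have h1 : F u ∈ U ⊓ W := ⟨by have := hU 1 u hu; rwa [cj1] at this, ⟨u, rfl⟩⟩
      rw [hUW] at h1
      exact (Submodule.mem_bot ℝ).1 h1
    let Q : Submodule ℝ X :=
      { carrier := {v | ∀ u ∈ U, ∀ᶠ Φ in (atTop : Filter (Finset (X ≃ₗᵢ[ℝ] X))), b Φ u v = 0}
        add_mem' := by
          intro v w hv hw u hu
          filter_upwards [hv u hu, hw u hu] with Φ h1 h2
          rw [map_add, h1, h2, add_zero]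
        zero_mem' := fun u _ => Eventually.of_forall fun Φ => map_zero _
        smul_mem' := by
          intro c v hv u hu
          filter_upwards [hv u hu] with Φ h1
          rw [map_smul, h1, smul_zero] }
    have hQ : IV F Q := by
      intro g v hv u hu
      filter_upwards [hv (cj g F u) (hU g u hu), hevg g, hev u, hev v] with Φ h1 h2 h3 h4
      have := hskew Φ g h2 u h3 v h4
      rw [h1] at this
      linarith
    have hWQ : V' ≤ Q := by
      intro v hv u hu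
      obtain ⟨y, hy⟩ := hV' hv
      have hy' : F y = v := hy
      filter_upwards [hevg 1, hev u, hev y] with Φ h2 h3 h4
      have := hskew Φ 1 h2 u h3 y h4
      rw [cj1, hFU u hu, map_zero, LinearMap.zero_apply, hy'] at this
      linarith
    have h1 : gen F V' ≤ Q := gen_le hQ hWQ
    rw [eq_bot_iff]
    intro u hu
    by_contra hu0
    have h2 : u ∈ Q := h1 (hUV hu)
    obtain ⟨Φ, h3, h4⟩ := ((h2 u hu).and (hev u)).exists
    have := hpos Φ u h4 hu0
    rw [h3] at this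
    exact lt_irrefl _ this
  -- a simple submodule
  obtain ⟨V2, hV2, v2, hv2, hv20⟩ : ∃ V2 : Submodule ℝ X, Simp F V2 ∧ ∃ v ∈ V2, v ≠ 0 := by
    -- minimal dimension of the intersection with `W`
    let P : ℕ → Prop := fun d => ∃ V1 : Submodule ℝ X, IV F V1 ∧ V1 ⊓ W ≠ ⊥ ∧
      Module.finrank ℝ (V1 ⊓ W : Submodule ℝ X) = d
    have hP : ∃ d, P d := by
      refine ⟨_, ⊤, fun g v _ => Submodule.mem_top, ?_, rfl⟩
      rw [top_inf_eq]
      intro h
      exact hu0 ((Submodule.mem_bot ℝ).1 (h ▸ (⟨u0, rfl⟩ : F u0 ∈ W)))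
    obtain ⟨V1, hV1, hV1W, hd⟩ := Nat.find_spec hP
    have hmin : ∀ U : Submodule ℝ X, IV F U → U ⊓ W ≠ ⊥ →
        Module.finrank ℝ (V1 ⊓ W : Submodule ℝ X) ≤ Module.finrank ℝ (U ⊓ W : Submodule ℝ X) := by
      intro U hU hUW
      rw [hd]
      exact Nat.find_min' hP ⟨U, hU, hUW, rfl⟩
    have hg1 : gen F (V1 ⊓ W) ≤ V1 := gen_le hV1 inf_le_left
    refine ⟨gen F (V1 ⊓ W), ⟨gen_iv _ _, fun U hU hUV hU0 => ?_⟩, ?_⟩
    · by_cases hUW : U ⊓ W = ⊥
      · exact absurd (hkill U hU hUW (V1 ⊓ W) inf_le_right hUV) hU0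
      · apply le_antisymm hUV
        have h1 : U ⊓ W ≤ V1 ⊓ W := inf_le_inf_right W (hUV.trans hg1)
        haveI : FiniteDimensional ℝ (V1 ⊓ W : Submodule ℝ X) :=
          Submodule.finiteDimensional_of_le inf_le_right
        have h2 : U ⊓ W = V1 ⊓ W := Submodule.eq_of_le_of_finrank_le h1 (hmin U hU hUW)
        exact gen_le hU (by rw [← h2]; exact inf_le_left)
    · obtain ⟨v, hv, hv0⟩ := (Submodule.ne_bot_iff _).1 hV1W
      exact ⟨v, le_gen _ _ hv, hv0⟩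
  -- all cyclic subspaces are simple
  have hsimp : ∀ x : X, x ≠ 0 → Simp F (cy F x) := by
    intro x hx
    obtain ⟨g, c, hc, hgc⟩ := htr' v2 x hv20 hx
    have h1 := Simp_map hV2 g
    have h2 : x ∈ V2.map (op g : X →ₗ[ℝ] X) := by
      rw [← hgc]
      exact Submodule.smul_mem _ _ ⟨v2, hv2, rfl⟩
    have h3 : cy F x = V2.map (op g : X →ₗ[ℝ] X) := by
      refine h1.2 _ (cy_iv F x) (cy_le h1.1 h2) ?_
      intro h0
      have := mem_cy F x
      rw [h0, Submodule.mem_bot] at this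
      exact hx this
    rw [h3]; exact h1
  have heq : ∀ x y : X, x ≠ 0 → x ∈ cy F y → cy F x = cy F y := by
    intro x y hx hxy
    have hy : y ≠ 0 := by
      rintro rfl
      have : cy F (0 : X) ≤ ⊥ := cy_le (fun g v hv => by
        rw [(Submodule.mem_bot ℝ).1 hv, map_zero]; exact Submodule.zero_mem _)
        (Submodule.zero_mem _)
      exact hx ((Submodule.mem_bot ℝ).1 (this hxy))
    refine (hsimp y hy).2 _ (cy_iv F x) (cy_le (cy_iv F y) hxy) ?_
    intro h0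
    have := mem_cy F x
    rw [h0, Submodule.mem_bot] at this
    exact hx this
  -- there is a conjugate killing `x0`
  obtain ⟨g0, hg0⟩ : ∃ g : X ≃ₗᵢ[ℝ] X, cj g F x0 = 0 := by
    obtain ⟨z, hz, hz0⟩ : ∃ z, F z = 0 ∧ z ≠ 0 := by
      by_contra hcon
      push Not at hcon
      have hinj : Function.Injective (F : X →ₗ[ℝ] X).rangeRestrict := by
        rw [injective_iff_map_eq_zero]
        intro z hz
        exact hcon z (congrArg Subtype.val hz)
      exact hX (Module.Finite.of_injective (F : X →ₗ[ℝ] X).rangeRestrict hinj)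
    obtain ⟨g, c, hc, hgc⟩ := htr' z x0 hz0 hx00
    refine ⟨g, ?_⟩
    rw [← hgc, map_smul, cj_apply, g.symm_apply_apply, hz, map_zero, smul_zero]
  -- conclusion
  have htop : cy F x0 = ⊤ := by
    by_contra hne
    obtain ⟨y, hy⟩ : ∃ y, y ∉ cy F x0 := by
      by_contra hcon
      push Not at hcon
      exact hne (Submodule.eq_top_iff'.2 hcon)
    have key : ∀ z, z ∉ cy F x0 → cj g0 F z = 0 := by
      intro z hz
      by_contra hz0
      have hz1 : z ≠ 0 := by rintro rfl; exact hz0 (map_zero _)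
      have hxz : x0 + z ≠ 0 := by
        intro h
        apply hz
        have : z = -x0 := by rw [eq_neg_iff_add_eq_zero, add_comm]; exact h
        rw [this]
        exact Submodule.neg_mem _ (mem_cy F x0)
      have h1 : cj g0 F z ∈ cy F (x0 + z) := by
        have := cy_iv F (x0 + z) g0 _ (mem_cy F (x0 + z))
        rwa [map_add, hg0, zero_add] at this
      have h2 : cj g0 F z ∈ cy F z := cy_iv F z g0 _ (mem_cy F z)
      have h3 := heq _ _ hz0 h1
      have h4 := heq _ _ hz0 h2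
      have h5 : cy F (x0 + z) = cy F z := h3.symm.trans h4
      have h6 : x0 ∈ cy F z := by
        have h7 : x0 + z ∈ cy F z := h5 ▸ mem_cy F (x0 + z)
        have h8 : x0 = (x0 + z) - z := by abel
        rw [h8]
        exact Submodule.sub_mem _ h7 (mem_cy F z)
      have h9 := heq _ _ hx00 h6
      exact hz (h9 ▸ mem_cy F z)
    have hall : ∀ z, cj g0 F z = 0 := by
      intro z
      by_cases hz : z ∈ cy F x0
      · have h1 : z + y ∉ cy F x0 := fun h => hy (by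
          have : y = (z + y) - z := by abel
          rw [this]; exact Submodule.sub_mem _ h hz)
        have h2 := key _ h1
        rw [map_add, key y hy, add_zero] at h2
        exact h2
      · exact key z hz
    apply hu0
    have h1 := hall (g0 u0)
    rw [cj_apply, g0.symm_apply_apply] at h1
    have h2 : g0 (F u0) = g0 0 := by rw [h1, map_zero]
    exact g0.injective h2
  exact top_le_iff.1 (htop ▸ cy_le hV hx0)

end

end Pool.Agent.V5helper96.BM
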