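import Pool.Agent.V5helper96.BM.SSC

/-!
# Bernstein widths
-/

set_option autoImplicit false

namespace Pool.Agent.V5helper96.BM

open Filter Topology Metric
open scoped ENNReal
open Pool.H590R3.Ab (op op_apply op_mul op_one op_norm_le)
open Pool.Agent.R287.UP
open Pool.Agent.TH596.RO (cj AT DD)

section
variable {E : Type*} [NormedAddCommGroup E] [NormedSpace ℝ E]

/-- every subspace of dimension greater than `m` contains `x ≠ 0` with `‖a x‖ ≤ c ‖x‖` -/
def Bn (m : ℕ) (c : ℝ) (a : E →L[ℝ] E) : Prop :=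
  ∀ G : Submodule ℝ E, FiniteDimensional ℝ G → m < Module.finrank ℝ G →
    ∃ x ∈ G, x ≠ 0 ∧ ‖a x‖ ≤ c * ‖x‖

/-- separated unit vectors in a space of given dimension -/
lemma exists_sep (G : Submodule ℝ E) [FiniteDimensional ℝ G] (k : ℕ)
    (hk : k ≤ Module.finrank ℝ G) : ∃ s : Finset G, s.card = k ∧ (∀ x ∈ s, ‖x‖ = 1) ∧
      ∀ x ∈ s, ∀ y ∈ s, x ≠ y → 1 / 2 ≤ ‖x - y‖ := by
  classical
  induction k with
  | zero => exact ⟨∅, rfl, by simp, by simp⟩
  | succ k ih =>
    obtain ⟨s, hs, hs1, hs2⟩ := ih (by omega)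
    set F := Submodule.span ℝ (s : Set G) with hF
    have hFd : Module.finrank ℝ F ≤ k := by
      have := finrank_span_finset_le_card (R := ℝ) s
      rw [hs] at this
      exact this
    have hne : F ≠ ⊤ := by
      intro h
      rw [h, finrank_top] at hFd
      omega
    have hex : ∃ x : G, x ∉ F := by
      by_contra hcon
      push Not at hcon
      exact hne (Submodule.eq_top_iff'.2 hcon)
    obtain ⟨x0, hx0, hx0d⟩ := riesz_lemma (F := F) (Submodule.closed_of_finiteDimensional F) hex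
      (show (1 / 2 : ℝ) < 1 by norm_num)
    have hx00 : x0 ≠ 0 := by
      rintro rfl
      exact hx0 F.zero_mem
    have hn : 0 < ‖x0‖ := norm_pos_iff.2 hx00
    set x1 : G := ‖x0‖⁻¹ • x0 with hx1
    have hx1n : ‖x1‖ = 1 := by
      rw [hx1, norm_smul, norm_inv, norm_norm, inv_mul_cancel₀ hn.ne']
    have hfar : ∀ y ∈ F, 1 / 2 ≤ ‖x1 - y‖ := by
      intro y hy
      have h1 := hx0d (‖x0‖ • y) (F.smul_mem _ hy)
      have e : x0 - ‖x0‖ • y = ‖x0‖ • (x1 - y) := by
        rw [hx1, smul_sub, smul_smul, mul_inv_cancel₀ hn.ne', one_smul]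
      rw [e, norm_smul, norm_norm, mul_comm] at h1
      exact le_of_mul_le_mul_left h1 hn
    have hx1s : x1 ∉ s := by
      intro h
      have := hfar x1 (Submodule.subset_span h)
      rw [sub_self, norm_zero] at this
      norm_num at this
    refine ⟨insert x1 s, by rw [Finset.card_insert_of_notMem hx1s, hs], ?_, ?_⟩
    · intro x hx
      rcases Finset.mem_insert.1 hx with rfl | hx
      · exact hx1n
      · exact hs1 x hx
    · intro x hx y hy hxy
      rcases Finset.mem_insert.1 hx with rfl | hx <;> rcases Finset.mem_insert.1 hy with rfl | hy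
      · exact absurd rfl hxy
      · exact hfar y (Submodule.subset_span hy)
      · rw [norm_sub_rev]; exact hfar x (Submodule.subset_span hx)
      · exact hs2 x hx y hy hxy

/-- the Bernstein widths of a compact operator tend to zero -/
lemma Bn_of_KK {a : E →L[ℝ] E} (ha : a ∈ KK E) {ε : ℝ} (hε : 0 < ε) : ∃ m, Bn m ε a := by
  classical
  rw [mem_KK] at ha
  obtain ⟨C, hC, hCK⟩ := ha.image_closedBall_subset_compact (r := 1)
  obtain ⟨t, -, htf, ht⟩ := hC.finite_cover_balls (show 0 < ε / 4 by positivity)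
  refine ⟨htf.toFinset.card, fun G hG hGm => ?_⟩
  by_contra hcon
  push Not at hcon
  obtain ⟨s, hs, hs1, hs2⟩ := exists_sep G (htf.toFinset.card + 1) hGm
  have hsel : ∀ x : G, ∃ z : E, ‖x‖ = 1 → z ∈ htf.toFinset ∧ ‖a x - z‖ < ε / 4 := by
    intro x
    by_cases hx : ‖x‖ = 1
    · have h1 : a (x : E) ∈ C := hCK ⟨(x : E), by
        rw [mem_closedBall_zero_iff]; exact le_of_eq hx, rfl⟩
      obtain ⟨z, hz, hxz⟩ := Set.mem_iUnion₂.1 (ht h1)
      rw [mem_ball, dist_eq_norm] at hxz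
      exact ⟨z, fun _ => ⟨htf.mem_toFinset.2 hz, hxz⟩⟩
    · exact ⟨0, fun h => absurd h hx⟩
  choose z hz using hsel
  obtain ⟨x, hx, y, hy, hxy, hzz⟩ := Finset.exists_ne_map_eq_of_card_lt_of_maps_to
    (s := s) (t := htf.toFinset) (by rw [hs]; exact Nat.lt_succ_self _)
    (f := z) (fun x hx => (hz x (hs1 x hx)).1)
  have h1 := (hz x (hs1 x hx)).2
  have h2 := (hz y (hs1 y hy)).2
  rw [← hzz] at h2
  have h3 : ((x - y : G) : E) ≠ 0 := by
    intro h
    exact hxy (sub_eq_zero.1 (Subtype.ext h))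
  have h4 := hcon (x - y : G) (x - y).2 h3
  have h5 : a ((x - y : G) : E) = (a x - z x) - (a y - z x) := by
    rw [Submodule.coe_sub, map_sub]; abel
  rw [h5] at h4
  have h6 := norm_sub_le (a (x : E) - z x) (a (y : E) - z x)
  have h7 : 1 / 2 ≤ ‖((x - y : G) : E)‖ := hs2 x hx y hy hxy
  have h8 : ε * (1 / 2) ≤ ε * ‖((x - y : G) : E)‖ := mul_le_mul_of_nonneg_left h7 hε.le
  linarith

/-- Bernstein widths in the ultrapower -/
lemma Bn_limit {m : ℕ} {c : ℝ} {A : ℕ → E →L[ℝ] E} (hA : BF A)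
    (hF : ∀ᶠ i in (hyperfilter ℕ : Filter ℕ), Bn m c (A i)) {ι : Type} [Fintype ι]
    (hι : m < Fintype.card ι) (w : ι → UX E) (hw : LinearIndependent ℝ w) :
    ∃ d : ι → ℝ, ∑ k, d k • w k ≠ 0 ∧
      ‖tw A hA (∑ k, d k • w k)‖ ≤ c * ‖∑ k, d k • w k‖ := by
  classical
  choose y hy hyw using fun k => exists_cl (w k)
  have h1 : ∀ᶠ i in (hyperfilter ℕ : Filter ℕ), ∃ b : ι → ℝ, ∑ k, |b k| = 1 ∧
      ‖A i (∑ k, b k • y k i)‖ ≤ c * ‖∑ k, b k • y k i‖ := by
    filter_upwards [hF] with i hFi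
    have h2 : ∃ g : ι → ℝ, (∃ k, g k ≠ 0) ∧
        ‖A i (∑ k, g k • y k i)‖ ≤ c * ‖∑ k, g k • y k i‖ := by
      by_cases hli : LinearIndependent ℝ (fun k => y k i)
      · have h3 : Module.finrank ℝ (Submodule.span ℝ (Set.range fun k => y k i)) =
            Fintype.card ι := finrank_span_eq_card hli
        haveI : FiniteDimensional ℝ (Submodule.span ℝ (Set.range fun k => y k i)) :=
          FiniteDimensional.span_of_finite ℝ (Set.finite_range _)
        obtain ⟨x, hx, hx0, hxc⟩ := hFi _ inferInstance (by rw [h3]; exact hι)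
        obtain ⟨g, rfl⟩ := (Submodule.mem_span_range_iff_exists_fun ℝ).1 hx
        refine ⟨g, ?_, hxc⟩
        by_contra hcon
        push Not at hcon
        exact hx0 (Finset.sum_eq_zero fun k _ => by rw [hcon k, zero_smul])
      · rw [Fintype.not_linearIndependent_iff] at hli
        obtain ⟨g, hg, hg0⟩ := hli
        refine ⟨g, hg0, ?_⟩
        rw [hg]
        simp
    obtain ⟨g, ⟨k0, hk0⟩, hg⟩ := h2
    have hs : 0 < ∑ k, |g k| := lt_of_lt_of_le (abs_pos.2 hk0)
      (Finset.single_le_sum (f := fun k => |g k|) (fun k _ => abs_nonneg _) (Finset.mem_univ k0))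
    refine ⟨fun k => (∑ k, |g k|)⁻¹ * g k, ?_, ?_⟩
    · have : ∀ k, |(∑ k, |g k|)⁻¹ * g k| = (∑ k, |g k|)⁻¹ * |g k| := by
        intro k
        rw [abs_mul, abs_of_pos (inv_pos.2 hs)]
      rw [Finset.sum_congr rfl fun k _ => this k, ← Finset.mul_sum, inv_mul_cancel₀ hs.ne']
    · have h4 : ∑ k, ((∑ k, |g k|)⁻¹ * g k) • y k i = (∑ k, |g k|)⁻¹ • ∑ k, g k • y k i := by
        rw [Finset.smul_sum]
        exact Finset.sum_congr rfl fun k _ => mul_smul _ _ _
      rw [h4, map_smul, norm_smul, norm_smul]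
      have h5 : 0 ≤ ‖(∑ k, |g k|)⁻¹‖ := norm_nonneg _
      nlinarith
  have hne : ∃ b : ι → ℝ, ∑ k, |b k| = 1 := by
    obtain ⟨i, b, hb, -⟩ := h1.exists
    exact ⟨b, hb⟩
  obtain ⟨b0, hb0⟩ := hne
  have h2 : ∀ i, ∃ b : ι → ℝ, ∑ k, |b k| = 1 ∧
      ((∃ b : ι → ℝ, ∑ k, |b k| = 1 ∧ ‖A i (∑ k, b k • y k i)‖ ≤ c * ‖∑ k, b k • y k i‖) →
        ‖A i (∑ k, b k • y k i)‖ ≤ c * ‖∑ k, b k • y k i‖) := by
    intro i
    by_cases h : ∃ b : ι → ℝ, ∑ k, |b k| = 1 ∧
        ‖A i (∑ k, b k • y k i)‖ ≤ c * ‖∑ k, b k • y k i‖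
    · obtain ⟨b, hb, hb2⟩ := h
      exact ⟨b, hb, fun _ => hb2⟩
    · exact ⟨b0, hb0, fun h' => absurd h' h⟩
  choose b hb1 hb2 using h2
  have hK : IsCompact {b : ι → ℝ | ∑ k, |b k| = 1} := by
    refine Metric.isCompact_of_isClosed_isBounded ?_ ?_
    · exact isClosed_eq (continuous_finsetSum _ fun k _ => (continuous_apply k).abs) continuous_const
    · refine (isBounded_closedBall (x := (0 : ι → ℝ)) (r := 1)).subset ?_
      intro b hb
      rw [mem_closedBall_zero_iff, pi_norm_le_iff_of_nonneg zero_le_one]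
      intro k
      rw [Real.norm_eq_abs]
      have h3 : |b k| ≤ ∑ k, |b k| :=
        Finset.single_le_sum (f := fun k => |b k|) (fun k _ => abs_nonneg _) (Finset.mem_univ k)
      rw [hb] at h3
      exact h3
  have h3 : ((hyperfilter ℕ).map b : Filter (ι → ℝ)) ≤ 𝓟 {b : ι → ℝ | ∑ k, |b k| = 1} := by
    rw [le_principal_iff]
    exact Filter.mem_map.2 (Filter.univ_mem' hb1)
  obtain ⟨d, hd, hbd⟩ := hK.ultrafilter_le_nhds ((hyperfilter ℕ).map b) h3
  have hbd' : Tendsto b (hyperfilter ℕ : Filter ℕ) (𝓝 d) := hbd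
  refine ⟨d, ?_, ?_⟩
  · intro h0
    have h4 := Fintype.linearIndependent_iff.1 hw d h0
    have h5 : ∑ k, |d k| = 0 := Finset.sum_eq_zero fun k _ => by rw [h4 k, abs_zero]
    have h6 : ∑ k, |d k| = 1 := hd
    rw [h5] at h6
    exact zero_ne_one h6
  · -- the vector is also the class of the vectors with the coefficients `b i`
    obtain ⟨hz, hz2⟩ := cl_sum Finset.univ d y hy
    have hzb : BF (fun i => ∑ k, b i k • y k i) := by
      have hy' : ∀ k, ∃ C : ℝ, ∀ i, ‖y k i‖ ≤ C := hy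
      choose C hC using hy'
      refine ⟨∑ k, C k, fun i => (norm_sum_le _ _).trans (Finset.sum_le_sum fun k _ => ?_)⟩
      rw [norm_smul, Real.norm_eq_abs]
      have h4 : |b i k| ≤ 1 := by
        have h5 : |b i k| ≤ ∑ k, |b i k| := Finset.single_le_sum (f := fun k => |b i k|)
          (fun k _ => abs_nonneg _) (Finset.mem_univ k)
        rw [hb1 i] at h5
        exact h5
      exact (mul_le_of_le_one_left (norm_nonneg _) h4).trans (hC k i)
    have h4 : cl _ hz = cl _ hzb := by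
      rw [cl_eq]
      have h5 : Tendsto (fun i => ∑ k, |d k - b i k| * ‖y k i‖) (hyperfilter ℕ : Filter ℕ)
          (𝓝 0) := by
        have h6 : ∀ k, Tendsto (fun i => |d k - b i k| * ‖y k i‖) (hyperfilter ℕ : Filter ℕ)
            (𝓝 0) := by
          intro k
          have h7 : Tendsto (fun i => b i k) (hyperfilter ℕ : Filter ℕ) (𝓝 (d k)) :=
            ((continuous_apply k).tendsto d).comp hbd'
          have h8 : Tendsto (fun i => |d k - b i k|) (hyperfilter ℕ : Filter ℕ) (𝓝 0) := by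
            have := (tendsto_const_nhds (x := d k) (f := (hyperfilter ℕ : Filter ℕ))).sub h7
            rw [sub_self] at this
            simpa using this.abs
          have h9 := h8.mul (cl_norm (hy k))
          rw [zero_mul] at h9
          exact h9
        simpa using tendsto_finsetSum Finset.univ fun k _ => h6 k
      refine squeeze_zero (fun i => norm_nonneg _) (fun i => ?_) h5
      have h7 : (∑ k, d k • y k i) - ∑ k, b i k • y k i = ∑ k, (d k - b i k) • y k i := by
        rw [← Finset.sum_sub_distrib]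
        exact Finset.sum_congr rfl fun k _ => (sub_smul _ _ _).symm
      rw [h7]
      refine (norm_sum_le _ _).trans (le_of_eq (Finset.sum_congr rfl fun k _ => ?_))
      rw [norm_smul, Real.norm_eq_abs]
    have h5 : ∑ k, d k • w k = cl _ hzb := by
      rw [← h4, hz2]
      exact Finset.sum_congr rfl fun k _ => by rw [hyw k]
    rw [h5, tw_cl]
    refine le_of_tendsto_of_tendsto (cl_norm _) ((cl_norm hzb).const_mul c) ?_
    filter_upwards [h1] with i hi
    exact hb2 i hi

end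

end Pool.Agent.V5helper96.BM
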