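import Pool.Agent.V5helper96.BM.Skew

/-!
# An inner product on a finite-dimensional normed space which is invariant under all isometries

Integrate `f (x) f (y)` over the unit ball of the dual space.
-/

set_option autoImplicit false

namespace Pool.Agent.V5helper96.BM

open Filter Topology Metric MeasureTheory
open scoped Nat

section haar
variable {Y : Type*} [NormedAddCommGroup Y] [NormedSpace ℝ Y] [FiniteDimensional ℝ Y]
  [MeasurableSpace Y] [BorelSpace Y]

lemma isom_preserving (L : Y ≃ₗᵢ[ℝ] Y) (μ : Measure Y) [μ.IsAddHaarMeasure] :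
    MeasurePreserving L μ μ := by
  haveI : ProperSpace Y := FiniteDimensional.proper_real Y
  refine ⟨L.continuous.measurable, ?_⟩
  have hdet : LinearMap.det (L.toLinearEquiv : Y →ₗ[ℝ] Y) ≠ 0 := L.toLinearEquiv.isUnit_det'.ne_zero
  have h1 := Measure.map_linearMap_addHaar_eq_smul_addHaar μ hdet
  have h1' : Measure.map L μ =
      ENNReal.ofReal |(LinearMap.det (L.toLinearEquiv : Y →ₗ[ℝ] Y))⁻¹| • μ := h1
  have hpos : 0 < μ (closedBall (0 : Y) 1) := measure_closedBall_pos μ 0 one_pos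
  have hfin : μ (closedBall (0 : Y) 1) < ⊤ := measure_closedBall_lt_top
  have h2 : Measure.map L μ (closedBall (0 : Y) 1) = μ (closedBall (0 : Y) 1) := by
    rw [Measure.map_apply L.continuous.measurable isClosed_closedBall.measurableSet]
    congr 1
    ext y
    rw [Set.mem_preimage, mem_closedBall_zero_iff, mem_closedBall_zero_iff, L.norm_map]
  rw [h1', Measure.smul_apply, smul_eq_mul] at h2
  have h3 : ENNReal.ofReal |(LinearMap.det (L.toLinearEquiv : Y →ₗ[ℝ] Y))⁻¹| = 1 := by
    have h4 : ENNReal.ofReal |(LinearMap.det (L.toLinearEquiv : Y →ₗ[ℝ] Y))⁻¹| *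
        μ (closedBall (0 : Y) 1) = 1 * μ (closedBall (0 : Y) 1) := by rw [h2, one_mul]
    exact (ENNReal.mul_left_inj hpos.ne' hfin.ne).1 h4
  rw [h1', h3, one_smul]

end haar

section
variable {V : Type*} [NormedAddCommGroup V] [NormedSpace ℝ V] [FiniteDimensional ℝ V]

instance dual_fd : FiniteDimensional ℝ (V →L[ℝ] ℝ) :=
  Module.Finite.equiv (LinearMap.toContinuousLinearMap : (V →ₗ[ℝ] ℝ) ≃ₗ[ℝ] (V →L[ℝ] ℝ))

/-- the adjoint of an isometry -/
noncomputable def adj (l : V ≃ₗᵢ[ℝ] V) : (V →L[ℝ] ℝ) ≃ₗᵢ[ℝ] (V →L[ℝ] ℝ) where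
  toFun f := f.comp (l.toContinuousLinearEquiv : V →L[ℝ] V)
  invFun f := f.comp (l.symm.toContinuousLinearEquiv : V →L[ℝ] V)
  map_add' f g := by ext x; rfl
  map_smul' c f := by ext x; rfl
  left_inv f := by
    ext x
    show f (l (l.symm x)) = f x
    rw [l.apply_symm_apply]
  right_inv f := by
    ext x
    show f (l.symm (l x)) = f x
    rw [l.symm_apply_apply]
  norm_map' f := by
    apply le_antisymm
    · refine ContinuousLinearMap.opNorm_le_bound _ (norm_nonneg _) fun x => ?_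
      show ‖f (l x)‖ ≤ _
      refine (f.le_opNorm _).trans (le_of_eq ?_)
      rw [l.norm_map]
    · refine ContinuousLinearMap.opNorm_le_bound _ (norm_nonneg _) fun x => ?_
      have h : f x = (f.comp (l.toContinuousLinearEquiv : V →L[ℝ] V)) (l.symm x) := by
        show f x = f (l (l.symm x))
        rw [l.apply_symm_apply]
      rw [h]
      refine (ContinuousLinearMap.le_opNorm _ _).trans (le_of_eq ?_)
      rw [l.symm.norm_map]
      rfl

/-- **the invariant inner product** -/
theorem exists_inv_form : ∃ b : V →L[ℝ] V →L[ℝ] ℝ, (∀ x y, b x y = b y x) ∧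
    (∀ x, x ≠ 0 → 0 < b x x) ∧ ∀ (l : V ≃ₗᵢ[ℝ] V) (x y : V), b (l x) (l y) = b x y := by
  letI : MeasurableSpace (V →L[ℝ] ℝ) := borel _
  haveI : BorelSpace (V →L[ℝ] ℝ) := ⟨rfl⟩
  haveI : ProperSpace (V →L[ℝ] ℝ) := FiniteDimensional.proper_real _
  set μ : Measure (V →L[ℝ] ℝ) := Measure.addHaar with hμ
  set B := closedBall (0 : V →L[ℝ] ℝ) 1 with hB
  have hBm : MeasurableSet B := isClosed_closedBall.measurableSet
  have hBc : IsCompact B := isCompact_closedBall _ _
  have hcont : ∀ x y : V, Continuous fun f : V →L[ℝ] ℝ => f x * f y := fun x y => by fun_prop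
  have hint : ∀ x y : V, IntegrableOn (fun f : V →L[ℝ] ℝ => f x * f y) B μ := fun x y =>
    (hcont x y).continuousOn.integrableOn_compact hBc
  let b0 : V →ₗ[ℝ] V →ₗ[ℝ] ℝ := LinearMap.mk₂ ℝ (fun x y => ∫ f in B, f x * f y ∂μ)
    (fun x x' y => by
      rw [← integral_add (hint x y) (hint x' y)]
      refine integral_congr_ae (Eventually.of_forall fun f => ?_)
      simp only [map_add]; ring)
    (fun c x y => by
      rw [smul_eq_mul, ← integral_const_mul]
      refine integral_congr_ae (Eventually.of_forall fun f => ?_)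
      simp only [map_smul, smul_eq_mul]; ring)
    (fun x y y' => by
      rw [← integral_add (hint x y) (hint x y')]
      refine integral_congr_ae (Eventually.of_forall fun f => ?_)
      simp only [map_add]; ring)
    (fun c x y => by
      rw [smul_eq_mul, ← integral_const_mul]
      refine integral_congr_ae (Eventually.of_forall fun f => ?_)
      simp only [map_smul, smul_eq_mul]; ring)
  have hb0 : ∀ x y, b0 x y = ∫ f in B, f x * f y ∂μ := fun x y => rfl
  let b : V →L[ℝ] V →L[ℝ] ℝ := LinearMap.toContinuousLinearMap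
    ((LinearMap.toContinuousLinearMap : (V →ₗ[ℝ] ℝ) ≃ₗ[ℝ] (V →L[ℝ] ℝ)).toLinearMap ∘ₗ b0)
  have hb : ∀ x y, b x y = ∫ f in B, f x * f y ∂μ := fun x y => rfl
  refine ⟨b, fun x y => ?_, fun x hx => ?_, fun l x y => ?_⟩
  · rw [hb, hb]
    refine integral_congr_ae (Eventually.of_forall fun f => ?_)
    simp only
    ring
  · rw [hb, setIntegral_pos_iff_support_of_nonneg_ae
      (Eventually.of_forall fun f => mul_self_nonneg _) (hint x x)]
    have hsub : ball (0 : V →L[ℝ] ℝ) 1 ∩ {f | f x ≠ 0} ⊆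
        Function.support (fun f : V →L[ℝ] ℝ => f x * f x) ∩ B := by
      rintro f ⟨hf1, hf2⟩
      refine ⟨mul_ne_zero hf2 hf2, ball_subset_closedBall hf1⟩
    refine lt_of_lt_of_le ?_ (measure_mono hsub)
    apply IsOpen.measure_pos
    · apply isOpen_ball.inter
      have : Continuous fun f : V →L[ℝ] ℝ => f x := by fun_prop
      exact isOpen_ne_fun this continuous_const
    · obtain ⟨g, hg1, hg2⟩ := exists_dual_vector ℝ x (norm_ne_zero_iff.2 hx)
      refine ⟨(1 / 2 : ℝ) • g, ?_, ?_⟩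
      · rw [mem_ball_zero_iff, norm_smul, hg1]
        norm_num
      · show (1 / 2 : ℝ) • g x ≠ 0
        rw [hg2]
        simp [hx]
  · rw [hb, hb]
    have h1 := (isom_preserving (adj l) μ).setIntegral_preimage_emb
      (adj l).toHomeomorph.measurableEmbedding (fun f : V →L[ℝ] ℝ => f x * f y) B
    have h2 : (adj l) ⁻¹' B = B := by
      ext f
      rw [Set.mem_preimage, hB, mem_closedBall_zero_iff, mem_closedBall_zero_iff,
        (adj l).norm_map]
    rw [h2] at h1
    exact h1

end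

section expo
variable {E : Type*} [NormedAddCommGroup E] [NormedSpace ℝ E] [CompleteSpace E]

lemma exp_sub_bound (a : E →L[ℝ] E) :
    ‖NormedSpace.exp a - 1 - a‖ ≤ Real.exp ‖a‖ - 1 - ‖a‖ := by
  have h1 : HasSum (fun n : ℕ => ((n ! : ℝ)⁻¹) • a ^ n) (NormedSpace.exp a) :=
    NormedSpace.exp_series_hasSum_exp' a
  have h2 : HasSum (fun n : ℕ => ((n ! : ℝ)⁻¹) * ‖a‖ ^ n) (Real.exp ‖a‖) := by
    have := NormedSpace.exp_series_hasSum_exp' (𝕂 := ℝ) ‖a‖
    rw [← Real.exp_eq_exp_ℝ] at this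
    simpa [smul_eq_mul] using this
  have h3 := (hasSum_nat_add_iff' 2).2 h1
  have h4 := (hasSum_nat_add_iff' 2).2 h2
  have e3 : NormedSpace.exp a - ∑ i ∈ Finset.range 2, ((i ! : ℝ)⁻¹) • a ^ i =
      NormedSpace.exp a - 1 - a := by
    simp [Finset.sum_range_succ]; abel
  have e4 : Real.exp ‖a‖ - ∑ i ∈ Finset.range 2, ((i ! : ℝ)⁻¹) * ‖a‖ ^ i =
      Real.exp ‖a‖ - 1 - ‖a‖ := by
    simp [Finset.sum_range_succ]; ring
  rw [e3] at h3
  rw [e4] at h4
  rw [← h3.tsum_eq]
  refine tsum_of_norm_bounded h4 (fun n => ?_)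
  rw [norm_smul, Real.norm_of_nonneg (by positivity)]
  refine mul_le_mul_of_nonneg_left ?_ (by positivity)
  exact norm_pow_le' a (by omega)

lemma exp_neg_mul (D : E →L[ℝ] E) : NormedSpace.exp (-D) * NormedSpace.exp D = 1 := by
  letI := NormedAlgebra.restrictScalars ℚ ℝ (E →L[ℝ] E)
  rw [← NormedSpace.exp_add_of_commute (Commute.neg_left (Commute.refl D)), neg_add_cancel,
    NormedSpace.exp_zero]

lemma exp_mul_neg (D : E →L[ℝ] E) : NormedSpace.exp D * NormedSpace.exp (-D) = 1 := by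
  letI := NormedAlgebra.restrictScalars ℚ ℝ (E →L[ℝ] E)
  rw [← NormedSpace.exp_add_of_commute (Commute.neg_right (Commute.refl D)), add_neg_cancel,
    NormedSpace.exp_zero]

lemma exp_nsmul' (n : ℕ) (D : E →L[ℝ] E) :
    NormedSpace.exp (n • D) = NormedSpace.exp D ^ n := by
  letI := NormedAlgebra.restrictScalars ℚ ℝ (E →L[ℝ] E)
  exact NormedSpace.exp_nsmul n D

lemma exp_le_one {D : E →L[ℝ] E} (h : Bq D) : ‖NormedSpace.exp D‖ ≤ 1 := by
  obtain ⟨C, hC⟩ := h
  set K : ℝ := |C| + ‖D‖ ^ 2 * Real.exp ‖D‖ with hK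
  have hK0 : 0 ≤ K := by positivity
  have key : ∀ n : ℕ, ‖NormedSpace.exp D‖ ≤ Real.exp (K * (1 / ((n : ℝ) + 1))) := by
    intro n
    have hm0 : (0 : ℝ) < (n : ℝ) + 1 := by positivity
    set s : ℝ := 1 / ((n : ℝ) + 1) with hs
    have hs0 : 0 ≤ s := by positivity
    have hs1 : s ≤ 1 := by
      rw [hs, div_le_one hm0]
      have : (0 : ℝ) ≤ n := Nat.cast_nonneg n
      linarith
    have h1 : ‖NormedSpace.exp (s • D)‖ ≤ 1 + K * s ^ 2 := by
      have e : NormedSpace.exp (s • D) = (1 + s • D) + (NormedSpace.exp (s • D) - 1 - s • D) := by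
        abel
      rw [e]
      refine (norm_add_le _ _).trans ?_
      have h2 : ‖1 + s • D‖ ≤ 1 + |C| * s ^ 2 := by
        refine (hC s).trans ?_
        have := mul_le_mul_of_nonneg_right (le_abs_self C) (sq_nonneg s)
        linarith
      have h3 : ‖NormedSpace.exp (s • D) - 1 - s • D‖ ≤ ‖D‖ ^ 2 * Real.exp ‖D‖ * s ^ 2 := by
        refine (exp_sub_bound _).trans ?_
        have hn : ‖s • D‖ = s * ‖D‖ := by rw [norm_smul, Real.norm_of_nonneg hs0]
        refine (exp_sub_le (norm_nonneg _)).trans ?_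
        rw [hn, mul_pow]
        have h5 : Real.exp (s * ‖D‖) ≤ Real.exp ‖D‖ := by
          apply Real.exp_le_exp.2
          have := mul_le_mul_of_nonneg_right hs1 (norm_nonneg D)
          linarith
        calc s ^ 2 * ‖D‖ ^ 2 * Real.exp (s * ‖D‖) ≤ s ^ 2 * ‖D‖ ^ 2 * Real.exp ‖D‖ :=
              mul_le_mul_of_nonneg_left h5 (by positivity)
          _ = _ := by ring
      rw [hK]
      linarith
    have h4 : NormedSpace.exp D = (NormedSpace.exp (s • D)) ^ (n + 1) := by
      rw [← exp_nsmul']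
      congr 1
      rw [← Nat.cast_smul_eq_nsmul ℝ, smul_smul, hs]
      push_cast
      rw [mul_one_div_cancel hm0.ne', one_smul]
    rw [h4]
    refine (norm_pow_le_exp hK0 h1 (n + 1)).trans (le_of_eq ?_)
    congr 1
    rw [hs]
    push_cast
    field_simp
  have hl : Tendsto (fun n : ℕ => Real.exp (K * (1 / ((n : ℝ) + 1)))) atTop (𝓝 (Real.exp (K * 0))) :=
    (Real.continuous_exp.tendsto _).comp
      (tendsto_one_div_add_atTop_nhds_zero_nat.const_mul K)
  have := ge_of_tendsto' hl key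
  rwa [mul_zero, Real.exp_zero] at this

lemma Bq_neg {D : E →L[ℝ] E} (h : Bq D) : Bq (-D) := by
  have := Bq_smul h (-1)
  rwa [neg_one_smul] at this

/-- the isometry `exp D` -/
noncomputable def expI {D : E →L[ℝ] E} (h : Bq D) : E ≃ₗᵢ[ℝ] E where
  toFun x := NormedSpace.exp D x
  invFun x := NormedSpace.exp (-D) x
  map_add' := map_add _
  map_smul' c x := map_smul _ c x
  left_inv x := by
    have := exp_neg_mul D
    show (NormedSpace.exp (-D) * NormedSpace.exp D) x = x
    rw [this]; rfl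
  right_inv x := by
    have := exp_mul_neg D
    show (NormedSpace.exp D * NormedSpace.exp (-D)) x = x
    rw [this]; rfl
  norm_map' x := by
    have h0 := exp_neg_mul D
    show ‖NormedSpace.exp D x‖ = ‖x‖
    apply le_antisymm
    · refine (ContinuousLinearMap.le_opNorm _ _).trans ?_
      exact mul_le_of_le_one_left (norm_nonneg _) (exp_le_one h)
    · have h1 : x = NormedSpace.exp (-D) (NormedSpace.exp D x) := by
        show x = (NormedSpace.exp (-D) * NormedSpace.exp D) x
        rw [h0]; rfl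
      calc ‖x‖ = ‖NormedSpace.exp (-D) (NormedSpace.exp D x)‖ := by rw [← h1]
        _ ≤ _ := (ContinuousLinearMap.le_opNorm _ _).trans
          (mul_le_of_le_one_left (norm_nonneg _) (exp_le_one (Bq_neg h)))

lemma expI_apply {D : E →L[ℝ] E} (h : Bq D) (x : E) : expI h x = NormedSpace.exp D x := rfl

/-- generators of isometries are skew for invariant forms -/
lemma skew_of_inv {b : E →L[ℝ] E →L[ℝ] ℝ}
    (hb : ∀ (l : E ≃ₗᵢ[ℝ] E) (x y : E), b (l x) (l y) = b x y) {D : E →L[ℝ] E} (h : Bq D)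
    (x y : E) : b (D x) y = - b x (D y) := by
  have hd : ∀ z : E, HasDerivAt (fun t : ℝ => NormedSpace.exp (t • D) z) (D z) 0 := by
    intro z
    have h1 := hasDerivAt_exp_smul_const (𝕂 := ℝ) D (0 : ℝ)
    rw [zero_smul, NormedSpace.exp_zero, one_mul] at h1
    have h2 := h1.clm_apply (hasDerivAt_const (0 : ℝ) z)
    simpa using h2
  have h1 : HasDerivAt (fun t : ℝ => b (NormedSpace.exp (t • D) x)) (b (D x)) 0 :=
    b.hasFDerivAt.comp_hasDerivAt (0 : ℝ) (hd x)
  have h2 := h1.clm_apply (hd y)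
  have h3 : (fun t : ℝ => b (NormedSpace.exp (t • D) x) (NormedSpace.exp (t • D) y)) =
      fun _ => b x y := by
    funext t
    exact hb (expI (Bq_smul h t)) x y
  rw [h3] at h2
  have h4 := h2.unique (hasDerivAt_const (0 : ℝ) (b x y))
  rw [zero_smul, NormedSpace.exp_zero] at h4
  have h5 : b (D x) y + b x (D y) = 0 := h4
  linarith

end expo

end Pool.Agent.V5helper96.BM
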