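import Pool.Agent.V5helper96.BM.Four
import Pool.Agent.H590R3.AbFop

/-!
# Functional calculus of an isometry which is a compact perturbation of the identity
-/

set_option autoImplicit false

namespace Pool.Agent.V5helper96.BM

open Pool.H590R3.Ab Filter Topology Metric

section
variable {E : Type*} [NormedAddCommGroup E] [NormedSpace ℝ E]

/-- the compact operators -/
noncomputable def KK (E : Type*) [NormedAddCommGroup E] [NormedSpace ℝ E] :
    Submodule ℝ (E →L[ℝ] E) := compactOperator (RingHom.id ℝ) E E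

lemma mem_KK {a : E →L[ℝ] E} : a ∈ KK E ↔ IsCompactOperator a := Iff.rfl

lemma KK_mul_left {a b : E →L[ℝ] E} (ha : a ∈ KK E) : b * a ∈ KK E := by
  rw [mem_KK] at *
  exact ha.clm_comp b

lemma KK_mul_right {a b : E →L[ℝ] E} (ha : a ∈ KK E) : a * b ∈ KK E := by
  rw [mem_KK] at *
  exact ha.comp_clm b

lemma KK_closed [CompleteSpace E] : IsClosed (KK E : Set (E →L[ℝ] E)) :=
  isClosed_setOfPred_isCompactOperator

lemma op_inv_mul (T : E ≃ₗᵢ[ℝ] E) : op T⁻¹ * op T = 1 := by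
  rw [← op_mul, inv_mul_cancel, op_one]

lemma op_mul_inv (T : E ≃ₗᵢ[ℝ] E) : op T * op T⁻¹ = 1 := by
  rw [← op_mul, mul_inv_cancel, op_one]

lemma KK_op_mul {S T : E ≃ₗᵢ[ℝ] E} (hS : op S - 1 ∈ KK E) (hT : op T - 1 ∈ KK E) :
    op (S * T) - 1 ∈ KK E := by
  have e : op (S * T) - 1 = (op S - 1) * op T + (op T - 1) := by
    rw [op_mul]; noncomm_ring
  rw [e]
  exact Submodule.add_mem _ (KK_mul_right hS) hT

lemma KK_op_inv {T : E ≃ₗᵢ[ℝ] E} (hT : op T - 1 ∈ KK E) : op T⁻¹ - 1 ∈ KK E := by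
  have e : op T⁻¹ - 1 = -(op T⁻¹ * (op T - 1)) := by
    rw [mul_sub, op_inv_mul]; noncomm_ring
  rw [e]
  exact Submodule.neg_mem _ (KK_mul_left hT)

lemma KK_op_pow {T : E ≃ₗᵢ[ℝ] E} (hT : op T - 1 ∈ KK E) (n : ℕ) : op (T ^ n) - 1 ∈ KK E := by
  induction n with
  | zero => rw [pow_zero, op_one, sub_self]; exact Submodule.zero_mem _
  | succ n ih => rw [pow_succ]; exact KK_op_mul ih hT

lemma KK_op_zpow {T : E ≃ₗᵢ[ℝ] E} (hT : op T - 1 ∈ KK E) (n : ℤ) : op (T ^ n) - 1 ∈ KK E := by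
  cases n with
  | ofNat n => rw [Int.ofNat_eq_natCast, zpow_natCast]; exact KK_op_pow hT n
  | negSucc n => rw [zpow_negSucc]; exact KK_op_inv (KK_op_pow hT _)

lemma KK_op_conj {T : E ≃ₗᵢ[ℝ] E} (hT : op T - 1 ∈ KK E) (g : E ≃ₗᵢ[ℝ] E) :
    op (g * T * g⁻¹) - 1 ∈ KK E := by
  have e : op (g * T * g⁻¹) - 1 = op g * (op T - 1) * op g⁻¹ := by
    rw [op_mul, op_mul, mul_sub, sub_mul, mul_one, op_mul_inv]
  rw [e]
  exact KK_mul_right (KK_mul_left hT)

lemma op_injective : Function.Injective (op : (E ≃ₗᵢ[ℝ] E) → (E →L[ℝ] E)) := by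
  intro S T h
  ext x
  have : op S x = op T x := by rw [h]
  exact this

/-- a compact operator on an infinite-dimensional space is not bounded below -/
lemma KK_small [CompleteSpace E] (hE : ¬ FiniteDimensional ℝ E) {a : E →L[ℝ] E} (ha : a ∈ KK E)
    {δ : ℝ} (hδ : 0 < δ) : ∃ z : E, ‖z‖ = 1 ∧ ‖a z‖ < δ := by
  by_contra hcon
  push Not at hcon
  have hb : ∀ z : E, δ * ‖z‖ ≤ ‖a z‖ := by
    intro z
    by_cases hz : z = 0
    · rw [hz, norm_zero, mul_zero]; exact norm_nonneg _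
    have hz' : 0 < ‖z‖ := norm_pos_iff.2 hz
    have h1 := hcon (‖z‖⁻¹ • z) (by rw [norm_smul, norm_inv, norm_norm, inv_mul_cancel₀ hz'.ne'])
    rw [map_smul, norm_smul, norm_inv, norm_norm] at h1
    calc δ * ‖z‖ ≤ ‖z‖⁻¹ * ‖a z‖ * ‖z‖ := mul_le_mul_of_nonneg_right h1 hz'.le
      _ = ‖a z‖ := by field_simp
  have hanti : AntilipschitzWith (Real.toNNReal δ⁻¹) a := by
    apply AddMonoidHomClass.antilipschitz_of_bound a
    intro z
    rw [Real.coe_toNNReal _ (by positivity)]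
    rw [inv_mul_eq_div, le_div_iff₀ hδ, mul_comm]
    exact hb z
  have hemb : IsClosedEmbedding a := hanti.isClosedEmbedding a.uniformContinuous
  have hc : IsCompact (closure (a '' closedBall (0 : E) 1)) :=
    IsCompactOperator.isCompact_closure_image_closedBall (f := (a : E →ₗ[ℝ] E)) ha 1
  have h2 : IsCompact (a ⁻¹' closure (a '' closedBall (0 : E) 1)) := hemb.isCompact_preimage hc
  have h3 : IsCompact (closedBall (0 : E) 1) :=
    h2.of_isClosed_subset isClosed_closedBall fun x hx => subset_closure ⟨x, hx, rfl⟩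
  exact hE (FiniteDimensional.of_isCompact_closedBall ℝ one_pos h3)

/-- the fixed space of a compact operator is finite-dimensional -/
lemma KK_fix {a : E →L[ℝ] E} (ha : a ∈ KK E) :
    FiniteDimensional ℝ (LinearMap.ker ((1 - a : E →L[ℝ] E) : E →ₗ[ℝ] E)) := by
  set Y := LinearMap.ker ((1 - a : E →L[ℝ] E) : E →ₗ[ℝ] E) with hY
  have hfix : ∀ y : Y, a (y : E) = y := by
    intro y
    have : (1 - a : E →L[ℝ] E) (y : E) = 0 := y.2
    rw [ContinuousLinearMap.sub_apply, ContinuousLinearMap.one_apply, sub_eq_zero] at this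
    exact this.symm
  have hcl : IsClosed (Y : Set E) := by
    rw [hY]; exact (1 - a : E →L[ℝ] E).isClosed_ker
  have h1 : IsCompactOperator (fun y : Y => a (Y.subtypeL y)) :=
    IsCompactOperator.comp_clm (f := a) ha Y.subtypeL
  have hV : ∀ y : Y, a (Y.subtypeL y) ∈ Y := fun y => by
    show a (y : E) ∈ Y
    rw [hfix]; exact y.2
  have h2 := h1.codRestrict (V := Y) hV hcl
  have e : (Set.codRestrict (fun y : Y => a (Y.subtypeL y)) (Y : Set E) hV : Y → Y) = id := by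
    funext y
    apply Subtype.ext
    exact hfix y
  have h3 : IsCompactOperator (id : Y → Y) := e ▸ h2
  exact FiniteDimensional.of_isCompactOperator_id (𝕜 := ℝ) h3

/-- finite rank -/
def FR (a : E →L[ℝ] E) : Prop := FiniteDimensional ℝ (LinearMap.range (a : E →ₗ[ℝ] E))

lemma FR_of_le {a : E →L[ℝ] E} {W : Submodule ℝ E} [FiniteDimensional ℝ W]
    (h : ∀ x, a x ∈ W) : FR a := by
  have : LinearMap.range (a : E →ₗ[ℝ] E) ≤ W := by
    rintro _ ⟨x, rfl⟩
    exact h x
  exact Submodule.finiteDimensional_of_le this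

variable [CompleteSpace E]

lemma Fop_mul (n : E ≃ₗᵢ[ℝ] E) {a b c : ℤ → ℝ} (ha : Summable fun k => |a k|)
    (hb : Summable fun k => |b k|) (h : ∀ m : ℤ, ∑' k : ℤ, a k * b (m - k) = c m) :
    Fop n a * Fop n b = Fop n c := by
  have h1 := tsum_mul_tsum_of_summable_norm (summable_term_norm n ha) (summable_term_norm n hb)
  unfold Fop
  rw [h1]
  have hs := summable_mul_of_summable_norm (summable_term_norm n ha) (summable_term_norm n hb)
  let e : ℤ × ℤ ≃ ℤ × ℤ :=
    { toFun := fun p => (p.2, p.1 - p.2)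
      invFun := fun q => (q.1 + q.2, q.1)
      left_inv := fun p => by ext <;> simp
      right_inv := fun q => by ext <;> simp }
  rw [← e.tsum_eq]
  have hs' := e.summable_iff.2 hs
  have h2 : ∀ p : ℤ × ℤ, (a (e p).1 • op (n ^ (e p).1)) * (b (e p).2 • op (n ^ (e p).2))
      = (a p.2 * b (p.1 - p.2)) • op (n ^ p.1) := by
    intro p
    show (a p.2 • op (n ^ p.2)) * (b (p.1 - p.2) • op (n ^ (p.1 - p.2))) = _
    rw [smul_mul_smul_comm, ← op_mul, ← zpow_add, add_sub_cancel]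
  have hs'' : Summable (fun p : ℤ × ℤ => (a p.2 * b (p.1 - p.2)) • op (n ^ p.1)) := by
    refine hs'.congr (fun p => ?_)
    exact h2 p
  rw [tsum_congr h2, hs''.tsum_prod]
  refine tsum_congr (fun m => ?_)
  have hab : Summable (fun k : ℤ => a k * b (m - k)) := by
    obtain ⟨C, hC⟩ : ∃ C : ℝ, ∀ k, |b k| ≤ C :=
      ⟨∑' k, |b k|, fun k => hb.le_tsum k (fun _ _ => abs_nonneg _)⟩
    refine Summable.of_norm_bounded (ha.mul_right C) (fun k => ?_)
    rw [norm_mul, Real.norm_eq_abs, Real.norm_eq_abs]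
    exact mul_le_mul_of_nonneg_left (hC _) (abs_nonneg _)
  show ∑' (c : ℤ), (a c * b (m - c)) • op (n ^ m) = c m • op (n ^ m)
  rw [hab.tsum_smul_const, h m]

/-- `1 - a (T)` is compact if the coefficients have the sum `1` -/
lemma one_sub_Fop_mem (T : E ≃ₗᵢ[ℝ] E) (hT : op T - 1 ∈ KK E) {a : ℤ → ℝ}
    (ha : Summable fun k => |a k|) (h1 : ∑' k, a k = 1) : 1 - Fop T a ∈ KK E := by
  have hs : Summable a := ha.of_abs
  have e : (1 : E →L[ℝ] E) - Fop T a = ∑' k, (-(a k)) • (op (T ^ k) - 1) := by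
    have e1 : (1 : E →L[ℝ] E) = ∑' k, a k • (1 : E →L[ℝ] E) := by
      rw [hs.tsum_smul_const, h1, one_smul]
    unfold Fop
    conv_lhs => rw [e1]
    rw [← (hs.smul_const (1 : E →L[ℝ] E)).tsum_sub (summable_term T ha)]
    refine tsum_congr fun k => ?_
    rw [smul_sub, neg_smul, neg_smul]
    abel
  rw [e]
  have hsm : Summable fun k => (-(a k)) • (op (T ^ k) - 1) := by
    have := (hs.smul_const (1 : E →L[ℝ] E)).sub (summable_term T ha)
    refine this.congr fun k => ?_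
    rw [smul_sub, neg_smul, neg_smul]
    abel
  refine KK_closed.mem_of_tendsto hsm.hasSum (Eventually.of_forall fun s => ?_)
  exact Submodule.sum_mem _ fun k _ => Submodule.smul_mem _ _ (KK_op_zpow hT k)

/-- an isometry moves `y` little if the second difference is small -/
lemma first_le_second (T : E ≃ₗᵢ[ℝ] E) (y : E) (n : ℕ) :
    n * ‖T y - y‖ ≤ 2 * ‖y‖ + n ^ 2 * ‖T (T y - y) - (T y - y)‖ := by
  set d := ‖T (T y - y) - (T y - y)‖ with hd
  have h1 : ∀ j : ℕ, ‖(T ^ j) (T y - y) - (T y - y)‖ ≤ j * d := by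
    intro j
    induction j with
    | zero => simp
    | succ j ih =>
      have e : (T ^ (j + 1)) (T y - y) - (T y - y) =
          (T ^ j) (T (T y - y) - (T y - y)) + ((T ^ j) (T y - y) - (T y - y)) := by
        rw [pow_succ, map_sub (T ^ j)]
        show (T ^ j) (T (T y - y)) - _ = _
        abel
      rw [e]
      refine (norm_add_le _ _).trans ?_
      rw [(T ^ j).norm_map]
      push_cast
      linarith
  have h2 : ∀ j : ℕ, ‖(T ^ j) y - y - (j : ℝ) • (T y - y)‖ ≤ j ^ 2 * d := by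
    intro j
    induction j with
    | zero => simp
    | succ j ih =>
      have e : (T ^ (j + 1)) y - y - ((j + 1 : ℕ) : ℝ) • (T y - y) =
          ((T ^ j) (T y - y) - (T y - y)) + ((T ^ j) y - y - (j : ℝ) • (T y - y)) := by
        rw [pow_succ, map_sub (T ^ j)]
        show (T ^ j) (T y) - _ - _ = _
        push_cast
        rw [add_smul, one_smul]
        abel
      rw [e]
      refine (norm_add_le _ _).trans ?_
      have hd0 : 0 ≤ d := norm_nonneg _
      have := h1 j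
      push_cast
      have hj : (0 : ℝ) ≤ j := Nat.cast_nonneg j
      nlinarith
  have h3 : (n : ℝ) • (T y - y) = ((T ^ n) y - y) - ((T ^ n) y - y - (n : ℝ) • (T y - y)) := by abel
  have h4 : n * ‖T y - y‖ = ‖(n : ℝ) • (T y - y)‖ := by
    rw [norm_smul, Real.norm_of_nonneg (Nat.cast_nonneg n)]
  rw [h4, h3]
  refine (norm_sub_le _ _).trans (add_le_add ?_ (h2 n))
  refine (norm_sub_le _ _).trans ?_
  rw [(T ^ n).norm_map]
  linarith

lemma second_eq (T : E ≃ₗᵢ[ℝ] E) (y : E) :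
    ‖T (T y - y) - (T y - y)‖ = 2 * ‖(Co T - (1 : ℝ) • 1) y‖ := by
  have hu : (Co T - (1 : ℝ) • 1) y = (1 / 2 : ℝ) • (T y + T⁻¹ y) - y := by
    unfold Co
    rw [ContinuousLinearMap.sub_apply, ContinuousLinearMap.smul_apply,
      ContinuousLinearMap.add_apply, op_apply, op_apply, ContinuousLinearMap.smul_apply, one_smul,
      ContinuousLinearMap.one_apply]
  have e : T (T y - y) - (T y - y) = (2 : ℝ) • T ((Co T - (1 : ℝ) • 1) y) := by
    have h1 : T (T⁻¹ y) = y := T.apply_symm_apply y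
    have h2 : T ((Co T - (1 : ℝ) • 1) y) = (1 / 2 : ℝ) • (T (T y) + y) - T y := by
      rw [hu, map_sub, map_smul, map_add, h1]
    rw [h2, map_sub]
    module
  rw [e, norm_smul, T.norm_map]
  norm_num

/-- if `(T + T⁻¹) / 2` fixes `y`, so does `T` -/
lemma fix_of_Co (T : E ≃ₗᵢ[ℝ] E) (y : E) (h : (Co T - (1 : ℝ) • 1) y = 0) : T y = y := by
  have h0 : ∀ n : ℕ, (n : ℝ) * ‖T y - y‖ ≤ 2 * ‖y‖ := by
    intro n
    have := first_le_second T y n
    rw [second_eq, h, norm_zero, mul_zero, mul_zero, add_zero] at this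
    exact this
  by_contra hne
  have hp : 0 < ‖T y - y‖ := norm_pos_iff.2 (sub_ne_zero.2 hne)
  obtain ⟨n, hn⟩ := exists_nat_gt (2 * ‖y‖ / ‖T y - y‖)
  rw [div_lt_iff₀ hp] at hn
  linarith [h0 n]

/-- averages of the powers of an isometry which almost fixes `z` almost fix `z` -/
lemma Fop_near {a : ℤ → ℝ} (ha : Summable fun k => |a k|) (h1 : ∑' k, a k = 1) :
    ∃ η : ℝ, 0 < η ∧ ∀ (T : E ≃ₗᵢ[ℝ] E) (z : E), ‖T z - z‖ ≤ η * ‖z‖ →
      ‖Fop T a z - z‖ ≤ 1 / 2 * ‖z‖ := by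
  classical
  -- a finite set carrying almost everything
  have hA : 0 ≤ ∑' k, |a k| := tsum_nonneg fun k => abs_nonneg _
  obtain ⟨s, hs⟩ : ∃ s : Finset ℤ, ∑' k : ℤ, |a k| - ∑ k ∈ s, |a k| ≤ 1 / 8 := by
    have := ha.hasSum
    have h := (this.eventually (lt_mem_nhds (sub_lt_self (∑' k, |a k|) (by norm_num : (0 : ℝ) < 1 / 8))))
    obtain ⟨s, hs⟩ := h.exists
    exact ⟨s, by linarith⟩
  obtain ⟨M, hM⟩ : ∃ M : ℝ, ∀ k ∈ s, |(k : ℝ)| ≤ M :=
    ⟨∑ k ∈ s, |(k : ℝ)|, fun k hk => Finset.single_le_sum (f := fun k : ℤ => |(k : ℝ)|)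
      (fun i _ => abs_nonneg _) hk⟩
  set η : ℝ := 1 / (4 * (∑' k, |a k| + 1) * (|M| + 1)) with hη
  have hη0 : 0 < η := by positivity
  refine ⟨η, hη0, fun T z hz => ?_⟩
  have hzp : ∀ j : ℕ, ‖(T ^ j) z - z‖ ≤ j * (η * ‖z‖) := by
    intro j
    induction j with
    | zero => simp
    | succ j ih =>
      have e : (T ^ (j + 1)) z - z = (T ^ j) (T z - z) + ((T ^ j) z - z) := by
        rw [pow_succ, map_sub (T ^ j)]
        show (T ^ j) (T z) - _ = _
        abel
      rw [e]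
      refine (norm_add_le _ _).trans ?_
      rw [(T ^ j).norm_map]
      push_cast
      linarith
  have hzk : ∀ k : ℤ, ‖(T ^ k) z - z‖ ≤ |(k : ℝ)| * (η * ‖z‖) := by
    intro k
    cases k with
    | ofNat n =>
      rw [Int.ofNat_eq_natCast, zpow_natCast]
      have := hzp n
      simpa using this
    | negSucc n =>
      rw [zpow_negSucc]
      have e : ((T ^ (n + 1))⁻¹) z - z = -(((T ^ (n + 1))⁻¹) ((T ^ (n + 1)) z - z)) := by
        rw [map_sub]
        have : ((T ^ (n + 1))⁻¹) ((T ^ (n + 1)) z) = z := (T ^ (n + 1)).symm_apply_apply z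
        rw [this]
        abel
      rw [e, norm_neg, ((T ^ (n + 1))⁻¹).norm_map]
      have h := hzp (n + 1)
      rw [Int.cast_negSucc, abs_neg, abs_of_nonneg (by positivity)]
      exact h
  have hsum : Summable fun k => a k • ((T ^ k) z - z) := by
    refine Summable.of_norm_bounded (ha.mul_right (2 * ‖z‖)) fun k => ?_
    rw [norm_smul, Real.norm_eq_abs]
    refine mul_le_mul_of_nonneg_left ?_ (abs_nonneg _)
    refine (norm_sub_le _ _).trans ?_
    rw [(T ^ k).norm_map]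
    linarith
  have hsa : Summable a := ha.of_abs
  have hsT : Summable fun k => a k • (T ^ k) z := by
    refine Summable.of_norm_bounded (ha.mul_right ‖z‖) fun k => ?_
    rw [norm_smul, Real.norm_eq_abs, (T ^ k).norm_map]
  have e : Fop T a z - z = ∑' k, a k • ((T ^ k) z - z) := by
    have e1 : Fop T a z = ∑' k, a k • (T ^ k) z :=
      (ContinuousLinearMap.apply ℝ E z).map_tsum (summable_term T ha)
    have e2 : ∑' k, a k • z = z := by rw [hsa.tsum_smul_const, h1, one_smul]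
    calc Fop T a z - z = ∑' k, a k • (T ^ k) z - ∑' k, a k • z := by rw [e1, e2]
      _ = ∑' k, (a k • (T ^ k) z - a k • z) := (hsT.tsum_sub (hsa.smul_const z)).symm
      _ = ∑' k, a k • ((T ^ k) z - z) := tsum_congr fun k => (smul_sub _ _ _).symm
  rw [e]
  have hn : Summable fun k => ‖a k • ((T ^ k) z - z)‖ := by
    refine Summable.of_nonneg_of_le (fun _ => norm_nonneg _) (fun k => ?_)
      (ha.mul_right (2 * ‖z‖))
    rw [norm_smul, Real.norm_eq_abs]
    refine mul_le_mul_of_nonneg_left ?_ (abs_nonneg _)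
    refine (norm_sub_le _ _).trans ?_
    rw [(T ^ k).norm_map]
    linarith
  refine (norm_tsum_le_tsum_norm hn).trans ?_
  rw [← hn.sum_add_tsum_compl (s := s)]
  have h2 : ∑ k ∈ s, ‖a k • ((T ^ k) z - z)‖ ≤ 1 / 4 * ‖z‖ := by
    have : ∑ k ∈ s, ‖a k • ((T ^ k) z - z)‖ ≤ ∑ k ∈ s, |a k| * ((|M| + 1) * (η * ‖z‖)) := by
      refine Finset.sum_le_sum fun k hk => ?_
      rw [norm_smul, Real.norm_eq_abs]
      refine mul_le_mul_of_nonneg_left ((hzk k).trans ?_) (abs_nonneg _)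
      refine mul_le_mul_of_nonneg_right ?_ (by positivity)
      exact (hM k hk).trans ((le_abs_self M).trans (by linarith))
    refine this.trans ?_
    rw [← Finset.sum_mul]
    have h3 : ∑ k ∈ s, |a k| ≤ ∑' k, |a k| := ha.sum_le_tsum s fun _ _ => abs_nonneg _
    calc (∑ k ∈ s, |a k|) * ((|M| + 1) * (η * ‖z‖))
        ≤ (∑' k, |a k| + 1) * ((|M| + 1) * (η * ‖z‖)) := by
          refine mul_le_mul_of_nonneg_right (by linarith) (by positivity)
      _ = 1 / 4 * ‖z‖ := by rw [hη]; field_simp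
  have h4 : ∑' k : ((s : Set ℤ)ᶜ : Set ℤ), ‖a k • ((T ^ (k : ℤ)) z - z)‖ ≤ 1 / 4 * ‖z‖ := by
    have hc : ∑' k : ((s : Set ℤ)ᶜ : Set ℤ), |a k| ≤ 1 / 8 := by
      have := ha.sum_add_tsum_compl (s := s)
      linarith
    have hsc : Summable fun k : ((s : Set ℤ)ᶜ : Set ℤ) => |a k| := ha.subtype _
    calc ∑' k : ((s : Set ℤ)ᶜ : Set ℤ), ‖a k • ((T ^ (k : ℤ)) z - z)‖
        ≤ ∑' k : ((s : Set ℤ)ᶜ : Set ℤ), |a k| * (2 * ‖z‖) := by
          refine Summable.tsum_le_tsum (fun k => ?_) (hn.subtype _) (hsc.mul_right _)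
          rw [norm_smul, Real.norm_eq_abs]
          refine mul_le_mul_of_nonneg_left ?_ (abs_nonneg _)
          refine (norm_sub_le _ _).trans ?_
          rw [(T ^ (k : ℤ)).norm_map]
          linarith
      _ = (∑' k : ((s : Set ℤ)ᶜ : Set ℤ), |a k|) * (2 * ‖z‖) := by rw [tsum_mul_right]
      _ ≤ 1 / 8 * (2 * ‖z‖) := mul_le_mul_of_nonneg_right hc (by positivity)
      _ = 1 / 4 * ‖z‖ := by ring
  linarith

end

end Pool.Agent.V5helper96.BM
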