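import Pool.Agent.V5helper96.BM.Cube

/-!
# If a power of `T` commutes with `U`, the commutator of `T` and `U` has finite rank
-/

set_option autoImplicit false

namespace Pool.Agent.V5helper96.BM

open Filter Topology Metric
open Pool.H590R3.Ab

section
variable {E : Type*} [NormedAddCommGroup E] [NormedSpace ℝ E]

lemma FR_comp_left {a : E →L[ℝ] E} (ha : FR a) (b : E →L[ℝ] E) : FR (b * a) := by
  haveI : FiniteDimensional ℝ (LinearMap.range (a : E →ₗ[ℝ] E)) := ha
  refine FR_of_le (W := (LinearMap.range (a : E →ₗ[ℝ] E)).map (b : E →ₗ[ℝ] E)) fun x => ?_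
  exact ⟨a x, ⟨x, rfl⟩, rfl⟩

lemma FR_comp_right {a : E →L[ℝ] E} (ha : FR a) (b : E →L[ℝ] E) : FR (a * b) := by
  haveI : FiniteDimensional ℝ (LinearMap.range (a : E →ₗ[ℝ] E)) := ha
  exact FR_of_le (W := LinearMap.range (a : E →ₗ[ℝ] E)) fun x => ⟨b x, rfl⟩

lemma FR_plus {a b : E →L[ℝ] E} (ha : FR a) (hb : FR b) : FR (a + b) := by
  haveI : FiniteDimensional ℝ (LinearMap.range (a : E →ₗ[ℝ] E)) := ha
  haveI : FiniteDimensional ℝ (LinearMap.range (b : E →ₗ[ℝ] E)) := hb
  exact FR_of_le (W := LinearMap.range (a : E →ₗ[ℝ] E) ⊔ LinearMap.range (b : E →ₗ[ℝ] E))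
    fun x => Submodule.add_mem_sup ⟨x, rfl⟩ ⟨x, rfl⟩

lemma FR_neg {a : E →L[ℝ] E} (ha : FR a) : FR (-a) := by
  haveI : FiniteDimensional ℝ (LinearMap.range (a : E →ₗ[ℝ] E)) := ha
  exact FR_of_le (W := LinearMap.range (a : E →ₗ[ℝ] E)) fun x => ⟨-x, by
    show a (-x) = -(a x); rw [map_neg]⟩

variable [CompleteSpace E]

/-- **the commutator has finite rank** -/
theorem comm_FR (T U : E ≃ₗᵢ[ℝ] E) (hT : op T - 1 ∈ KK E) {l : ℕ} (hl : 1 ≤ l)
    (h : T ^ l * U = U * T ^ l) : FR (op T * op U - op U * op T) := by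
  obtain ⟨a, ha, ha1, hab, hε⟩ := bumps
  have hVV : ∀ (m n : ℕ), m < n → Fop T (a m) * Fop T (a n) = Fop T (a n) := by
    intro m n hmn
    exact Fop_mul T (ha m) (ha n) (hab m n hmn)
  have hco : ∀ (ε : ℝ), 0 < ε → ∃ n0 : ℕ, ∀ n, n0 ≤ n →
        ‖(Co T - (1 : ℝ) • 1) * Fop T (a n)‖ ≤ ε := by
    intro ε hε0
    obtain ⟨n0, hn0⟩ := hε ε hε0
    refine ⟨n0, fun n hn => ?_⟩
    rw [Co_mul_Fop T (ha n) 1]
    have hs : Summable fun k : ℤ => |(a n (k - 1) + a n (k + 1)) / 2 - 1 * a n k| := by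
      have s1 : Summable fun k : ℤ => |a n (k - 1)| := summable_shift (ha n) (-1)
      have s2 : Summable fun k : ℤ => |a n (k + 1)| := summable_shift (ha n) 1
      refine Summable.of_nonneg_of_le (fun _ => abs_nonneg _) (fun k => ?_)
        (((s1.add s2).div_const 2).add (ha n))
      rw [one_mul]
      refine (abs_sub _ _).trans (add_le_add ?_ le_rfl)
      rw [abs_div, abs_of_pos (by norm_num : (0 : ℝ) < 2)]
      exact div_le_div_of_nonneg_right (abs_add_le _ _) (by norm_num)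
    refine (Fop_norm_le T hs).trans ?_
    simpa using hn0 n hn
  set C := op T * op U - op U * op T with hC
  have hl0 : (0 : ℝ) < l := by exact_mod_cast hl
  obtain ⟨N, hN⟩ := exists_nat_gt (8 * (l : ℝ))
  have hN0 : (0 : ℝ) < N := lt_of_le_of_lt (by positivity) hN
  have hN1 : 0 < N := by exact_mod_cast hN0
  obtain ⟨n0, hn0⟩ := hco (1 / (8 * N * l)) (by positivity)
  set S' := Fop T (a n0) with hS'
  set S := Fop T (a (n0 + 1)) with hS
  have hS'S : S' * S = S := hVV n0 (n0 + 1) (Nat.lt_succ_self _)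
  have hSS' : S * S' = S := by rw [hS, hS', Fop_comm T (ha (n0 + 1)) (ha n0)]; exact hS'S
  have hcS : S' * Co T = Co T * S' := by
    unfold Co
    have h1 := Fop_comm_zpow T (ha n0) 1
    have h2 := Fop_comm_zpow T (ha n0) (-1)
    rw [zpow_one] at h1
    rw [zpow_neg_one] at h2
    rw [mul_smul_comm, smul_mul_assoc, mul_add, add_mul, hS', h1, h2]
  have hST : S * op T = op T * S := by
    have h1 := Fop_comm_zpow T (ha (n0 + 1)) 1
    rwa [zpow_one] at h1
  set Z := S * C * S with hZ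
  have hZl : S' * Z = Z := by rw [hZ, ← mul_assoc, ← mul_assoc, hS'S]
  have hZr : Z * S' = Z := by rw [hZ, mul_assoc, hSS']
  set c : ℝ := 2 / N + 2 * N * (1 / (8 * N * l)) with hc
  have hc0 : 0 ≤ c := by positivity
  have hcl : c * l < 1 := by
    have e : c * l = 2 * l / N + 1 / 4 := by rw [hc]; field_simp; ring
    rw [e]
    have : 2 * l / (N : ℝ) < 1 / 4 := by
      rw [div_lt_iff₀ hN0]; linarith
    linarith
  have c1 : ‖op T * Z - Z‖ ≤ c * ‖Z‖ := small_left T hZl (hn0 n0 le_rfl) hN1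
  have c2 : ‖Z * op T⁻¹ - Z‖ ≤ c * ‖Z‖ := small_right T hZr (hn0 n0 le_rfl) hcS hN1
  have c3 : ‖Z * op T - Z‖ ≤ c * ‖Z‖ := by
    have e : Z * op T - Z = -((Z * op T⁻¹ - Z) * op T) := by
      rw [sub_mul, mul_assoc Z (op T⁻¹) (op T), op_inv_mul, mul_one]; abel
    rw [e, norm_neg]
    exact ((norm_mul_le _ _).trans (mul_le_of_le_one_right (norm_nonneg _) (op_norm_le _))).trans c2
  have c4 : ∀ j : ℕ, ‖Z * op (T ^ j) - Z‖ ≤ j * (c * ‖Z‖) := by
    intro j
    induction j with
    | zero => rw [pow_zero, op_one]; simp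
    | succ j ih =>
      have e : Z * op (T ^ (j + 1)) - Z = (Z * op (T ^ j) - Z) * op T + (Z * op T - Z) := by
        rw [pow_succ, op_mul]; noncomm_ring
      rw [e]
      refine (norm_add_le _ _).trans ?_
      have h1 : ‖(Z * op (T ^ j) - Z) * op T‖ ≤ ‖Z * op (T ^ j) - Z‖ :=
        (norm_mul_le _ _).trans (mul_le_of_le_one_right (norm_nonneg _) (op_norm_le _))
      push_cast
      linarith
  have c5 : ∀ j : ℕ, ‖S * (op (T ^ j) * op U - op U * op (T ^ j)) * S - (j : ℝ) • Z‖ ≤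
      j ^ 2 * (c * ‖Z‖) := by
    intro j
    induction j with
    | zero => rw [pow_zero, op_one]; simp
    | succ j ih =>
      set Q := op (T ^ j) * op U - op U * op (T ^ j) with hQ
      have hSj : S * op (T ^ j) = op (T ^ j) * S := by
        have h1 := Fop_comm_zpow T (ha (n0 + 1)) j
        rwa [zpow_natCast] at h1
      have e1 : op (T ^ (j + 1)) * op U - op U * op (T ^ (j + 1)) = op T * Q + C * op (T ^ j) := by
        rw [pow_succ', op_mul, hQ, hC]; noncomm_ring
      have e2 : S * (op T * Q + C * op (T ^ j)) * S = op T * (S * Q * S) + Z * op (T ^ j) := by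
        have i1 : S * (op T * Q) * S = op T * (S * Q * S) := by
          rw [← mul_assoc S, hST]; simp only [mul_assoc]
        have i2 : S * (C * op (T ^ j)) * S = Z * op (T ^ j) := by
          rw [hZ]
          calc S * (C * op (T ^ j)) * S = S * C * (op (T ^ j) * S) := by simp only [mul_assoc]
            _ = S * C * (S * op (T ^ j)) := by rw [hSj]
            _ = S * C * S * op (T ^ j) := by simp only [mul_assoc]
        rw [mul_add, add_mul, i1, i2]
      have e3 : op T * (S * Q * S) + Z * op (T ^ j) - ((j + 1 : ℕ) : ℝ) • Z =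
          op T * (S * Q * S - (j : ℝ) • Z) + (j : ℝ) • (op T * Z - Z) +
            (Z * op (T ^ j) - Z) := by
        generalize S * Q * S = P
        push_cast
        rw [add_smul, one_smul, mul_sub (op T) P, mul_smul_comm, smul_sub]
        abel
      rw [e1, e2, e3]
      have j1 := norm_add_le (op T * (S * Q * S - (j : ℝ) • Z) + (j : ℝ) • (op T * Z - Z))
        (Z * op (T ^ j) - Z)
      have j2 := norm_add_le (op T * (S * Q * S - (j : ℝ) • Z)) ((j : ℝ) • (op T * Z - Z))
      have j3 := norm_op_mul T (S * Q * S - (j : ℝ) • Z)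
      have j4 : ‖(j : ℝ) • (op T * Z - Z)‖ ≤ j * (c * ‖Z‖) := by
        rw [norm_smul, Real.norm_of_nonneg (Nat.cast_nonneg j)]
        exact mul_le_mul_of_nonneg_left c1 (Nat.cast_nonneg j)
      have j5 := c4 j
      have j6 : 0 ≤ c * ‖Z‖ := by positivity
      push_cast
      nlinarith
  have hZ0 : Z = 0 := by
    have h1 := c5 l
    have h2 : op (T ^ l) * op U - op U * op (T ^ l) = 0 := by
      rw [← op_mul, ← op_mul, h, sub_self]
    rw [h2, mul_zero, zero_mul, zero_sub, norm_neg, norm_smul,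
      Real.norm_of_nonneg (Nat.cast_nonneg l)] at h1
    by_contra hne
    have h3 : 0 < ‖Z‖ := norm_pos_iff.2 hne
    have h4 : (l : ℝ) ^ 2 * (c * ‖Z‖) = (c * l) * (l * ‖Z‖) := by ring
    rw [h4] at h1
    have h5 : 0 < l * ‖Z‖ := by positivity
    nlinarith
  have hSn : Fop T (a (n0 + 2)) * (1 - S) = 0 := by
    rw [mul_sub, mul_one, Fop_comm T (ha (n0 + 2)) (ha (n0 + 1)),
      hVV (n0 + 1) (n0 + 2) (by omega), sub_self]
  have hR : FR (1 - S) := FR_one_sub T hT (ha (n0 + 2)) (ha1 (n0 + 2)) hSn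
  have e : C = (1 - S) * C + (S * C) * (1 - S) := by
    have h1 : (1 - S) * C + (S * C) * (1 - S) = C - Z := by rw [hZ]; noncomm_ring
    rw [h1, hZ0, sub_zero]
  rw [e]
  exact FR_plus (FR_comp_right hR _) (FR_comp_left hR _)

end

end Pool.Agent.V5helper96.BM
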