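import Pool.Agent.V5helper96.BM.Weak

/-!
# In the discrete case a power of `T` commutes with a given compact perturbation of the identity
-/

set_option autoImplicit false

namespace Pool.Agent.V5helper96.BM

open Filter Topology Metric
open Pool.H590R3.Ab (op op_apply op_mul op_one op_norm_le)

section
variable {E : Type*} [NormedAddCommGroup E] [NormedSpace ℝ E]

/-- isometries grow at most linearly, with a right factor -/
lemma lin_growth (S : E ≃ₗᵢ[ℝ] E) (A : E →L[ℝ] E) (n : ℕ) :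
    n * ‖(op S - 1) * A‖ ≤ 2 * ‖A‖ + n ^ 2 * ‖(op S - 1) * (op S - 1) * A‖ := by
  set L := op S - 1 with hL
  set γ := ‖L * L * A‖ with hγ
  have hγ0 : 0 ≤ γ := norm_nonneg _
  have key : ∀ n : ℕ, ‖(op (S ^ n) - 1) * A - n • (L * A)‖ ≤ n ^ 2 * γ := by
    intro n
    induction n with
    | zero => rw [pow_zero, op_one]; simp
    | succ n ih =>
      have e : (op (S ^ (n + 1)) - 1) * A - (n + 1) • (L * A) =
          op S * ((op (S ^ n) - 1) * A - n • (L * A)) + n • (L * L * A) := by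
        have hS : op S = 1 + L := by rw [hL, add_sub_cancel]
        have h1 : op (S ^ (n + 1)) = op S * op (S ^ n) := by rw [← op_mul, pow_succ']
        rw [h1, hS, succ_nsmul]
        simp only [mul_sub, sub_mul, add_mul, one_mul, mul_smul_comm, mul_assoc, smul_add]
        abel
      rw [e]
      refine (norm_add_le _ _).trans ?_
      have h1 : ‖op S * ((op (S ^ n) - 1) * A - n • (L * A))‖ ≤ n ^ 2 * γ := by
        refine (norm_mul_le _ _).trans ?_
        calc ‖op S‖ * ‖(op (S ^ n) - 1) * A - n • (L * A)‖ ≤ 1 * (n ^ 2 * γ) :=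
              mul_le_mul (op_norm_le S) ih (norm_nonneg _) zero_le_one
          _ = n ^ 2 * γ := one_mul _
      have h2 : ‖n • (L * L * A)‖ ≤ n * γ := norm_nsmul_le
      push_cast
      nlinarith [mul_nonneg (Nat.cast_nonneg (α := ℝ) n) hγ0]
  have h1 : ‖n • (L * A)‖ = n * ‖L * A‖ := by
    rw [← Nat.cast_smul_eq_nsmul ℝ, norm_smul, Real.norm_of_nonneg (Nat.cast_nonneg n)]
  have e : n • (L * A) = (op (S ^ n) - 1) * A - ((op (S ^ n) - 1) * A - n • (L * A)) := by abel
  rw [← h1, e]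
  refine (norm_sub_le _ _).trans (add_le_add ?_ (key n))
  exact (norm_mul_le _ _).trans (mul_le_mul_of_nonneg_right (two_bd _) (norm_nonneg _))

lemma null_of_lin {a b : ℕ → ℝ} {C : ℝ} (ha : ∀ i, 0 ≤ a i)
    (h : ∀ n i : ℕ, n * a i ≤ C + n ^ 2 * b i) (hb : Tendsto b atTop (𝓝 0)) :
    Tendsto a atTop (𝓝 0) := by
  rw [Metric.tendsto_atTop]
  intro ε hε
  obtain ⟨n, hn⟩ := exists_nat_gt (2 * |C| / ε)
  have hn0 : (0 : ℝ) < n := lt_of_le_of_lt (by positivity) hn
  have h1 : ∀ᶠ i in atTop, b i < ε / (2 * n) := hb.eventually_lt_const (by positivity)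
  obtain ⟨N, hN⟩ := eventually_atTop.1 h1
  refine ⟨N, fun i hi => ?_⟩
  rw [dist_zero_right, Real.norm_of_nonneg (ha i)]
  have h2 := h n i
  have h3 := hN i hi
  have h4 : (n : ℝ) ^ 2 * b i ≤ n ^ 2 * (ε / (2 * n)) :=
    mul_le_mul_of_nonneg_left h3.le (by positivity)
  have h5 : (n : ℝ) ^ 2 * (ε / (2 * n)) = n * (ε / 2) := by field_simp
  rw [div_lt_iff₀ hε] at hn
  have h6 := le_abs_self C
  by_contra hcon
  push Not at hcon
  have h7 : n * ε ≤ n * a i := mul_le_mul_of_nonneg_left hcon hn0.le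
  nlinarith

lemma null_of_cube (S : ℕ → E ≃ₗᵢ[ℝ] E)
    (h : Tendsto (fun i => ‖(op (S i) - 1) * (op (S i) - 1) * (op (S i) - 1)‖) atTop (𝓝 0)) :
    Tendsto (fun i => ‖op (S i) - 1‖) atTop (𝓝 0) := by
  have h1 : Tendsto (fun i => ‖(op (S i) - 1) * (op (S i) - 1)‖) atTop (𝓝 0) := by
    refine null_of_lin (C := 4) (fun i => norm_nonneg _) (fun n i => ?_) h
    have := lin_growth (S i) (op (S i) - 1) n
    have := two_bd (S i)
    linarith
  refine null_of_lin (C := 2) (fun i => norm_nonneg _) (fun n i => ?_) h1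
  have h2 := lin_growth (S i) 1 n
  rw [mul_one, mul_one] at h2
  have := norm_one_le (E := E)
  linarith

lemma bd3 {a b c : E →L[ℝ] E} {α β γ : ℝ} (ha : ‖a‖ ≤ α) (hb : ‖b‖ ≤ β) (hc : ‖c‖ ≤ γ) :
    ‖a * b * c‖ ≤ α * β * γ := by
  have hα := (norm_nonneg _).trans ha
  have hβ := (norm_nonneg _).trans hb
  refine (norm_mul_le _ _).trans (mul_le_mul ((norm_mul_le _ _).trans
    (mul_le_mul ha hb (norm_nonneg _) hα)) hc (norm_nonneg _) (by positivity))

/-- the cube of the commutator minus `1` -/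
lemma cube (g U : E ≃ₗᵢ[ℝ] E) {η : ℝ} (h1 : ‖(op U - 1) * (op g - 1) * (op U - 1)‖ ≤ η)
    (h2 : ‖(op U - 1) * (op g⁻¹ - 1) * (op U - 1)‖ ≤ η) :
    ‖(op (g * U * g⁻¹ * U⁻¹) - 1) * (op (g * U * g⁻¹ * U⁻¹) - 1) *
      (op (g * U * g⁻¹ * U⁻¹) - 1)‖ ≤ 100 * η := by
  have hη : 0 ≤ η := (norm_nonneg _).trans h1
  set K := op U - 1 with hK
  set D := op g - 1 with hD
  set D' := op g⁻¹ - 1 with hD'
  set V := op U⁻¹ with hV
  set G := op g with hG
  have hK2 : ‖K‖ ≤ 2 := two_bd U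
  have hD2 : ‖D‖ ≤ 2 := two_bd g
  have hD'2 : ‖D'‖ ≤ 2 := two_bd g⁻¹
  have hV1 : ‖V‖ ≤ 1 := op_norm_le _
  have hG1 : ‖G‖ ≤ 1 := op_norm_le _
  have hG' : op g⁻¹ = 1 + D' := by rw [hD', add_sub_cancel]
  have hGD : G = 1 + D := by rw [hD, add_sub_cancel]
  have hUK : op U = 1 + K := by rw [hK, add_sub_cancel]
  have hKV : K * V = 1 - V := by rw [hK, hV, sub_mul, op_mul_inv, one_mul]
  have hVK : V * K = 1 - V := by rw [hK, hV, mul_sub, op_inv_mul, mul_one]
  have hc : K * V = V * K := by rw [hKV, hVK]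
  have hV' : V = 1 - K * V := by rw [hKV, sub_sub_cancel]
  have hD'G : D' * G = -D := by
    rw [hD', hG, sub_mul, op_inv_mul, one_mul, hD, ← hG]; abel
  have hD'D : D' * D = -D - D' := by
    have : D' * D = D' * G - D' := by rw [hGD]; noncomm_ring
    rw [this, hD'G]
  set M := D * K + G * K * D' with hM
  have hN : op (g * U * g⁻¹ * U⁻¹) - 1 = M * V := by
    rw [op_mul, op_mul, op_mul, ← hG, ← hV, hUK]
    have e1 : G * (1 + K) * op g⁻¹ = 1 + G * K * op g⁻¹ := by
      rw [mul_add, mul_one, add_mul, hG, op_mul_inv]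
    rw [e1]
    have e2 : (1 + G * K * op g⁻¹) * V - 1 = G * K * op g⁻¹ * V - (1 - V) := by noncomm_ring
    rw [e2, ← hKV, hG', hM, hGD]
    noncomm_ring
  have hM2 : ‖M‖ ≤ 2 := by
    have e : M = (op (g * U * g⁻¹ * U⁻¹) - 1) * op U := by
      rw [hN, mul_assoc, hV, op_inv_mul, mul_one]
    rw [e]
    refine (norm_mul_le _ _).trans ?_
    have := two_bd (g * U * g⁻¹ * U⁻¹)
    have h3 := op_norm_le U
    calc _ ≤ 2 * 1 := mul_le_mul this h3 (norm_nonneg _) (by norm_num)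
      _ = 2 := by norm_num
  -- auxiliary estimates
  have a1 : ‖K * D' * V * (D * K)‖ ≤ 6 * η := by
    have e : K * D' * V * (D * K) = -(K * D * K) - K * D' * K - (K * D' * K) * V * (D * K) := by
      have e1 : K * D' * V * (D * K) = K * (D' * D) * K - K * D' * (K * V) * (D * K) := by
        conv_lhs => rw [hV']
        noncomm_ring
      rw [e1, hD'D]
      noncomm_ring
    rw [e]
    have i1 : ‖(K * D' * K) * V * (D * K)‖ ≤ η * 1 * (2 * 2) := bd3 h2 hV1
      ((norm_mul_le _ _).trans (mul_le_mul hD2 hK2 (norm_nonneg _) (by norm_num)))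
    have i2 := norm_sub_le (-(K * D * K) - K * D' * K) ((K * D' * K) * V * (D * K))
    have i3 := norm_sub_le (-(K * D * K)) (K * D' * K)
    rw [norm_neg] at i3
    linarith
  have a2 : ‖K * D' * V * (G * K * D')‖ ≤ 6 * η := by
    have e : K * D' * V * (G * K * D') = -((K * D * K) * 1 * D') -
        (K * D' * K) * V * (G * K * D') := by
      have e1 : K * D' * V * (G * K * D') = K * (D' * G) * K * D' -
          K * D' * (K * V) * (G * K * D') := by
        conv_lhs => rw [hV']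
        noncomm_ring
      rw [e1, hD'G]
      noncomm_ring
    rw [e]
    have i1 : ‖(K * D' * K) * V * (G * K * D')‖ ≤ η * 1 * (1 * 2 * 2) :=
      bd3 h2 hV1 (bd3 hG1 hK2 hD'2)
    have i4 : ‖(K * D * K) * 1 * D'‖ ≤ η * 1 * 2 := bd3 h1 norm_one_le hD'2
    have i2 := norm_sub_le (-((K * D * K) * 1 * D')) ((K * D' * K) * V * (G * K * D'))
    rw [norm_neg] at i2
    linarith
  -- `M V M`
  set P := D * K * V * (K * D') with hP
  have b1 : ‖M * V * M - P‖ ≤ 18 * η := by
    have e : M * V * M - P = D * V * (K * D * K) + (D * V) * (K * D * K) * D' +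
        G * (K * D' * V * (D * K)) + G * (K * D' * V * (G * K * D')) := by
      have e1 : D * K * V * (D * K) = D * V * (K * D * K) := by
        rw [mul_assoc D K V, hc]; noncomm_ring
      have e2 : D * K * V * (G * K * D') = P + (D * V) * (K * D * K) * D' := by
        have e3 : D * K * V * (G * K * D') = D * K * V * (K * D') + D * (K * V) * (D * K * D') := by
          rw [hGD]; noncomm_ring
        rw [e3, hc, hP]; noncomm_ring
      have e4 : M * V * M = D * K * V * (D * K) + D * K * V * (G * K * D') +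
          G * (K * D' * V * (D * K)) + G * (K * D' * V * (G * K * D')) := by
        rw [hM]; noncomm_ring
      rw [e4, e1, e2]
      abel
    rw [e]
    have i1 : ‖D * V * (K * D * K)‖ ≤ 2 * 1 * η := bd3 hD2 hV1 h1
    have i0 : ‖D * V‖ ≤ 2 := (norm_mul_le _ _).trans (by
      calc ‖D‖ * ‖V‖ ≤ 2 * 1 := mul_le_mul hD2 hV1 (norm_nonneg _) (by norm_num)
        _ = 2 := by norm_num)
    have i2 : ‖(D * V) * (K * D * K) * D'‖ ≤ 2 * η * 2 := bd3 i0 h1 hD'2
    have i3 : ‖G * (K * D' * V * (D * K))‖ ≤ 1 * (6 * η) :=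
      (norm_mul_le _ _).trans (mul_le_mul hG1 a1 (norm_nonneg _) zero_le_one)
    have i4 : ‖G * (K * D' * V * (G * K * D'))‖ ≤ 1 * (6 * η) :=
      (norm_mul_le _ _).trans (mul_le_mul hG1 a2 (norm_nonneg _) zero_le_one)
    have j1 := norm_add_le (D * V * (K * D * K) + (D * V) * (K * D * K) * D' +
        G * (K * D' * V * (D * K))) (G * (K * D' * V * (G * K * D')))
    have j2 := norm_add_le (D * V * (K * D * K) + (D * V) * (K * D * K) * D')
        (G * (K * D' * V * (D * K)))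
    have j3 := norm_add_le (D * V * (K * D * K)) ((D * V) * (K * D * K) * D')
    linarith
  rw [hN]
  have e : M * V * (M * V) * (M * V) = ((M * V * M - P) * V * M +
      D * K * V * (K * D' * V * (D * K)) + D * K * V * (K * D' * V * (G * K * D'))) * 1 * V := by
    have e1 : P * V * M = D * K * V * (K * D' * V * (D * K)) +
        D * K * V * (K * D' * V * (G * K * D')) := by
      rw [hP, hM]; noncomm_ring
    have e2 : (M * V * M - P) * V * M + D * K * V * (K * D' * V * (D * K)) +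
        D * K * V * (K * D' * V * (G * K * D')) = M * V * M * V * M := by
      rw [add_assoc, ← e1]; noncomm_ring
    rw [e2]; noncomm_ring
  rw [e]
  have i1 : ‖(M * V * M - P) * V * M‖ ≤ (18 * η) * 1 * 2 := bd3 b1 hV1 hM2
  have i0 : ‖D * K * V‖ ≤ 2 * 2 * 1 := bd3 hD2 hK2 hV1
  have i2 : ‖D * K * V * (K * D' * V * (D * K))‖ ≤ (2 * 2 * 1) * (6 * η) :=
    (norm_mul_le _ _).trans (mul_le_mul i0 a1 (norm_nonneg _) (by norm_num))
  have i3 : ‖D * K * V * (K * D' * V * (G * K * D'))‖ ≤ (2 * 2 * 1) * (6 * η) :=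
    (norm_mul_le _ _).trans (mul_le_mul i0 a2 (norm_nonneg _) (by norm_num))
  have j1 := norm_add_le ((M * V * M - P) * V * M + D * K * V * (K * D' * V * (D * K)))
    (D * K * V * (K * D' * V * (G * K * D')))
  have j2 := norm_add_le ((M * V * M - P) * V * M) (D * K * V * (K * D' * V * (D * K)))
  have j3 : ‖(M * V * M - P) * V * M + D * K * V * (K * D' * V * (D * K)) +
      D * K * V * (K * D' * V * (G * K * D'))‖ ≤ 84 * η := by linarith
  have j4 := bd3 j3 (norm_one_le (E := E)) hV1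
  linarith

/-- **in the discrete case a power of `T` commutes with `U`** -/
theorem comm_pow {ε : ℝ} (hε : 0 < ε)
    (hdis : ∀ S : E ≃ₗᵢ[ℝ] E, op S - 1 ∈ KK E → ‖op S - 1‖ < ε → S = 1)
    (T U : E ≃ₗᵢ[ℝ] E) (hT : op T - 1 ∈ KK E) (hU : op U - 1 ∈ KK E) :
    ∃ l : ℕ, 1 ≤ l ∧ T ^ l * U = U * T ^ l := by
  obtain ⟨l, hl1, hl⟩ := exists_times T hT
  have hl' : ∀ j, ((∑ i ∈ Finset.range j, l i : ℕ) : ℝ) *
      ‖(op ((T⁻¹) ^ (l j)) - 1) * (op T⁻¹ - 1)‖ ≤ (1 / 2) ^ (j + 1) := by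
    intro j
    refine le_trans (mul_le_mul_of_nonneg_left ?_ (Nat.cast_nonneg _)) (hl j)
    have e : (op ((T⁻¹) ^ (l j)) - 1) * (op T⁻¹ - 1) =
        op ((T⁻¹) ^ (l j)) * ((op (T ^ (l j)) - 1) * (op T - 1)) * op T⁻¹ := by
      have e1 : op ((T⁻¹) ^ (l j)) * (op (T ^ (l j)) - 1) = -(op ((T⁻¹) ^ (l j)) - 1) := by
        rw [mul_sub, mul_one, ← op_mul, inv_pow, inv_mul_cancel, op_one]; abel
      have e2 : (op T - 1) * op T⁻¹ = -(op T⁻¹ - 1) := by
        rw [sub_mul, op_mul_inv, one_mul]; abel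
      rw [← mul_assoc, mul_assoc, e1, e2]
      noncomm_ring
    rw [e]
    refine (bd3 (op_norm_le _) le_rfl (op_norm_le _)).trans ?_
    rw [one_mul, mul_one]
  have s1 := sum_bound T l hl
  have s2 := sum_bound T⁻¹ l hl'
  have w1 := wnull s1 hU hU
  have w2 := wnull s2 hU hU
  have w3 := (w1.add w2).const_mul 100
  rw [add_zero, mul_zero] at w3
  have h3 := null_of_cube (fun i => (T ^ l i) * U * (T ^ l i)⁻¹ * U⁻¹)
    (squeeze_zero (fun i => norm_nonneg _) (fun i => cube (T ^ l i) U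
      (η := ‖(op U - 1) * (op (T ^ l i) - 1) * (op U - 1)‖ +
        ‖(op U - 1) * (op (T⁻¹ ^ l i) - 1) * (op U - 1)‖)
      (le_add_of_nonneg_right (norm_nonneg _)) (by
        rw [inv_pow]; exact le_add_of_nonneg_left (norm_nonneg _))) w3)
  obtain ⟨i, hi⟩ := (h3.eventually_lt_const hε).exists
  refine ⟨l i, hl1 i, ?_⟩
  have h4 : T ^ l i * U * (T ^ l i)⁻¹ * U⁻¹ = 1 := by
    refine hdis _ ?_ hi
    exact KK_op_mul (KK_op_conj hU _) (KK_op_inv hU)
  rw [mul_inv_eq_one, mul_inv_eq_iff_eq_mul] at h4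
  exact h4

end

end Pool.Agent.V5helper96.BM
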