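import Pool.Agent.V5helper96.BM.FinGrp
import Mathlib.RepresentationTheory.Maschke

/-!
# The discrete case: no isometry of finite displacement rank
-/

set_option autoImplicit false

namespace Pool.Agent.V5helper96.BM

open Filter Topology Metric
open Pool.H590R3.Ab (op op_apply op_mul op_one op_norm_le)
open Pool.Agent.TH596.RO (cj AT DD)

section
variable {E : Type*} [NormedAddCommGroup E] [NormedSpace ℝ E]

/-- termwise isometries, as a homomorphism -/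
noncomputable def twH : (ℕ → E ≃ₗᵢ[ℝ] E) →* (UX E ≃ₗᵢ[ℝ] UX E) where
  toFun := twi
  map_one' := by
    ext u
    obtain ⟨x, hx, rfl⟩ := exists_cl u
    rfl
  map_mul' g h := by
    ext u
    obtain ⟨x, hx, rfl⟩ := exists_cl u
    rfl

lemma twH_apply (g : ℕ → E ≃ₗᵢ[ℝ] E) : twH g = twi g := rfl

lemma twi_congr {g h : ℕ → E ≃ₗᵢ[ℝ] E} (e : ∀ᶠ i in (hyperfilter ℕ : Filter ℕ), g i = h i) :
    twi g = twi h := by
  ext u
  obtain ⟨x, hx, rfl⟩ := exists_cl u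
  rw [twi_cl, twi_cl, cl_eq]
  refine tendsto_const_nhds.congr' ?_
  filter_upwards [e] with i hi
  rw [hi, sub_self, norm_zero]

/-- separation -/
lemma sep_twi {ε : ℝ} (hε : 0 < ε)
    (hdis : ∀ S : E ≃ₗᵢ[ℝ] E, op S - 1 ∈ KK E → ‖op S - 1‖ < ε → S = 1)
    {g : ℕ → E ≃ₗᵢ[ℝ] E} (hg : ∀ i, op (g i) - 1 ∈ KK E) (h : ‖op (twi g) - 1‖ < ε / 2) :
    ∀ᶠ i in (hyperfilter ℕ : Filter ℕ), g i = 1 := by
  classical
  by_contra hcon
  have hcon' : ∀ᶠ i in (hyperfilter ℕ : Filter ℕ), g i ≠ 1 := Ultrafilter.eventually_not.2 hcon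
  have hx : ∀ i, ∃ x : E, ‖x‖ ≤ 1 ∧ (g i ≠ 1 → ε / 2 ≤ ‖g i x - x‖) := by
    intro i
    by_cases hi : g i = 1
    · exact ⟨0, by simp, fun h => absurd hi h⟩
    · have h1 : ε ≤ ‖op (g i) - 1‖ := by
        by_contra hlt
        push Not at hlt
        exact hi (hdis _ (hg i) hlt)
      obtain ⟨x, hx1, hx2⟩ : ∃ x : E, ‖x‖ < 1 ∧ ε / 2 < ‖(op (g i) - 1) x‖ :=
        (op (g i) - 1).exists_lt_apply_of_lt_opNorm (by linarith)
      exact ⟨x, hx1.le, fun _ => hx2.le⟩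
  choose x hx1 hx2 using hx
  have hb : BF x := ⟨1, hx1⟩
  have h1 : ‖cl x hb‖ ≤ 1 := cl_norm_le hb (Eventually.of_forall hx1)
  have hb2 : BF (fun i => g i (x i) - x i) := ⟨2, fun i => by
    refine (norm_sub_le _ _).trans ?_
    rw [(g i).norm_map]
    have := hx1 i
    linarith⟩
  have h2 : (op (twi g) - 1) (cl x hb) = cl (fun i => g i (x i) - x i) hb2 := by
    show twi g (cl x hb) - cl x hb = _
    rw [sub_eq_iff_eq_add, ← cl_add hb2 hb, twi_cl]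
    congr 1
    funext i
    abel
  have h3 : ε / 2 ≤ ‖(op (twi g) - 1) (cl x hb)‖ := by
    rw [h2]
    refine le_cl_norm hb2 ?_
    filter_upwards [hcon'] with i hi
    exact hx2 i hi
  have h4 := (op (twi g) - 1).le_opNorm (cl x hb)
  have h5 : ‖op (twi g) - 1‖ * ‖cl x hb‖ ≤ ‖op (twi g) - 1‖ * 1 :=
    mul_le_mul_of_nonneg_left h1 (norm_nonneg _)
  linarith

/-- the common kernels -/
noncomputable def WW (n : ℕ) (S : E ≃ₗᵢ[ℝ] E) (Φ : Finset (E ≃ₗᵢ[ℝ] E)) : Submodule ℝ E :=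
  ⨅ g ∈ Φ, LinearMap.ker ((av n (g * S * g⁻¹) : E →L[ℝ] E) : E →ₗ[ℝ] E)

lemma mem_WW {n : ℕ} {S : E ≃ₗᵢ[ℝ] E} {Φ : Finset (E ≃ₗᵢ[ℝ] E)} {x : E} :
    x ∈ WW n S Φ ↔ ∀ g ∈ Φ, av n (g * S * g⁻¹) x = 0 := by
  unfold WW
  rw [Submodule.mem_iInf]
  refine forall_congr' fun g => ?_
  rw [Submodule.mem_iInf]
  exact Iff.rfl

lemma av_shift (n : ℕ) (S h g : E ≃ₗᵢ[ℝ] E) (x : E) :
    av n ((h * g) * S * (h * g)⁻¹) x = h (av n (g * S * g⁻¹) (h⁻¹ x)) := by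
  have e : (h * g) * S * (h * g)⁻¹ = h * (g * S * g⁻¹) * h⁻¹ := by group
  rw [e, av_conj]

open Classical in
lemma mem_WW_shift {n : ℕ} {S h : E ≃ₗᵢ[ℝ] E} {Φ : Finset (E ≃ₗᵢ[ℝ] E)} {x : E} :
    x ∈ WW n S (Φ.image (h * ·)) ↔ h⁻¹ x ∈ WW n S Φ := by
  rw [mem_WW, mem_WW]
  constructor
  · intro H g hg
    have h1 := H (h * g) (Finset.mem_image_of_mem _ hg)
    rw [av_shift] at h1
    exact (LinearIsometryEquiv.map_eq_zero_iff h).1 h1
  · intro H g hg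
    obtain ⟨g', hg', rfl⟩ := Finset.mem_image.1 hg
    rw [av_shift, H g' hg', map_zero]

lemma WW_fd {n : ℕ} (hn : 0 < n) {S : E ≃ₗᵢ[ℝ] E} (hS : op S - 1 ∈ KK E)
    {Φ : Finset (E ≃ₗᵢ[ℝ] E)} (hΦ : Φ.Nonempty) : FiniteDimensional ℝ (WW n S Φ) := by
  obtain ⟨g, hg⟩ := hΦ
  haveI := ker_av_fd hn (KK_op_conj hS g)
  exact Submodule.finiteDimensional_of_le (iInf₂_le g hg)

/-- the representation at one good index -/
lemma good_index {Λ : Type*} [Group Λ] [Finite Λ] {ι : Type*} [Fintype ι] (s : ι → Λ) {n : ℕ}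
    (hn : 0 < n) :
    ∃ C : ℝ, ∀ (π : Λ →* (E ≃ₗᵢ[ℝ] E)), ∀ (x : E) (η : ℝ), (∀ i, ‖av n (π (s i)) x‖ ≤ η) →
      ∃ z : E, (∀ i, av n (π (s i)) z = 0) ∧ ‖x - z‖ ≤ C * η := by
  classical
  haveI : Fintype Λ := Fintype.ofFinite Λ
  haveI : NeZero (Nat.card Λ : ℝ) := ⟨by
    rw [Nat.cast_ne_zero]; exact Nat.card_pos.ne'⟩
  let e : ι → MonoidAlgebra ℝ Λ := fun i =>
    (n : ℝ)⁻¹ • ∑ j ∈ Finset.range n, MonoidAlgebra.of ℝ Λ (s i ^ j)
  obtain ⟨p, hp, hJ⟩ := IsSemisimpleRing.ideal_eq_span_idempotent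
    (Ideal.span (Set.range e))
  have hp1 : p ∈ Ideal.span (Set.range e) := by
    rw [hJ]; exact Ideal.mem_span_singleton_self p
  obtain ⟨c, hc⟩ := (Ideal.mem_span_range_iff_exists_fun).1 hp1
  have hb : ∀ i, ∃ b, b * p = e i := by
    intro i
    have h1 : e i ∈ Ideal.span {p} := by
      rw [← hJ]; exact Ideal.subset_span ⟨i, rfl⟩
    exact Ideal.mem_span_singleton'.1 h1
  choose b hb using hb
  refine ⟨∑ i, ∑ g : Λ, |(c i).coeff g|, fun π x η hx => ?_⟩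
  let opH : (E ≃ₗᵢ[ℝ] E) →* (E →L[ℝ] E) :=
    { toFun := op, map_one' := op_one, map_mul' := op_mul }
  let ρ : MonoidAlgebra ℝ Λ →ₐ[ℝ] (E →L[ℝ] E) := MonoidAlgebra.lift ℝ (E →L[ℝ] E) Λ (opH.comp π)
  have hρs : ∀ g : Λ, ρ (MonoidAlgebra.of ℝ Λ g) = op (π g) := fun g => by
    show MonoidAlgebra.lift ℝ (E →L[ℝ] E) Λ (opH.comp π) (MonoidAlgebra.of ℝ Λ g) = _
    rw [MonoidAlgebra.lift_of]
    rfl
  have hρe : ∀ i, ρ (e i) = av n (π (s i)) := by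
    intro i
    show ρ ((n : ℝ)⁻¹ • ∑ j ∈ Finset.range n, MonoidAlgebra.of ℝ Λ (s i ^ j)) = _
    rw [map_smul, map_sum]
    unfold av
    congr 1
    refine Finset.sum_congr rfl fun j _ => ?_
    rw [hρs, map_pow]
  have hρn : ∀ (a : MonoidAlgebra ℝ Λ), ‖ρ a‖ ≤ ∑ g : Λ, |a.coeff g| := by
    intro a
    have h1 : ρ a = ∑ g : Λ, a.coeff g • op (π g) := by
      show MonoidAlgebra.lift ℝ (E →L[ℝ] E) Λ (opH.comp π) a = _
      rw [MonoidAlgebra.lift_apply]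
      exact Finsupp.sum_fintype _ _ fun g => zero_smul _ _
    rw [h1]
    refine (norm_sum_le _ _).trans (Finset.sum_le_sum fun g _ => ?_)
    rw [norm_smul, Real.norm_eq_abs]
    exact mul_le_of_le_one_right (abs_nonneg _) (op_norm_le _)
  refine ⟨x - ρ p x, fun i => ?_, ?_⟩
  · rw [← hρe, ← hb i, map_mul, map_sub]
    show ρ (b i) (ρ p x) - ρ (b i) (ρ p (ρ p x)) = 0
    have h2 : ρ p (ρ p x) = ρ p x := by
      show (ρ p * ρ p) x = ρ p x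
      rw [← map_mul, hp.eq]
    rw [h2, sub_self]
  · rw [sub_sub_cancel]
    have h1 : ρ p x = ∑ i, ρ (c i) (ρ (e i) x) := by
      rw [← hc, map_sum, ContinuousLinearMap.sum_apply]
      refine Finset.sum_congr rfl fun i _ => ?_
      rw [map_mul]
      rfl
    rw [h1, Finset.sum_mul]
    refine (norm_sum_le _ _).trans (Finset.sum_le_sum fun i _ => ?_)
    refine ((ρ (c i)).le_opNorm _).trans ?_
    rw [hρe]
    exact mul_le_mul (hρn (c i)) (hx i) (norm_nonneg _)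
      (Finset.sum_nonneg fun g _ => abs_nonneg _)

end

end Pool.Agent.V5helper96.BM
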