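import Pool.Agent.V5helper96.BM.Comm

/-!
# Discrete groups generated by finitely many isometries of finite displacement rank are finite
-/

set_option autoImplicit false

namespace Pool.Agent.V5helper96.BM

open Filter Topology Metric
open Pool.H590R3.Ab (op op_apply op_mul op_one op_norm_le)

section
variable {X : Type*} [NormedAddCommGroup X] [NormedSpace ℝ X]

lemma KK_of_FR {a : X →L[ℝ] X} (ha : FR a) : a ∈ KK X := by
  haveI : FiniteDimensional ℝ (LinearMap.range (a : X →ₗ[ℝ] X)) := ha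
  set W := LinearMap.range (a : X →ₗ[ℝ] X) with hW
  let b : X →L[ℝ] W := a.codRestrict W fun x => ⟨x, rfl⟩
  rw [mem_KK]
  haveI : ProperSpace W := FiniteDimensional.proper ℝ W
  have h1 : IsCompactOperator b := isCompactOperator_of_locallyCompactSpace_dom b
  exact h1.clm_comp W.subtypeL

/-- **finiteness** -/
theorem fin_group {ι : Type*} [Fintype ι] (s : ι → X ≃ₗᵢ[ℝ] X) (hs : ∀ i, FR (op (s i) - 1))
    {ε : ℝ} (hε : 0 < ε)
    (hd : ∀ g ∈ Subgroup.closure (Set.range s), ‖op g - 1‖ < ε → g = 1) :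
    Finite (Subgroup.closure (Set.range s)) := by
  classical
  haveI : ∀ i, FiniteDimensional ℝ (LinearMap.range ((op (s i) - 1 : X →L[ℝ] X) : X →ₗ[ℝ] X)) := hs
  set M : Submodule ℝ X := ⨆ i, LinearMap.range ((op (s i) - 1 : X →L[ℝ] X) : X →ₗ[ℝ] X) with hM
  haveI : FiniteDimensional ℝ M := inferInstance
  let f : X →ₗ[ℝ] ((i : ι) → LinearMap.range ((op (s i) - 1 : X →L[ℝ] X) : X →ₗ[ℝ] X)) :=
    LinearMap.pi fun i => ((op (s i) - 1 : X →L[ℝ] X) : X →ₗ[ℝ] X).rangeRestrict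
  set N : Submodule ℝ X := LinearMap.ker f with hN
  obtain ⟨V, hV⟩ := Submodule.exists_isCompl N
  haveI : FiniteDimensional ℝ V := by
    haveI : FiniteDimensional ℝ (X ⧸ N) :=
      Module.Finite.equiv (LinearMap.quotKerEquivRange f).symm
    exact Module.Finite.equiv (Submodule.quotientEquivOfIsCompl N V hV)
  have hfN : ∀ x ∈ N, ∀ i, s i x = x := by
    intro x hx i
    have h1 : f x = 0 := hx
    have h2 : ((f x i : LinearMap.range ((op (s i) - 1 : X →L[ℝ] X) : X →ₗ[ℝ] X)) : X) = 0 := by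
      rw [h1]; rfl
    have h3 : s i x - x = 0 := h2
    exact sub_eq_zero.1 h3
  -- the group
  have hG : ∀ g ∈ Subgroup.closure (Set.range s), (∀ x, g x - x ∈ M) ∧ ∀ x ∈ N, g x = x := by
    intro g hg
    refine Subgroup.closure_induction (p := fun g _ => (∀ x, g x - x ∈ M) ∧ ∀ x ∈ N, g x = x)
      ?_ ?_ ?_ ?_ hg
    · rintro _ ⟨i, rfl⟩
      refine ⟨fun x => ?_, fun x hx => hfN x hx i⟩
      have : s i x - x ∈ LinearMap.range ((op (s i) - 1 : X →L[ℝ] X) : X →ₗ[ℝ] X) := ⟨x, rfl⟩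
      exact (le_iSup (fun i => LinearMap.range ((op (s i) - 1 : X →L[ℝ] X) : X →ₗ[ℝ] X)) i) this
    · refine ⟨fun x => ?_, fun x _ => rfl⟩
      show x - x ∈ M
      rw [sub_self]
      exact M.zero_mem
    · intro g h _ _ hg hh
      refine ⟨fun x => ?_, fun x hx => ?_⟩
      · have e : (g * h) x - x = (g (h x) - h x) + (h x - x) := by
          show g (h x) - x = _
          abel
        rw [e]
        exact M.add_mem (hg.1 _) (hh.1 _)
      · show g (h x) = x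
        rw [hh.2 x hx, hg.2 x hx]
    · intro g _ hg
      refine ⟨fun x => ?_, fun x hx => ?_⟩
      · have e : g⁻¹ x - x = -(g (g⁻¹ x) - g⁻¹ x) := by
          have : g (g⁻¹ x) = x := g.apply_symm_apply x
          rw [this]; abel
        rw [e]
        exact M.neg_mem (hg.1 _)
      · have h1 : g⁻¹ (g x) = x := g.symm_apply_apply x
        rw [hg.2 x hx] at h1
        exact h1
  -- the operators
  let A : Submodule ℝ (X →L[ℝ] X) :=
    { carrier := {a | (∀ x, a x ∈ M) ∧ ∀ x ∈ N, a x = 0}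
      add_mem' := by
        intro a b ha hb
        refine ⟨fun x => M.add_mem (ha.1 x) (hb.1 x), fun x hx => ?_⟩
        show a x + b x = 0
        rw [ha.2 x hx, hb.2 x hx, add_zero]
      zero_mem' := ⟨fun x => M.zero_mem, fun x _ => rfl⟩
      smul_mem' := by
        intro c a ha
        refine ⟨fun x => M.smul_mem c (ha.1 x), fun x hx => ?_⟩
        show c • a x = 0
        rw [ha.2 x hx, smul_zero] }
  haveI : FiniteDimensional ℝ A := by
    let bV := Module.finBasis ℝ V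
    let Φ : A →ₗ[ℝ] (Fin (Module.finrank ℝ V) → M) :=
      { toFun := fun a j => ⟨(a : X →L[ℝ] X) (bV j : X), a.2.1 _⟩
        map_add' := fun a b => rfl
        map_smul' := fun c a => rfl }
    refine Module.Finite.of_injective Φ ?_
    rw [← LinearMap.ker_eq_bot, Submodule.eq_bot_iff]
    intro a ha
    have h1 : ∀ j, (a : X →L[ℝ] X) (bV j : X) = 0 := fun j => by
      have : Φ a j = 0 := by rw [(ha : Φ a = 0)]; rfl
      exact congrArg Subtype.val this
    have h2 : ((a : X →L[ℝ] X) : X →ₗ[ℝ] X).comp V.subtype = 0 := bV.ext fun j => h1 j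
    apply Subtype.ext
    ext x
    obtain ⟨n, hn, v, hv, rfl⟩ : ∃ n ∈ N, ∃ v ∈ V, n + v = x := by
      have : x ∈ N ⊔ V := by rw [hV.sup_eq_top]; exact Submodule.mem_top
      exact Submodule.mem_sup.1 this
    rw [map_add, a.2.2 n hn, zero_add]
    exact LinearMap.congr_fun h2 ⟨v, hv⟩
  haveI : ProperSpace A := FiniteDimensional.proper ℝ A
  let Ψ : Subgroup.closure (Set.range s) → A := fun g =>
    ⟨op (g : X ≃ₗᵢ[ℝ] X) - 1, ⟨fun x => (hG g g.2).1 x, fun x hx => by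
      show (g : X ≃ₗᵢ[ℝ] X) x - x = 0
      rw [(hG g g.2).2 x hx, sub_self]⟩⟩
  obtain ⟨t, -, htf, ht⟩ := (isCompact_closedBall (0 : A) 2).finite_cover_balls (e := ε / 2)
    (by positivity)
  have hΨ : ∀ g, ∃ y : t, Ψ g ∈ ball (y : A) (ε / 2) := by
    intro g
    have h1 : Ψ g ∈ closedBall (0 : A) 2 := by
      rw [mem_closedBall_zero_iff]
      exact two_bd (g : X ≃ₗᵢ[ℝ] X)
    obtain ⟨y, hy, h2⟩ := Set.mem_iUnion₂.1 (ht h1)
    exact ⟨⟨y, hy⟩, h2⟩
  choose y hy using hΨ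
  haveI : Finite t := htf
  refine Finite.of_injective y fun g h hgh => ?_
  have h1 := hy g
  have h2 := hy h
  rw [hgh] at h1
  rw [mem_ball] at h1 h2
  have h3 : dist (Ψ g) (Ψ h) < ε := by
    have := dist_triangle_right (Ψ g) (Ψ h) (y h : A)
    linarith
  have h4 : ‖op (g : X ≃ₗᵢ[ℝ] X) - op (h : X ≃ₗᵢ[ℝ] X)‖ < ε := by
    rw [dist_eq_norm] at h3
    have e : op (g : X ≃ₗᵢ[ℝ] X) - op (h : X ≃ₗᵢ[ℝ] X) = ((Ψ g - Ψ h : A) : X →L[ℝ] X) := by
      show _ = (op (g : X ≃ₗᵢ[ℝ] X) - 1) - (op (h : X ≃ₗᵢ[ℝ] X) - 1)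
      abel
    rw [e]
    exact h3
  have h5 : ‖op ((h⁻¹ * g : Subgroup.closure (Set.range s)) : X ≃ₗᵢ[ℝ] X) - 1‖ < ε := by
    have e : op ((h⁻¹ * g : Subgroup.closure (Set.range s)) : X ≃ₗᵢ[ℝ] X) - 1 =
        op ((h : X ≃ₗᵢ[ℝ] X)⁻¹) * (op (g : X ≃ₗᵢ[ℝ] X) - op (h : X ≃ₗᵢ[ℝ] X)) := by
      rw [mul_sub, op_inv_mul, ← op_mul]; rfl
    rw [e]
    exact lt_of_le_of_lt ((norm_mul_le _ _).trans
      (mul_le_of_le_one_left (norm_nonneg _) (op_norm_le _))) h4
  have h6 := hd _ (h⁻¹ * g).2 h5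
  have h7 : h⁻¹ * g = 1 := Subtype.ext h6
  exact (inv_mul_eq_one.1 h7).symm

end

section
variable {X : Type*} [NormedAddCommGroup X] [NormedSpace ℝ X]

/-- the average over the powers -/
noncomputable def av (n : ℕ) (S : X ≃ₗᵢ[ℝ] X) : X →L[ℝ] X :=
  (n : ℝ)⁻¹ • ∑ i ∈ Finset.range n, op (S ^ i)

lemma av_norm {n : ℕ} (hn : 0 < n) (S : X ≃ₗᵢ[ℝ] X) : ‖av n S‖ ≤ 1 := by
  have hn0 : (0 : ℝ) < n := by exact_mod_cast hn
  unfold av
  rw [norm_smul, norm_inv, Real.norm_of_nonneg hn0.le, inv_mul_le_iff₀ hn0, mul_one]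
  refine (norm_sum_le _ _).trans ?_
  have := Finset.sum_le_card_nsmul (Finset.range n) (fun i => ‖op (S ^ i)‖) 1
    fun i _ => op_norm_le _
  simpa using this

lemma op_mul_av {n : ℕ} {S : X ≃ₗᵢ[ℝ] X} (hS : S ^ n = 1) : op S * av n S = av n S := by
  unfold av
  rw [mul_smul_comm, Finset.mul_sum]
  congr 1
  have h1 : ∑ i ∈ Finset.range n, op S * op (S ^ i) = ∑ i ∈ Finset.range n, op (S ^ (i + 1)) :=
    Finset.sum_congr rfl fun i _ => by rw [← op_mul, pow_succ']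
  rw [h1]
  have h2 := Finset.sum_range_succ' (fun i => op (S ^ i)) n
  have h3 := Finset.sum_range_succ (fun i => op (S ^ i)) n
  rw [h2] at h3
  rw [pow_zero, hS] at h3
  exact add_right_cancel h3

lemma op_pow_mul_av {n : ℕ} {S : X ≃ₗᵢ[ℝ] X} (hS : S ^ n = 1) (j : ℕ) :
    op (S ^ j) * av n S = av n S := by
  induction j with
  | zero => rw [pow_zero, op_one, one_mul]
  | succ j ih => rw [pow_succ, op_mul, mul_assoc, op_mul_av hS, ih]

lemma av_idem {n : ℕ} (hn : 0 < n) {S : X ≃ₗᵢ[ℝ] X} (hS : S ^ n = 1) :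
    av n S * av n S = av n S := by
  have hn0 : (n : ℝ) ≠ 0 := by exact_mod_cast hn.ne'
  have h1 : (∑ i ∈ Finset.range n, op (S ^ i)) * av n S = (n : ℝ) • av n S := by
    rw [Finset.sum_mul, Finset.sum_congr rfl fun i _ => op_pow_mul_av hS i, Finset.sum_const,
      Finset.card_range, Nat.cast_smul_eq_nsmul]
  conv_lhs => unfold av
  rw [smul_mul_assoc]
  have h2 : (∑ i ∈ Finset.range n, op (S ^ i)) * ((n : ℝ)⁻¹ • ∑ i ∈ Finset.range n, op (S ^ i)) =
      (n : ℝ) • av n S := h1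
  rw [h2, smul_smul, inv_mul_cancel₀ hn0, one_smul]

lemma one_sub_av {n : ℕ} (hn : 0 < n) {S : X ≃ₗᵢ[ℝ] X} (hS : op S - 1 ∈ KK X) :
    1 - av n S ∈ KK X := by
  have hn0 : (n : ℝ) ≠ 0 := by exact_mod_cast hn.ne'
  have e : 1 - av n S = -((n : ℝ)⁻¹ • ∑ i ∈ Finset.range n, (op (S ^ i) - 1)) := by
    unfold av
    rw [Finset.sum_sub_distrib, Finset.sum_const, Finset.card_range, smul_sub,
      ← Nat.cast_smul_eq_nsmul ℝ, smul_smul, inv_mul_cancel₀ hn0, one_smul]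
    abel
  rw [e]
  exact Submodule.neg_mem _ (Submodule.smul_mem _ _ (Submodule.sum_mem _ fun i _ => KK_op_pow hS i))

lemma ker_av_fd {n : ℕ} (hn : 0 < n) {S : X ≃ₗᵢ[ℝ] X} (hS : op S - 1 ∈ KK X) :
    FiniteDimensional ℝ (LinearMap.ker ((av n S : X →L[ℝ] X) : X →ₗ[ℝ] X)) := by
  have h := KK_fix (one_sub_av hn hS)
  rwa [sub_sub_cancel] at h

lemma FR_of_order {n : ℕ} (hn : 0 < n) {S : X ≃ₗᵢ[ℝ] X} (hSn : S ^ n = 1)
    (hS : op S - 1 ∈ KK X) : FR (op S - 1) := by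
  haveI := ker_av_fd hn hS
  have h1 : FR (1 - av n S) := by
    refine FR_of_le (W := LinearMap.ker ((av n S : X →L[ℝ] X) : X →ₗ[ℝ] X)) fun x => ?_
    show (av n S * (1 - av n S)) x = 0
    rw [mul_sub, mul_one, av_idem hn hSn, sub_self]
    rfl
  have e : op S - 1 = (op S - 1) * (1 - av n S) := by
    rw [mul_sub, mul_one, sub_mul, op_mul_av hSn, one_mul, sub_self, sub_zero]
  rw [e]
  exact FR_comp_left h1 _

lemma av_ker_ne_bot {n : ℕ} (hn : 0 < n) {S : X ≃ₗᵢ[ℝ] X} (hSn : S ^ n = 1) (hS1 : S ≠ 1) :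
    LinearMap.ker ((av n S : X →L[ℝ] X) : X →ₗ[ℝ] X) ≠ ⊥ := by
  intro h
  apply hS1
  have h1 : ∀ x, av n S x = x := by
    intro x
    have h2 : av n S x - x ∈ LinearMap.ker ((av n S : X →L[ℝ] X) : X →ₗ[ℝ] X) := by
      show av n S (av n S x - x) = 0
      rw [map_sub, sub_eq_zero]
      show (av n S * av n S) x = av n S x
      rw [av_idem hn hSn]
    rw [h, Submodule.mem_bot, sub_eq_zero] at h2
    exact h2
  ext x
  show S x = x
  have h3 : (op S * av n S) x = av n S x := by rw [op_mul_av hSn]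
  have h4 : S (av n S x) = av n S x := h3
  rwa [h1] at h4

lemma av_conj (n : ℕ) (g S : X ≃ₗᵢ[ℝ] X) (x : X) :
    av n (g * S * g⁻¹) x = g (av n S (g⁻¹ x)) := by
  unfold av
  rw [ContinuousLinearMap.smul_apply, ContinuousLinearMap.smul_apply, map_smul,
    ContinuousLinearMap.sum_apply, ContinuousLinearMap.sum_apply, map_sum]
  congr 1
  refine Finset.sum_congr rfl fun i _ => ?_
  rw [conj_pow]
  rfl

end

end Pool.Agent.V5helper96.BM
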