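import Pool.Agent.V5helper96.BM.Skew

/-!
# Generators of finite rank
-/

set_option autoImplicit false

namespace Pool.Agent.V5helper96.BM

open Filter Topology Metric
open Pool.H590R3.Ab
open Pool.Agent.TH596.RO (cj cj_apply norm_cj)

section
variable {E : Type*} [NormedAddCommGroup E] [NormedSpace ℝ E]

lemma cj_eq (T : E ≃ₗᵢ[ℝ] E) (a : E →L[ℝ] E) : cj T a = op T * a * op T⁻¹ := rfl

lemma cj_mul (S T : E ≃ₗᵢ[ℝ] E) (a : E →L[ℝ] E) : cj (S * T) a = cj S (cj T a) := by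
  rw [cj_eq, cj_eq, cj_eq, op_mul, mul_inv_rev, op_mul]
  simp only [mul_assoc]

lemma cj_one (a : E →L[ℝ] E) : cj (1 : E ≃ₗᵢ[ℝ] E) a = a := by
  rw [cj_eq, inv_one, op_one, one_mul, mul_one]

/-- conjugation as an isometry of the space of operators -/
noncomputable def Ad : (E ≃ₗᵢ[ℝ] E) →* ((E →L[ℝ] E) ≃ₗᵢ[ℝ] (E →L[ℝ] E)) where
  toFun T :=
    { toFun := cj T
      invFun := cj T⁻¹
      map_add' := map_add (cj T)
      map_smul' := fun c a => by rw [map_smul]; rfl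
      left_inv := fun a => by rw [← cj_mul, inv_mul_cancel, cj_one]
      right_inv := fun a => by rw [← cj_mul, mul_inv_cancel, cj_one]
      norm_map' := fun a => norm_cj T a }
  map_one' := by
    ext1 a
    exact cj_one a
  map_mul' S T := by
    ext1 a
    exact cj_mul S T a

lemma Ad_apply (T : E ≃ₗᵢ[ℝ] E) (a : E →L[ℝ] E) : Ad T a = cj T a := rfl

lemma Ad_zpow_apply (T : E ≃ₗᵢ[ℝ] E) (k : ℤ) (a : E →L[ℝ] E) :
    op ((Ad T) ^ k) a = cj (T ^ k) a := by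
  rw [op_apply, ← map_zpow, Ad_apply]

variable [CompleteSpace E]

lemma summable_Ad (T : E ≃ₗᵢ[ℝ] E) {a : ℤ → ℝ} (ha : Summable fun k => |a k|) (D : E →L[ℝ] E) :
    Summable fun k => a k • cj (T ^ k) D := by
  refine Summable.of_norm_bounded (ha.mul_right ‖D‖) fun k => ?_
  rw [norm_smul, Real.norm_eq_abs, norm_cj]

lemma Fop_Ad (T : E ≃ₗᵢ[ℝ] E) {a : ℤ → ℝ} (ha : Summable fun k => |a k|) (D : E →L[ℝ] E) :
    Fop (Ad T) a D = ∑' k, a k • cj (T ^ k) D := by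
  have h := (ContinuousLinearMap.apply ℝ (E →L[ℝ] E) D).map_tsum (summable_term (Ad T) ha)
  refine Eq.trans h (tsum_congr fun k => ?_)
  show (a k • op ((Ad T) ^ k)) D = _
  rw [ContinuousLinearMap.smul_apply, Ad_zpow_apply]

lemma Fop_Ad_mem [Nontrivial E] (T : E ≃ₗᵢ[ℝ] E) {a : ℤ → ℝ} (ha : Summable fun k => |a k|)
    {D : E →L[ℝ] E} (hD : D ∈ gg E) : Fop (Ad T) a D ∈ gg E := by
  rw [Fop_Ad T ha]
  refine gg_closed.mem_of_tendsto (summable_Ad T ha D).hasSum (Eventually.of_forall fun s => ?_)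
  exact Submodule.sum_mem _ fun k _ => Submodule.smul_mem _ _ (gg_cj hD _)

lemma Fop_Ad_sandwich (T : E ≃ₗᵢ[ℝ] E) {a : ℤ → ℝ} (ha : Summable fun k => |a k|)
    (S F : E →L[ℝ] E) (hS : ∀ k : ℤ, S * op (T ^ k) = op (T ^ k) * S) :
    Fop (Ad T) a (S * F * S) = S * Fop (Ad T) a F * S := by
  rw [Fop_Ad T ha, Fop_Ad T ha, ← (summable_Ad T ha F).tsum_mul_left,
    ← ((summable_Ad T ha F).mul_left S).tsum_mul_right]
  refine tsum_congr fun k => ?_
  rw [mul_smul_comm, smul_mul_assoc]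
  congr 1
  rw [cj_eq, cj_eq]
  have h1 := hS k
  have h2 : S * op (T ^ k)⁻¹ = op (T ^ k)⁻¹ * S := by
    have := hS (-k)
    rwa [zpow_neg] at this
  calc op (T ^ k) * (S * F * S) * op (T ^ k)⁻¹
      = (op (T ^ k) * S) * F * (S * op (T ^ k)⁻¹) := by simp only [mul_assoc]
    _ = (S * op (T ^ k)) * F * (op (T ^ k)⁻¹ * S) := by rw [h1, h2]
    _ = S * (op (T ^ k) * F * op (T ^ k)⁻¹) * S := by simp only [mul_assoc]

lemma Fop_comm_zpow (T : E ≃ₗᵢ[ℝ] E) {a : ℤ → ℝ} (ha : Summable fun k => |a k|) (k : ℤ) :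
    Fop T a * op (T ^ k) = op (T ^ k) * Fop T a := by
  refine (Fop_comm_of T ha (op (T ^ k)) fun l => ?_).symm
  rw [← op_mul, ← op_mul, ← zpow_add, ← zpow_add, add_comm]

/-- `1 - a (T)` has finite rank if another `1 - b (T)` is the identity on its range -/
lemma FR_one_sub (T : E ≃ₗᵢ[ℝ] E) (hT : op T - 1 ∈ KK E) {a b : ℤ → ℝ}
    (hb : Summable fun k => |b k|) (hb1 : ∑' k, b k = 1)
    (hab : Fop T b * (1 - Fop T a) = 0) : FR (1 - Fop T a) := by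
  have hK := one_sub_Fop_mem T hT hb hb1
  haveI := KK_fix hK
  refine FR_of_le (W := LinearMap.ker ((1 - (1 - Fop T b) : E →L[ℝ] E) : E →ₗ[ℝ] E)) fun x => ?_
  show (1 - (1 - Fop T b) : E →L[ℝ] E) ((1 - Fop T a) x) = 0
  rw [sub_sub_cancel]
  show (Fop T b * (1 - Fop T a)) x = 0
  rw [hab]
  rfl

/-- left multiplication by `T` almost fixes `Z` if `Z = S Z` with `(Co T - 1) S` small -/
lemma small_left (T : E ≃ₗᵢ[ℝ] E) {S Z : E →L[ℝ] E} {ε : ℝ} (hZ : S * Z = Z)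
    (hS : ‖(Co T - (1 : ℝ) • 1) * S‖ ≤ ε) {N : ℕ} (hN : 0 < N) :
    ‖op T * Z - Z‖ ≤ (2 / N + 2 * N * ε) * ‖Z‖ := by
  have hN0 : (0 : ℝ) < N := by exact_mod_cast hN
  have hε : 0 ≤ ε := (norm_nonneg _).trans hS
  refine ContinuousLinearMap.opNorm_le_bound _ (by positivity) fun x => ?_
  have h1 := first_le_second T (Z x) N
  rw [second_eq] at h1
  have e : (Co T - (1 : ℝ) • 1) (Z x) = ((Co T - (1 : ℝ) • 1) * S) (Z x) := by
    show _ = (Co T - (1 : ℝ) • 1) ((S * Z) x)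
    rw [hZ]
  have h2 : ‖(Co T - (1 : ℝ) • 1) (Z x)‖ ≤ ε * (‖Z‖ * ‖x‖) := by
    rw [e]
    refine (ContinuousLinearMap.le_opNorm _ _).trans ?_
    exact mul_le_mul hS (Z.le_opNorm x) (norm_nonneg _) hε
  have h3 : ‖Z x‖ ≤ ‖Z‖ * ‖x‖ := Z.le_opNorm x
  show ‖T (Z x) - Z x‖ ≤ _
  have h4 : (N : ℝ) * ‖T (Z x) - Z x‖ ≤ N * ((2 / N + 2 * N * ε) * ‖Z‖ * ‖x‖) := by
    calc _ ≤ _ := h1
      _ ≤ 2 * (‖Z‖ * ‖x‖) + (N : ℝ) ^ 2 * (2 * (ε * (‖Z‖ * ‖x‖))) := by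
        refine add_le_add (by linarith) (mul_le_mul_of_nonneg_left (by linarith) (by positivity))
      _ = N * ((2 / N + 2 * N * ε) * ‖Z‖ * ‖x‖) := by field_simp
  exact le_of_mul_le_mul_left h4 hN0

lemma norm_mul_op_inv (T : E ≃ₗᵢ[ℝ] E) (Z : E →L[ℝ] E) : ‖Z * op T⁻¹‖ = ‖Z‖ := by
  apply le_antisymm
  · exact (norm_mul_le _ _).trans (mul_le_of_le_one_right (norm_nonneg _) (op_norm_le _))
  · have e : Z = (Z * op T⁻¹) * op T := by rw [mul_assoc, op_inv_mul, mul_one]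
    calc ‖Z‖ = ‖(Z * op T⁻¹) * op T‖ := by rw [← e]
      _ ≤ _ := (norm_mul_le _ _).trans (mul_le_of_le_one_right (norm_nonneg _) (op_norm_le _))

lemma norm_op_mul (T : E ≃ₗᵢ[ℝ] E) (Z : E →L[ℝ] E) : ‖op T * Z‖ ≤ ‖Z‖ :=
  (norm_mul_le _ _).trans (mul_le_of_le_one_left (norm_nonneg _) (op_norm_le _))

/-- right multiplication as an isometry -/
noncomputable def Rm (T : E ≃ₗᵢ[ℝ] E) : (E →L[ℝ] E) ≃ₗᵢ[ℝ] (E →L[ℝ] E) where
  toFun Z := Z * op T⁻¹
  invFun Z := Z * op T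
  map_add' a b := add_mul _ _ _
  map_smul' c a := smul_mul_assoc _ _ _
  left_inv Z := by
    show Z * op T⁻¹ * op T = Z
    rw [mul_assoc, op_inv_mul, mul_one]
  right_inv Z := by
    show Z * op T * op T⁻¹ = Z
    rw [mul_assoc, op_mul_inv, mul_one]
  norm_map' Z := norm_mul_op_inv T Z

lemma Rm_apply (T : E ≃ₗᵢ[ℝ] E) (Z : E →L[ℝ] E) : Rm T Z = Z * op T⁻¹ := rfl

lemma small_right (T : E ≃ₗᵢ[ℝ] E) {S Z : E →L[ℝ] E} {ε : ℝ} (hZ : Z * S = Z)
    (hS : ‖(Co T - (1 : ℝ) • 1) * S‖ ≤ ε) (hc : S * Co T = Co T * S) {N : ℕ} (hN : 0 < N) :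
    ‖Z * op T⁻¹ - Z‖ ≤ (2 / N + 2 * N * ε) * ‖Z‖ := by
  have hN0 : (0 : ℝ) < N := by exact_mod_cast hN
  have hε : 0 ≤ ε := (norm_nonneg _).trans hS
  have h1 := first_le_second (Rm T) Z N
  have e : Rm T (Rm T Z - Z) - (Rm T Z - Z) =
      (2 : ℝ) • (Z * ((Co T - (1 : ℝ) • 1) * S) * op T⁻¹) := by
    have e1 : Z * ((Co T - (1 : ℝ) • 1) * S) = Z * (Co T - (1 : ℝ) • 1) := by
      have : (Co T - (1 : ℝ) • 1) * S = S * (Co T - (1 : ℝ) • 1) := by
        rw [sub_mul, mul_sub, hc, smul_mul_assoc, mul_smul_comm, one_mul, mul_one]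
      rw [this, ← mul_assoc, hZ]
    have e2 : Z * (Co T - (1 : ℝ) • 1) * op T⁻¹ =
        (1 / 2 : ℝ) • (Z + Z * op T⁻¹ * op T⁻¹) - Z * op T⁻¹ := by
      unfold Co
      rw [one_smul, mul_sub, mul_one, sub_mul, mul_smul_comm, smul_mul_assoc, mul_add, add_mul,
        mul_assoc Z (op T), op_mul_inv, mul_one]
    rw [e1, e2, Rm_apply, Rm_apply, sub_mul]
    module
  rw [e] at h1
  have h2 : ‖(2 : ℝ) • (Z * ((Co T - (1 : ℝ) • 1) * S) * op T⁻¹)‖ ≤ 2 * (‖Z‖ * ε) := by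
    rw [norm_smul, norm_mul_op_inv, Real.norm_of_nonneg (by norm_num : (0 : ℝ) ≤ 2)]
    refine mul_le_mul_of_nonneg_left ?_ (by norm_num)
    exact (norm_mul_le _ _).trans (mul_le_mul_of_nonneg_left hS (norm_nonneg _))
  rw [Rm_apply] at h1
  have h4 : (N : ℝ) * ‖Z * op T⁻¹ - Z‖ ≤ N * ((2 / N + 2 * N * ε) * ‖Z‖) := by
    calc _ ≤ _ := h1
      _ ≤ 2 * ‖Z‖ + (N : ℝ) ^ 2 * (2 * (‖Z‖ * ε)) :=
        add_le_add le_rfl (mul_le_mul_of_nonneg_left h2 (by positivity))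
      _ = N * ((2 / N + 2 * N * ε) * ‖Z‖) := by field_simp
  exact le_of_mul_le_mul_left h4 hN0

lemma Ad_near (T : E ≃ₗᵢ[ℝ] E) {S Z : E →L[ℝ] E} {ε : ℝ} (hZl : S * Z = Z) (hZr : Z * S = Z)
    (hS : ‖(Co T - (1 : ℝ) • 1) * S‖ ≤ ε) (hc : S * Co T = Co T * S) {N : ℕ} (hN : 0 < N) :
    ‖Ad T Z - Z‖ ≤ 2 * (2 / N + 2 * N * ε) * ‖Z‖ := by
  have e : Ad T Z - Z = (op T * Z - Z) * op T⁻¹ + (Z * op T⁻¹ - Z) := by
    rw [Ad_apply, cj_eq, sub_mul]; abel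
  rw [e]
  refine (norm_add_le _ _).trans ?_
  rw [norm_mul_op_inv]
  have h1 := small_left T hZl hS hN
  have h2 := small_right T hZr hS hc hN
  linarith

/-- **generators of finite rank**: if `T - 1` is compact and the generator `D` does not commute
with `T`, there is a nonzero generator of finite rank -/
theorem finrk [Nontrivial E] (T : E ≃ₗᵢ[ℝ] E) (hT : op T - 1 ∈ KK E) {D : E →L[ℝ] E}
    (hD : D ∈ gg E) (hne : cj T D ≠ D) : ∃ F ∈ gg E, F ≠ 0 ∧ FR F := by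
  obtain ⟨a, ha, ha1, hab, hε⟩ := bumps
  have hVV : ∀ {X : Type _} [NormedAddCommGroup X] [NormedSpace ℝ X] [CompleteSpace X]
      (U : X ≃ₗᵢ[ℝ] X) (m n : ℕ), m < n → Fop U (a m) * Fop U (a n) = Fop U (a n) := by
    intro X _ _ _ U m n hmn
    exact Fop_mul U (ha m) (ha n) (hab m n hmn)
  have hco : ∀ {X : Type _} [NormedAddCommGroup X] [NormedSpace ℝ X] [CompleteSpace X]
      (U : X ≃ₗᵢ[ℝ] X) (ε : ℝ), 0 < ε → ∃ n0 : ℕ, ∀ n, n0 ≤ n →
        ‖(Co U - (1 : ℝ) • 1) * Fop U (a n)‖ ≤ ε := by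
    intro X _ _ _ U ε hε0
    obtain ⟨n0, hn0⟩ := hε ε hε0
    refine ⟨n0, fun n hn => ?_⟩
    rw [Co_mul_Fop U (ha n) 1]
    have hs : Summable fun k : ℤ => |(a n (k - 1) + a n (k + 1)) / 2 - 1 * a n k| := by
      have s1 : Summable fun k : ℤ => |a n (k - 1)| := summable_shift (ha n) (-1)
      have s2 : Summable fun k : ℤ => |a n (k + 1)| := summable_shift (ha n) 1
      refine Summable.of_nonneg_of_le (fun _ => abs_nonneg _) (fun k => ?_)
        (((s1.add s2).div_const 2).add (ha n))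
      rw [one_mul]
      refine (abs_sub _ _).trans (add_le_add ?_ le_rfl)
      rw [abs_div, abs_of_pos (by norm_num : (0 : ℝ) < 2)]
      exact div_le_div_of_nonneg_right (abs_add_le _ _) (by norm_num)
    refine (Fop_norm_le U hs).trans ?_
    simpa using hn0 n hn
  -- a filter which does not kill `D`
  obtain ⟨m, hm⟩ : ∃ m, D - Fop (Ad T) (a m) D ≠ 0 := by
    by_contra hcon
    push Not at hcon
    apply hne
    have h1 : (Co (Ad T) - (1 : ℝ) • 1) D = 0 := by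
      rw [← norm_le_zero_iff]
      refine le_of_forall_pos_le_add fun δ hδ => ?_
      obtain ⟨n0, hn0⟩ := hco (Ad T) (δ / (‖D‖ + 1)) (by positivity)
      have h2 := hn0 n0 le_rfl
      have h3 : D = Fop (Ad T) (a n0) D := sub_eq_zero.1 (hcon n0)
      have h4 : (Co (Ad T) - (1 : ℝ) • 1) D = ((Co (Ad T) - (1 : ℝ) • 1) * Fop (Ad T) (a n0)) D := by
        conv_lhs => rw [h3]
        rfl
      rw [h4, zero_add]
      refine (ContinuousLinearMap.le_opNorm _ _).trans ?_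
      refine (mul_le_mul_of_nonneg_right h2 (norm_nonneg D)).trans ?_
      rw [div_mul_eq_mul_div, div_le_iff₀ (by positivity)]
      nlinarith [norm_nonneg D]
    have h5 := fix_of_Co (Ad T) D h1
    exact h5
  set F : E →L[ℝ] E := D - Fop (Ad T) (a m) D with hF
  have hFg : F ∈ gg E := Submodule.sub_mem _ hD (Fop_Ad_mem T (ha m) hD)
  have hFm : Fop (Ad T) (a (m + 1)) F = 0 := by
    have h1 := hVV (Ad T) m (m + 1) (Nat.lt_succ_self m)
    have h2 : Fop (Ad T) (a (m + 1)) (Fop (Ad T) (a m) D) = Fop (Ad T) (a (m + 1)) D := by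
      show (Fop (Ad T) (a (m + 1)) * Fop (Ad T) (a m)) D = _
      rw [Fop_comm (Ad T) (ha (m + 1)) (ha m), h1]
    rw [hF, map_sub, h2, sub_self]
  refine ⟨F, hFg, hm, ?_⟩
  -- the low frequency part vanishes
  obtain ⟨η, hη, hnear⟩ := Fop_near (E := E →L[ℝ] E) (ha (m + 1)) (ha1 (m + 1))
  obtain ⟨N, hN⟩ := exists_nat_gt (8 / η)
  have hN0 : (0 : ℝ) < N := lt_of_le_of_lt (by positivity) hN
  have hN1 : 0 < N := by exact_mod_cast hN0
  obtain ⟨n0, hn0⟩ := hco T (η / (8 * N)) (by positivity)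
  set S' := Fop T (a n0) with hS'
  set S := Fop T (a (n0 + 1)) with hS
  have hS'S : S' * S = S := hVV T n0 (n0 + 1) (Nat.lt_succ_self _)
  have hSS' : S * S' = S := by rw [hS, hS', Fop_comm T (ha (n0 + 1)) (ha n0)]; exact hS'S
  have hcS : S' * Co T = Co T * S' := by
    unfold Co
    have h1 := Fop_comm_zpow T (ha n0) 1
    have h2 := Fop_comm_zpow T (ha n0) (-1)
    rw [zpow_one] at h1
    rw [zpow_neg_one] at h2
    rw [mul_smul_comm, smul_mul_assoc, mul_add, add_mul, hS', h1, h2]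
  set Z := S * F * S with hZ
  have hZl : S' * Z = Z := by rw [hZ, ← mul_assoc, ← mul_assoc, hS'S]
  have hZr : Z * S' = Z := by rw [hZ, mul_assoc, hSS']
  have hZ0 : Z = 0 := by
    have h1 := Ad_near T hZl hZr (hn0 n0 le_rfl) hcS hN1
    have h2 : 2 * (2 / N + 2 * N * (η / (8 * N))) ≤ η := by
      have e : 2 * (2 / (N : ℝ) + 2 * N * (η / (8 * N))) = 4 / N + η / 2 := by
        field_simp; ring
      rw [e]
      have : 4 / (N : ℝ) ≤ η / 2 := by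
        rw [div_lt_iff₀ hη] at hN
        rw [div_le_iff₀ hN0]
        linarith
      linarith
    have h3 := hnear (Ad T) Z (h1.trans (mul_le_mul_of_nonneg_right h2 (norm_nonneg _)))
    have h4 : Fop (Ad T) (a (m + 1)) Z = 0 := by
      rw [hZ, Fop_Ad_sandwich T (ha (m + 1)) S F (fun k => Fop_comm_zpow T (ha (n0 + 1)) k), hFm,
        mul_zero, zero_mul]
    rw [h4, zero_sub, norm_neg] at h3
    have h5 : ‖Z‖ ≤ 0 := by linarith [norm_nonneg Z]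
    exact norm_le_zero_iff.1 h5
  -- `1 - S` has finite rank
  have hSn : Fop T (a (n0 + 2)) * (1 - S) = 0 := by
    rw [mul_sub, mul_one, Fop_comm T (ha (n0 + 2)) (ha (n0 + 1)),
      hVV T (n0 + 1) (n0 + 2) (by omega), sub_self]
  have hR : FR (1 - S) := FR_one_sub T hT (ha (n0 + 2)) (ha1 (n0 + 2)) hSn
  haveI : FiniteDimensional ℝ (LinearMap.range ((1 - S : E →L[ℝ] E) : E →ₗ[ℝ] E)) := hR
  set W1 := LinearMap.range ((1 - S : E →L[ℝ] E) : E →ₗ[ℝ] E) with hW1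
  set W2 := W1.map ((S * F : E →L[ℝ] E) : E →ₗ[ℝ] E) with hW2
  haveI : FiniteDimensional ℝ W2 := inferInstance
  refine FR_of_le (W := W1 ⊔ W2) fun x => ?_
  have e : F x = (1 - S) (F x) + (S * F) ((1 - S) x) + Z x := by
    have h7 : F x = (F x - S (F x)) + S (F (x - S x)) + S (F (S x)) := by
      rw [map_sub, map_sub]; abel
    exact h7
  rw [e, hZ0, ContinuousLinearMap.zero_apply, add_zero]
  refine Submodule.add_mem_sup ⟨F x, rfl⟩ ?_
  exact ⟨(1 - S) x, ⟨x, rfl⟩, rfl⟩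

end

end Pool.Agent.V5helper96.BM
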