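import Pool.Agent.V5helper96.BM.Alg
import Pool.Agent.V5helper96.BM.Bin
import Pool.Agent.TH596.RO.Forms
import Pool.Agent.TH596.RO.Core

/-!
# A generator of finite rank on a space with transitive norm makes the norm Euclidean
-/

set_option autoImplicit false

namespace Pool.Agent.V5helper96.BM

open Filter Topology
open Pool.H590R3.Ab (op op_apply)
open Pool.Agent.TH596.RO (cj cj_apply norm_cj bl bl_apply AT)

section bilin
variable {X : Type*} [AddCommGroup X] [Module ℝ X]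

/-- Cauchy-Schwarz -/
lemma cs {B : X →ₗ[ℝ] X →ₗ[ℝ] ℝ} (hs : ∀ x y, B x y = B y x) (hp : ∀ x, 0 ≤ B x x) (x y : X) :
    B x y ^ 2 ≤ B x x * B y y := by
  have h : ∀ t : ℝ, 0 ≤ B y y * (t * t) + 2 * B x y * t + B x x := by
    intro t
    have h1 := hp (x + t • y)
    have e : B (x + t • y) (x + t • y) = B y y * (t * t) + 2 * B x y * t + B x x := by
      simp only [map_add, map_smul, LinearMap.add_apply, LinearMap.smul_apply, smul_eq_mul]
      rw [hs y x]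
      ring
    rwa [e] at h1
  have := discrim_le_zero h
  rw [discrim] at this
  nlinarith

end bilin

section
variable {X : Type*} [NormedAddCommGroup X] [NormedSpace ℝ X]

lemma FR_cj {F : X →L[ℝ] X} (hF : FR F) (g : X ≃ₗᵢ[ℝ] X) : FR (cj g F) := by
  haveI : FiniteDimensional ℝ (LinearMap.range (F : X →ₗ[ℝ] X)) := hF
  refine FR_of_le (W := (LinearMap.range (F : X →ₗ[ℝ] X)).map (op g : X →ₗ[ℝ] X)) fun x => ?_
  exact ⟨F (g.symm x), ⟨_, rfl⟩, rfl⟩

lemma VF_fd {F : X →L[ℝ] X} (hF : FR F) (Φ : Finset (X ≃ₗᵢ[ℝ] X)) : FiniteDimensional ℝ (VF F Φ) := by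
  classical
  have e : VF F Φ = Φ.sup fun g => LinearMap.range ((cj g F : X →L[ℝ] X) : X →ₗ[ℝ] X) := by
    rw [Finset.sup_eq_iSup]; rfl
  haveI : ∀ g : X ≃ₗᵢ[ℝ] X, FiniteDimensional ℝ
      (LinearMap.range ((cj g F : X →L[ℝ] X) : X →ₗ[ℝ] X)) := fun g => FR_cj hF g
  rw [e]
  infer_instance

/-- the form of a finite set of conjugates -/
lemma exists_form [Nontrivial X] {F : X →L[ℝ] X} (hFg : F ∈ gg X) (hF : FR F) (u : X)
    (hu : F u ≠ 0) (Φ : Finset (X ≃ₗᵢ[ℝ] X)) :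
    ∃ B : X →ₗ[ℝ] X →ₗ[ℝ] ℝ, (∀ x y, B x y = B y x) ∧ (∀ x, 0 ≤ B x x) ∧
      (∀ x ∈ VF F Φ, x ≠ 0 → 0 < B x x) ∧
      (∀ g ∈ Φ, ∀ x ∈ VF F Φ, ∀ y ∈ VF F Φ, B (cj g F x) y = - B x (cj g F y)) ∧
      (∃ C : ℝ, 0 ≤ C ∧ ∀ x ∈ VF F Φ, B x x ≤ C * ‖x‖ ^ 2) ∧
      ((1 : X ≃ₗᵢ[ℝ] X) ∈ Φ → B (F u) (F u) = 1) := by
  haveI := VF_fd hF Φ
  obtain ⟨b, hbs, hbp, hbi⟩ := exists_inv_form (V := VF F Φ)
  obtain ⟨π, hπ⟩ := LinearMap.exists_leftInverse_of_injective (VF F Φ).subtype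
    (LinearMap.ker_eq_bot.2 (VF F Φ).injective_subtype)
  have hπ' : ∀ (x : X) (hx : x ∈ VF F Φ), π x = ⟨x, hx⟩ := fun x hx =>
    LinearMap.congr_fun hπ ⟨x, hx⟩
  obtain ⟨k, hk, hk1⟩ : ∃ k : ℝ, 0 < k ∧
      ((1 : X ≃ₗᵢ[ℝ] X) ∈ Φ → k * b (π (F u)) (π (F u)) = 1) := by
    by_cases h1 : (1 : X ≃ₗᵢ[ℝ] X) ∈ Φ
    · have hm : F u ∈ VF F Φ := by
        have := mem_VF F h1 u
        rwa [cj_one] at this
      have hp : 0 < b (π (F u)) (π (F u)) := by
        apply hbp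
        rw [hπ' _ hm]
        intro h
        exact hu (congrArg Subtype.val h)
      exact ⟨(b (π (F u)) (π (F u)))⁻¹, inv_pos.2 hp, fun _ => inv_mul_cancel₀ hp.ne'⟩
    · exact ⟨1, one_pos, fun h => absurd h h1⟩
  let B : X →ₗ[ℝ] X →ₗ[ℝ] ℝ := LinearMap.mk₂ ℝ (fun x y => k * b (π x) (π y))
    (fun x x' y => by rw [map_add, map_add, ContinuousLinearMap.add_apply]; ring)
    (fun c x y => by
      rw [map_smul, map_smul, ContinuousLinearMap.smul_apply, smul_eq_mul, smul_eq_mul]; ring)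
    (fun x y y' => by rw [map_add, map_add]; ring)
    (fun c x y => by rw [map_smul, map_smul, smul_eq_mul, smul_eq_mul]; ring)
  have hB : ∀ x y, B x y = k * b (π x) (π y) := fun x y => rfl
  refine ⟨B, fun x y => by rw [hB, hB, hbs], fun x => ?_, fun x hx hx0 => ?_,
    fun g hg x hx y hy => ?_, ?_, fun h => by rw [hB]; exact hk1 h⟩
  · rw [hB]
    by_cases h : π x = 0
    · rw [h, map_zero, mul_zero]
    · exact (mul_pos hk (hbp _ h)).le
  · rw [hB]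
    refine mul_pos hk (hbp _ ?_)
    rw [hπ' x hx]
    intro h
    exact hx0 (congrArg Subtype.val h)
  · rw [hB, hB]
    let A : VF F Φ →L[ℝ] VF F Φ := ((cj g F).comp (VF F Φ).subtypeL).codRestrict (VF F Φ)
      (fun v => mem_VF F hg (v : X))
    have hA : ∀ v : VF F Φ, ((A v : VF F Φ) : X) = cj g F (v : X) := fun v => rfl
    have hBA : Bq A := by
      obtain ⟨C, hC⟩ := mem_gg.1 (gg_cj hFg g)
      refine ⟨C, fun s => ?_⟩
      refine ContinuousLinearMap.opNorm_le_bound _ ((norm_nonneg _).trans (hC s)) fun v => ?_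
      have e : ((((1 : VF F Φ →L[ℝ] VF F Φ) + s • A) v : VF F Φ) : X) =
          (1 + s • cj g F : X →L[ℝ] X) (v : X) := rfl
      show ‖((((1 : VF F Φ →L[ℝ] VF F Φ) + s • A) v : VF F Φ) : X)‖ ≤ _ * ‖(v : X)‖
      rw [e]
      exact (ContinuousLinearMap.le_opNorm _ _).trans
        (mul_le_mul_of_nonneg_right (hC s) (norm_nonneg _))
    have h1 := skew_of_inv hbi hBA ⟨x, hx⟩ ⟨y, hy⟩
    have e1 : π (cj g F x) = A ⟨x, hx⟩ := hπ' _ (mem_VF F hg x)
    have e2 : π (cj g F y) = A ⟨y, hy⟩ := hπ' _ (mem_VF F hg y)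
    rw [e1, e2, hπ' x hx, hπ' y hy, h1]
    ring
  · refine ⟨k * ‖b‖, by positivity, fun x hx => ?_⟩
    rw [hB, hπ' x hx]
    have h1 := b.le_opNorm₂ (⟨x, hx⟩ : VF F Φ) ⟨x, hx⟩
    have h2 : b (⟨x, hx⟩ : VF F Φ) ⟨x, hx⟩ ≤ ‖b‖ * ‖x‖ * ‖x‖ := (le_abs_self _).trans h1
    calc k * b (⟨x, hx⟩ : VF F Φ) ⟨x, hx⟩ ≤ k * (‖b‖ * ‖x‖ * ‖x‖) :=
          mul_le_mul_of_nonneg_left h2 hk.le
      _ = _ := by ring

/-- growth of a conjugate in the norm of the form -/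
lemma form_growth {F : X →L[ℝ] X} {Φ : Finset (X ≃ₗᵢ[ℝ] X)} {B : X →ₗ[ℝ] X →ₗ[ℝ] ℝ}
    (hs : ∀ x y, B x y = B y x) (hp : ∀ x, 0 ≤ B x x)
    (hpos : ∀ x ∈ VF F Φ, x ≠ 0 → 0 < B x x)
    {C : ℝ} (hC0 : 0 ≤ C) (hC : ∀ x ∈ VF F Φ, B x x ≤ C * ‖x‖ ^ 2) {g : X ≃ₗᵢ[ℝ] X} (hg : g ∈ Φ)
    (hskew : ∀ x ∈ VF F Φ, ∀ y ∈ VF F Φ, B (cj g F x) y = - B x (cj g F y))
    {x : X} (hx : x ∈ VF F Φ) : B (cj g F x) (cj g F x) ≤ ‖F‖ ^ 2 * B x x := by
  by_cases hx0 : x = 0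
  · rw [hx0]; simp
  have hBx : 0 < B x x := hpos x hx hx0
  set D := cj g F with hD
  have hDV : ∀ y, D y ∈ VF F Φ := fun y => mem_VF F hg y
  let s : ℕ → ℝ := fun k => B ((D ^ k) x) ((D ^ k) x)
  have hmem : ∀ k, (D ^ k) x ∈ VF F Φ := by
    intro k
    cases k with
    | zero => exact hx
    | succ k => rw [pow_succ']; exact hDV _
  have hsucc : ∀ k, (D ^ (k + 1)) x = D ((D ^ k) x) := fun k => by rw [pow_succ']; rfl
  have hs0 : s 0 = B x x := rfl
  have hs1 : s 1 = B (D x) (D x) := by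
    show B ((D ^ 1) x) ((D ^ 1) x) = _
    rw [pow_one]
  have hlog : ∀ k, s (k + 1) ^ 2 ≤ s k * s (k + 2) := by
    intro k
    have e : s (k + 1) = - B ((D ^ k) x) ((D ^ (k + 2)) x) := by
      show B ((D ^ (k + 1)) x) ((D ^ (k + 1)) x) = _
      rw [hsucc (k + 1)]
      conv_lhs => rw [hsucc k]
      rw [hskew _ (hmem k) _ (hDV _), hsucc k]
    rw [e, neg_sq]
    exact cs hs hp _ _
  by_cases h1 : s 1 = 0
  · rw [← hs1, h1]; positivity
  have h1p : 0 < s 1 := lt_of_le_of_ne (hp _) (Ne.symm h1)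
  have hr : 0 < s 1 / s 0 := div_pos h1p hBx
  have hind : ∀ k, 0 < s k ∧ s 1 / s 0 * s k ≤ s (k + 1) := by
    intro k
    induction k with
    | zero =>
      refine ⟨hBx, ?_⟩
      have h0 : s 0 ≠ 0 := hBx.ne'
      rw [div_mul_cancel₀ _ h0]
    | succ k ih =>
      obtain ⟨ih1, ih2⟩ := ih
      have h2 : 0 < s (k + 1) := lt_of_lt_of_le (mul_pos hr ih1) ih2
      refine ⟨h2, ?_⟩
      have h3 := hlog k
      have h4 : s 1 / s 0 * s k * s (k + 1) ≤ s (k + 1) ^ 2 := by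
        rw [sq]; exact mul_le_mul_of_nonneg_right ih2 h2.le
      have h5 : s k * (s 1 / s 0 * s (k + 1)) ≤ s k * s (k + 2) := by nlinarith
      exact le_of_mul_le_mul_left h5 ih1
  have hpow : ∀ k, (s 1 / s 0) ^ k * s 0 ≤ s k := by
    intro k
    induction k with
    | zero => rw [pow_zero, one_mul]
    | succ k ih =>
      calc (s 1 / s 0) ^ (k + 1) * s 0 = s 1 / s 0 * ((s 1 / s 0) ^ k * s 0) := by ring
        _ ≤ s 1 / s 0 * s k := mul_le_mul_of_nonneg_left ih hr.le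
        _ ≤ s (k + 1) := (hind k).2
  have hup : ∀ k, s k ≤ C * ‖x‖ ^ 2 * (‖F‖ ^ 2) ^ k := by
    intro k
    refine (hC _ (hmem k)).trans ?_
    have h2 : ‖(D ^ k) x‖ ≤ ‖F‖ ^ k * ‖x‖ := by
      induction k with
      | zero => simp
      | succ k ih =>
        rw [hsucc]
        refine (D.le_opNorm _).trans ?_
        rw [hD, norm_cj, ← hD, pow_succ', mul_assoc]
        exact mul_le_mul_of_nonneg_left ih (norm_nonneg _)
    have h3 : ‖(D ^ k) x‖ ^ 2 ≤ (‖F‖ ^ k * ‖x‖) ^ 2 := pow_le_pow_left₀ (norm_nonneg _) h2 2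
    calc C * ‖(D ^ k) x‖ ^ 2 ≤ C * (‖F‖ ^ k * ‖x‖) ^ 2 := mul_le_mul_of_nonneg_left h3 hC0
      _ = _ := by rw [mul_pow, ← pow_mul, ← pow_mul, mul_comm k 2]; ring
  have hfin : s 1 / s 0 ≤ ‖F‖ ^ 2 := by
    refine Pool.Agent.TH596.RO.pow_cmp (C := C * ‖x‖ ^ 2 / s 0) hr.le (sq_nonneg _) fun n => ?_
    have := (hpow n).trans (hup n)
    rw [div_mul_eq_mul_div, le_div_iff₀ (show 0 < s 0 from hBx)]
    exact this
  have hfin' : s 1 ≤ ‖F‖ ^ 2 * s 0 := (div_le_iff₀ (show 0 < s 0 from hBx)).1 hfin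
  exact hfin'

variable [CompleteSpace X]

/-- **transitive norm and a generator of finite rank: the norm is Euclidean** -/
theorem form_step [Nontrivial X] (hX : ¬ FiniteDimensional ℝ X)
    (htr : ∀ x y : X, ‖x‖ = 1 → ‖y‖ = 1 → ∃ g : X ≃ₗᵢ[ℝ] X, g x = y)
    {F : X →L[ℝ] X} (hFg : F ∈ gg X) (hF0 : F ≠ 0) (hFR : FR F) (x y : X) :
    ‖x + y‖ ^ 2 + ‖x - y‖ ^ 2 = 2 * ‖x‖ ^ 2 + 2 * ‖y‖ ^ 2 := by
  classical
  obtain ⟨u, hu⟩ : ∃ u, F u ≠ 0 := by
    by_contra hcon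
    push Not at hcon
    exact hF0 (ContinuousLinearMap.ext hcon)
  choose B hBs hBp hBpos hBskew hBC hB1 using exists_form hFg hFR u hu
  -- every vector is in the range of a conjugate
  have hran : ∀ x : X, ∃ g : X ≃ₗᵢ[ℝ] X, ∃ y, cj g F y = x := by
    intro x
    by_cases hx : x = 0
    · exact ⟨1, 0, by rw [map_zero, hx]⟩
    have hx' : ‖x‖ ≠ 0 := norm_ne_zero_iff.2 hx
    have hu' : ‖F u‖ ≠ 0 := norm_ne_zero_iff.2 hu
    obtain ⟨g, hg⟩ := htr (‖F u‖⁻¹ • F u) (‖x‖⁻¹ • x)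
      (by rw [norm_smul, norm_inv, norm_norm, inv_mul_cancel₀ hu'])
      (by rw [norm_smul, norm_inv, norm_norm, inv_mul_cancel₀ hx'])
    refine ⟨g, (‖x‖ * ‖F u‖⁻¹) • g u, ?_⟩
    rw [map_smul, cj_apply, g.symm_apply_apply, mul_smul, ← map_smul g, hg, smul_smul,
      mul_inv_cancel₀ hx', one_smul]
  have hev : ∀ x : X, ∀ᶠ Φ in (atTop : Filter (Finset (X ≃ₗᵢ[ℝ] X))), x ∈ VF F Φ := by
    intro x
    obtain ⟨g, y, hy⟩ := hran x
    filter_upwards [eventually_ge_atTop {g}] with Φ hΦ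
    rw [← hy]
    exact mem_VF F (hΦ (Finset.mem_singleton_self g)) y
  have hevg : ∀ g : X ≃ₗᵢ[ℝ] X, ∀ᶠ Φ in (atTop : Filter (Finset (X ≃ₗᵢ[ℝ] X))), g ∈ Φ := by
    intro g
    filter_upwards [eventually_ge_atTop {g}] with Φ hΦ
    exact hΦ (Finset.mem_singleton_self g)
  -- the vectors at which the forms are bounded
  let K : Submodule ℝ X :=
    { carrier := {x | ∃ C : ℝ, ∀ᶠ Φ in (atTop : Filter (Finset (X ≃ₗᵢ[ℝ] X))), B Φ x x ≤ C}
      add_mem' := by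
        rintro x y ⟨C, hC⟩ ⟨C', hC'⟩
        refine ⟨2 * C + 2 * C', ?_⟩
        filter_upwards [hC, hC'] with Φ h1 h2
        have h3 := hBp Φ (x - y)
        have e1 : B Φ (x - y) (x - y) = B Φ x x - 2 * B Φ x y + B Φ y y := by
          simp only [map_sub, LinearMap.sub_apply]
          rw [hBs Φ y x]; ring
        have e2 : B Φ (x + y) (x + y) = B Φ x x + 2 * B Φ x y + B Φ y y := by
          simp only [map_add, LinearMap.add_apply]
          rw [hBs Φ y x]; ring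
        rw [e1] at h3
        rw [e2]
        linarith
      zero_mem' := ⟨0, Eventually.of_forall fun Φ => by simp⟩
      smul_mem' := by
        rintro c x ⟨C, hC⟩
        refine ⟨c ^ 2 * C, ?_⟩
        filter_upwards [hC] with Φ h1
        simp only [map_smul, LinearMap.smul_apply, smul_eq_mul]
        calc c * (c * B Φ x x) = c ^ 2 * B Φ x x := by ring
          _ ≤ c ^ 2 * C := mul_le_mul_of_nonneg_left h1 (sq_nonneg _) }
  have hKiv : IV F K := by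
    rintro g v ⟨C, hC⟩
    refine ⟨‖F‖ ^ 2 * C, ?_⟩
    filter_upwards [hC, hevg g, hev v] with Φ h1 h2 h3
    obtain ⟨C', hC'0, hC'⟩ := hBC Φ
    refine (form_growth (hBs Φ) (hBp Φ) (hBpos Φ) hC'0 hC' h2 (hBskew Φ g h2) h3).trans ?_
    exact mul_le_mul_of_nonneg_left h1 (sq_nonneg _)
  have hKu : F u ∈ K := by
    refine ⟨1, ?_⟩
    filter_upwards [hevg 1] with Φ h
    exact (hB1 Φ h).le
  have hKtop : K = ⊤ := irred htr hX hF0 hFR B hBskew hBpos hKiv hKu hu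
  have hK : ∀ x : X, ∃ C : ℝ, ∀ᶠ Φ in (atTop : Filter (Finset (X ≃ₗᵢ[ℝ] X))), B Φ x x ≤ C := by
    intro x
    have : x ∈ K := hKtop ▸ Submodule.mem_top
    exact this
  -- the limit form
  set 𝒰 : Ultrafilter (Finset (X ≃ₗᵢ[ℝ] X)) := Ultrafilter.of atTop with h𝒰
  have h𝒰le : (𝒰 : Filter (Finset (X ≃ₗᵢ[ℝ] X))) ≤ atTop := Ultrafilter.of_le _
  have hlim : ∀ x y : X, ∃ r : ℝ, Tendsto (fun Φ => B Φ x y) 𝒰 (𝓝 r) := by
    intro x y
    obtain ⟨C, hC⟩ := hK x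
    obtain ⟨C', hC'⟩ := hK y
    have hb : ∀ᶠ Φ in (𝒰 : Filter (Finset (X ≃ₗᵢ[ℝ] X))), B Φ x y ∈ Set.Icc (-(C + C')) (C + C') := by
      filter_upwards [h𝒰le hC, h𝒰le hC'] with Φ h1 h2
      have h3 := cs (hBs Φ) (hBp Φ) x y
      have h4 := hBp Φ x
      have h5 := hBp Φ y
      have h6 : B Φ x x * B Φ y y ≤ (C + C') ^ 2 := by nlinarith
      exact abs_le.1 (abs_le_of_sq_le_sq (h3.trans h6) (by linarith))
    obtain ⟨r, -, hr⟩ := isCompact_Icc.ultrafilter_le_nhds (𝒰.map fun Φ => B Φ x y) (by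
      rw [Ultrafilter.coe_map, le_principal_iff]
      exact hb)
    exact ⟨r, hr⟩
  choose β hβ using hlim
  have hβadd : ∀ x x' y, β (x + x') y = β x y + β x' y := fun x x' y =>
    tendsto_nhds_unique (hβ _ _) (((hβ x y).add (hβ x' y)).congr fun Φ => by
      rw [map_add, LinearMap.add_apply])
  have hβsmul : ∀ (c : ℝ) x y, β (c • x) y = c * β x y := fun c x y =>
    tendsto_nhds_unique (hβ _ _) (((hβ x y).const_mul c).congr fun Φ => by
      rw [map_smul, LinearMap.smul_apply, smul_eq_mul])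
  have hβs : ∀ x y, β x y = β y x := fun x y =>
    tendsto_nhds_unique (hβ _ _) ((hβ y x).congr fun Φ => hBs Φ y x)
  have hβskew : ∀ (g : X ≃ₗᵢ[ℝ] X) x y, β (cj g F x) y = - β x (cj g F y) := by
    intro g x y
    refine tendsto_nhds_unique (hβ _ _) ((hβ x (cj g F y)).neg.congr' ?_)
    filter_upwards [h𝒰le (hevg g), h𝒰le (hev x), h𝒰le (hev y)] with Φ h1 h2 h3
    exact (hBskew Φ g h1 x h2 y h3).symm
  have hβ1 : β (F u) (F u) = 1 := by
    refine tendsto_nhds_unique (hβ _ _) (tendsto_const_nhds.congr' ?_)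
    filter_upwards [h𝒰le (hevg 1)] with Φ h1
    exact (hB1 Φ h1).symm
  -- continuity in the second variable
  let βl : X → X →ₗ[ℝ] ℝ := fun x =>
    { toFun := β x
      map_add' := fun y y' => by rw [hβs x, hβadd, hβs y, hβs y']
      map_smul' := fun c y => by rw [hβs x, hβsmul, hβs y]; rfl }
  have hβc : ∀ x, Continuous (βl x) := by
    intro x
    obtain ⟨g, x', hx'⟩ := hran x
    set A := cj g F with hA
    haveI : FiniteDimensional ℝ (LinearMap.range (A : X →ₗ[ℝ] X)) := FR_cj hFR g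
    have h1 : Continuous ((βl x').comp (LinearMap.range (A : X →ₗ[ℝ] X)).subtype) :=
      LinearMap.continuous_of_finiteDimensional _
    have h2 : Continuous fun y : X => (⟨A y, ⟨y, rfl⟩⟩ : LinearMap.range (A : X →ₗ[ℝ] X)) :=
      Continuous.subtype_mk A.continuous _
    have h3 := (h1.comp h2).neg
    have e : (fun y => βl x y) = fun y => -(((βl x').comp
        (LinearMap.range (A : X →ₗ[ℝ] X)).subtype) ⟨A y, ⟨y, rfl⟩⟩) := by
      funext y
      show β x y = - β x' (A y)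
      rw [← hx', hβskew]
    show Continuous fun y => βl x y
    rw [e]
    exact h3
  let βc : X → X →L[ℝ] ℝ := fun x => ⟨βl x, hβc x⟩
  have hβcap : ∀ x y, βc x y = β x y := fun x y => rfl
  let Λ : X →ₗ[ℝ] (X →L[ℝ] ℝ) :=
    { toFun := βc
      map_add' := fun x x' => by ext y; exact hβadd x x' y
      map_smul' := fun c x => by ext y; exact hβsmul c x y }
  have hΛ : Continuous Λ := by
    refine LinearMap.continuous_of_seq_closed_graph Λ fun v x f hv hf => ?_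
    ext y
    have h1 : Tendsto (fun n => (Λ (v n)) y) atTop (𝓝 (f y)) :=
      ((ContinuousLinearMap.apply ℝ ℝ y).continuous.tendsto f).comp hf
    have h2 : Tendsto (fun n => (Λ (v n)) y) atTop (𝓝 (Λ x y)) := by
      have h3 : Tendsto (fun n => βc y (v n)) atTop (𝓝 (βc y x)) :=
        ((βc y).continuous.tendsto x).comp hv
      have e : (fun n => (Λ (v n)) y) = fun n => βc y (v n) := by
        funext n
        exact hβs _ _
      rw [e]
      have e2 : Λ x y = βc y x := hβs _ _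
      rw [e2]
      exact h3
    exact tendsto_nhds_unique h1 h2
  let b0 : X →L[ℝ] X →L[ℝ] ℝ := ⟨Λ, hΛ⟩
  have hb0 : ∀ x y, b0 x y = β x y := fun x y => rfl
  -- the space of all forms for which the conjugates are skew
  let N : Submodule ℝ (X →L[ℝ] X →L[ℝ] ℝ) :=
    { carrier := {c | ∀ (g : X ≃ₗᵢ[ℝ] X) (x y : X), c (cj g F x) y = - c x (cj g F y)}
      add_mem' := by
        intro c c' hc hc' g x y
        rw [ContinuousLinearMap.add_apply, ContinuousLinearMap.add_apply, hc, hc',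
          ContinuousLinearMap.add_apply, ContinuousLinearMap.add_apply]
        ring
      zero_mem' := by intro g x y; simp
      smul_mem' := by
        intro r c hc g x y
        rw [ContinuousLinearMap.smul_apply, ContinuousLinearMap.smul_apply, hc,
          ContinuousLinearMap.smul_apply, ContinuousLinearMap.smul_apply, smul_neg] }
  have hN : ∀ T ∈ (⊤ : Subgroup (X ≃ₗᵢ[ℝ] X)), ∀ c ∈ N, bl T c ∈ N := by
    intro T _ c hc g x y
    rw [bl_apply, bl_apply]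
    have key : ∀ z : X, T.symm (cj g F z) = cj (T⁻¹ * g) F (T.symm z) := by
      intro z
      rw [cj_mul, cj_apply, cj_apply]
      show T.symm (g (F (g.symm z))) = T.symm (g (F (g.symm (T (T.symm z)))))
      rw [T.apply_symm_apply]
    rw [key, key]
    exact hc _ _ _
  have hAT : AT (⊤ : Subgroup (X ≃ₗᵢ[ℝ] X)) := by
    intro x y hx hy ε hε
    obtain ⟨g, hg⟩ := htr x y hx hy
    exact ⟨g, Subgroup.mem_top _, by rw [hg, sub_self, norm_zero]; exact hε⟩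
  haveI : FiniteDimensional ℝ (LinearMap.range (F : X →ₗ[ℝ] X)) := hFR
  let Fr : X →L[ℝ] LinearMap.range (F : X →ₗ[ℝ] X) := F.codRestrict _ fun x => ⟨x, rfl⟩
  let ρ : ((LinearMap.range (F : X →ₗ[ℝ] X)) →L[ℝ] ℝ) →ₗ[ℝ] (X →L[ℝ] ℝ) :=
    { toFun := fun φ => φ.comp Fr
      map_add' := fun φ ψ => rfl
      map_smul' := fun c φ => rfl }
  haveI : FiniteDimensional ℝ (LinearMap.range ρ) := inferInstance
  refine Pool.Agent.TH596.RO.forms_par_pt hX hAT hN hu (W := LinearMap.range ρ) inferInstance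
    (fun c hc => ?_) (b0 := b0) (fun g x y => hβskew g x y) (x0 := F u) (by
      rw [hb0, hβ1]; exact one_ne_zero) x y
  refine ⟨-((c u).comp (LinearMap.range (F : X →ₗ[ℝ] X)).subtypeL), ?_⟩
  ext y
  have h1 := hc 1 u y
  rw [cj_one] at h1
  rw [h1]
  rfl

end

end Pool.Agent.V5helper96.BM
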