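import Pool.Agent.H590R3.AbParti

/-!
# Bumps near `θ = 0` with summable cosine coefficients
-/

set_option autoImplicit false

namespace Pool.Agent.V5helper96.BM

open Pool.H590R3.Ab Pool.Agent.H984R3.AbPartiOf

/-- the bump: `1` for `|u| ≤ 1/2`, `0` for `|u| ≥ 1` -/
noncomputable def bb : ContDiffBump (0 : ℝ) := ⟨1 / 2, 1, by norm_num, by norm_num⟩

lemma bb_one {u : ℝ} (h : |u| ≤ 1 / 2) : bb u = 1 := by
  apply ContDiffBump.one_of_mem_closedBall
  rw [mem_closedBall_zero_iff, Real.norm_eq_abs]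
  exact h

lemma bb_zero {u : ℝ} (h : 1 ≤ |u|) : bb u = 0 := by
  apply ContDiffBump.zero_of_le_dist
  rw [dist_zero_right, Real.norm_eq_abs]
  exact h

lemma bb_smooth : ContDiff ℝ 2 (fun u : ℝ => bb u) := ContDiffBump.contDiff bb

/-- the bump on the circle -/
noncomputable def hb (δ : ℝ) (θ : ℝ) : ℝ := bb ((Real.cos θ - 1) / δ)

lemma hb_cont (δ : ℝ) : Continuous (hb δ) :=
  bb_smooth.continuous.comp ((Real.continuous_cos.sub continuous_const).div_const _)

lemma hb_even (δ θ : ℝ) : hb δ (-θ) = hb δ θ := by unfold hb; rw [Real.cos_neg]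

lemma hb_per (δ θ : ℝ) : hb δ (θ + 2 * Real.pi) = hb δ θ := by unfold hb; rw [Real.cos_add_two_pi]

lemma dec : Dec_stmt := Pool.Agent.H663R4.AB.dec2 Pool.Agent.H343R3.Ab.dec1

/-- a family of bumps near `1`, in terms of their coefficients -/
theorem bumps : ∃ a : ℕ → ℤ → ℝ,
    (∀ n, Summable fun k => |a n k|) ∧
    (∀ n, ∑' k, a n k = 1) ∧
    (∀ m n, m < n → ∀ l : ℤ, ∑' k : ℤ, a m k * a n (l - k) = a n l) ∧
    (∀ ε : ℝ, 0 < ε → ∃ n0 : ℕ, ∀ n, n0 ≤ n →
      ∑' k : ℤ, |(a n (k - 1) + a n (k + 1)) / 2 - a n k| ≤ ε) := by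
  have hs := dec (fun u => bb u) bb_smooth (fun u hu => bb_zero hu)
  have hG : ContDiff ℝ 2 (fun u : ℝ => u * bb u) := contDiff_id.mul bb_smooth
  have hG0 : ∀ u : ℝ, 1 ≤ |u| → u * bb u = 0 := fun u hu => by rw [bb_zero hu, mul_zero]
  have hs2 := (dec (fun u => u * bb u) hG hG0).2
  set d : ℕ → ℝ := fun n => (1 / 2) ^ n with hd
  have hd0 : ∀ n, 0 < d n := fun n => by positivity
  have hd1 : ∀ n, d n ≤ 1 := fun n => pow_le_one₀ (by norm_num) (by norm_num)
  have hsum : ∀ n, Summable fun k : ℤ => |ca (hb (d n)) k| := fun n => hs.1 (d n) (hd0 n) (hd1 n) 1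
  refine ⟨fun n => ca (hb (d n)), hsum, ?_, ?_, ?_⟩
  · intro n
    have h := series (hb (d n)) (hb_cont _) (hb_even _) (hb_per _) (hsum n) 0
    have h1 : hb (d n) 0 = 1 := by
      unfold hb
      rw [Real.cos_zero, sub_self, zero_div]
      exact bb_one (by norm_num)
    rw [h1] at h
    have h2 : (fun k : ℤ => ca (hb (d n)) k * Real.cos (k * 0)) = fun k : ℤ => ca (hb (d n)) k := by
      funext k
      rw [mul_zero, Real.cos_zero, mul_one]
    rw [h2] at h
    exact h.tsum_eq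
  · intro m n hmn l
    rw [prod series (hb (d m)) (hb (d n)) (hb_cont _) (hb_cont _) (hb_even _) (hb_per _)
      (hb_even _) (hb_per _) (hsum m) (hsum n) l]
    congr 1
    funext θ
    by_cases h : 1 ≤ |(Real.cos θ - 1) / d n|
    · unfold hb
      rw [bb_zero h, mul_zero]
    · push Not at h
      have h2 : d n ≤ d m / 2 := by
        have : d n ≤ d (m + 1) := pow_le_pow_of_le_one (by norm_num) (by norm_num) hmn
        have e : d (m + 1) = d m / 2 := by simp only [hd, pow_succ]; ring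
        rwa [e] at this
      have h3 : |(Real.cos θ - 1) / d m| ≤ 1 / 2 := by
        rw [abs_div, abs_of_pos (hd0 n), div_lt_one (hd0 n)] at h
        rw [abs_div, abs_of_pos (hd0 m), div_le_iff₀ (hd0 m)]
        linarith
      have h4 : hb (d m) θ = 1 := bb_one h3
      rw [h4, one_mul]
  · intro ε hε
    obtain ⟨δ0, hδ0, h⟩ := hs2 ε hε
    obtain ⟨n0, hn0⟩ := exists_pow_lt_of_lt_one hδ0 (by norm_num : (1 / 2 : ℝ) < 1)
    refine ⟨n0, fun n hn => ?_⟩
    have h1 : d n < δ0 := lt_of_le_of_lt (pow_le_pow_of_le_one (by norm_num) (by norm_num) hn) hn0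
    refine le_trans (le_of_eq ?_) (h (d n) (hd0 n) h1 (hd1 n) 1)
    congr 1
    funext k
    congr 1
    rw [← ca_cos_mul (hb_cont _), ← ca_sub (F := fun θ => Real.cos θ * hb (d n) θ)
      (Real.continuous_cos.mul (hb_cont _)) (hb_cont _)]
    congr 1
    funext θ
    unfold hb
    have : (d n) ≠ 0 := (hd0 n).ne'
    field_simp

end Pool.Agent.V5helper96.BM
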