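import Pool.Agent.V5helper96.BM.Wid

/-!
# Almost isometries with bounded approximation numbers
-/

set_option autoImplicit false

namespace Pool.Agent.V5helper96.BM

open Filter Topology Metric
open scoped ENNReal
open Pool.H590R3.Ab (op op_apply op_mul op_one op_norm_le)
open Pool.Agent.R287.UP
open Pool.Agent.TH596.RO (cj AT DD)

section
variable {E : Type*} [NormedAddCommGroup E] [NormedSpace ℝ E]

lemma BF.sub {F : Type*} [NormedAddCommGroup F] {x y : ℕ → F} (hx : BF x) (hy : BF y) :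
    BF (fun i => x i - y i) := by
  obtain ⟨C, hC⟩ := hx
  obtain ⟨C', hC'⟩ := hy
  exact ⟨C + C', fun i => (norm_sub_le _ _).trans (add_le_add (hC i) (hC' i))⟩

lemma cl_sub {x y : ℕ → E} (hx : BF x) (hy : BF y) :
    cl (fun i => x i - y i) (hx.sub hy) = cl x hx - cl y hy := by
  rw [eq_sub_iff_add_eq, ← cl_add]
  congr 1
  funext i
  exact sub_add_cancel _ _

/-- **almost isometries**: bounded approximation numbers and large displacement -/
theorem parallelogram_of_widths [CompleteSpace E] (hE : ¬ FiniteDimensional ℝ E)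
    (hAT : ∀ x y : E, ‖x‖ = 1 → ‖y‖ = 1 → ∀ ε : ℝ, 0 < ε →
      ∃ T : E ≃L[ℝ] E, AI ε T ∧ ‖T x - y‖ < ε)
    (m : ℕ → ℕ) {δ : ℝ} (hδ : 0 < δ) (T : ℕ → E ≃L[ℝ] E)
    (hTI : ∀ n : ℕ, AI (1 / ((n : ℝ) + 1)) (T n))
    (hTδ : ∀ n, δ ≤ ‖((T n : E ≃L[ℝ] E) : E →L[ℝ] E) - 1‖)
    (hTw : ∀ n j : ℕ, 1 ≤ j → j ≤ n →
      Wd (m j) (1 / (j : ℝ)) (((T n : E ≃L[ℝ] E) : E →L[ℝ] E) - 1)) (x y : E) :
    ‖x + y‖ ^ 2 + ‖x - y‖ ^ 2 = 2 * ‖x‖ ^ 2 + 2 * ‖y‖ ^ 2 := by
  classical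
  have hnt : Nontrivial E := by
    by_contra hc
    rw [not_nontrivial_iff_subsingleton] at hc
    exact hE inferInstance
  obtain ⟨e, he⟩ := exists_norm_eq E zero_le_one
  set S := twa T (fun i => 1 / ((i : ℝ) + 1)) inv_le_one' tendsto_one_div_add_atTop_nhds_zero_nat
    hTI with hS
  have hb2 : ∀ n (z : E), ‖T n z - z‖ ≤ 3 * ‖z‖ := by
    intro n z
    have h1 := (hTI n z).1
    have h2 := inv_le_one' n
    have h3 := norm_sub_le (T n z) z
    nlinarith [norm_nonneg z]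
  -- the isometry of the ultrapower is a compact perturbation of the identity
  have hK : op S - 1 ∈ KK (UX E) := by
    refine KK_of_approx fun ε hε => ?_
    obtain ⟨j, hj⟩ := exists_nat_gt (2 / ε)
    have hj0 : 0 < (j : ℝ) := lt_of_le_of_lt (by positivity) hj
    have hj1 : 1 ≤ j := Nat.cast_pos.1 hj0
    have hjε : 1 / (j : ℝ) * 2 ≤ ε := by
      rw [div_lt_iff₀ hε] at hj
      rw [one_div, ← div_eq_inv_mul, div_le_iff₀ hj0]
      linarith
    have hF : ∀ n : ℕ, ∃ F : Submodule ℝ E, j ≤ n → FiniteDimensional ℝ F ∧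
        Module.finrank ℝ F ≤ m j ∧ ∀ x : E, ∃ y ∈ F, ‖T n x - x - y‖ ≤ 1 / (j : ℝ) * ‖x‖ := by
      intro n
      by_cases h : j ≤ n
      · obtain ⟨F, h1, h2, h3⟩ := hTw n j hj1 h
        exact ⟨F, fun _ => ⟨h1, h2, h3⟩⟩
      · exact ⟨⊥, fun h' => absurd h' h⟩
    choose F hF using hF
    have hev : ∀ᶠ n in (hyperfilter ℕ : Filter ℕ), j ≤ n := hyp_le (eventually_ge_atTop j)
    have hfd : FiniteDimensional ℝ (WL F) := WL_fd (m := m j) (by
      filter_upwards [hev] with n hn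
      exact ⟨(hF n hn).1, (hF n hn).2.1⟩)
    refine ⟨WL F, hfd, fun u hu => ?_⟩
    obtain ⟨z, hz, rfl⟩ := exists_cl u
    have hy : ∀ n, ∃ y : E, ‖T n (z n) - z n - y‖ ≤ 3 * ‖z n‖ ∧
        (j ≤ n → y ∈ F n ∧ ‖T n (z n) - z n - y‖ ≤ 1 / (j : ℝ) * ‖z n‖) := by
      intro n
      by_cases h : j ≤ n
      · obtain ⟨y, hy1, hy2⟩ := (hF n h).2.2 (z n)
        refine ⟨y, hy2.trans ?_, fun _ => ⟨hy1, hy2⟩⟩
        have h3 : 1 / (j : ℝ) ≤ 3 := by
          rw [div_le_iff₀ hj0]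
          have : (1 : ℝ) ≤ j := by exact_mod_cast hj1
          linarith
        exact mul_le_mul_of_nonneg_right h3 (norm_nonneg _)
      · exact ⟨0, by rw [sub_zero]; exact hb2 n (z n), fun h' => absurd h' h⟩
    choose y hy1 hy2 using hy
    have hyb : BF y := by
      obtain ⟨C, hC⟩ := hz
      refine ⟨3 * C + 3 * C, fun n => ?_⟩
      have h3 : y n = (T n (z n) - z n) - (T n (z n) - z n - y n) := by abel
      rw [h3]
      refine (norm_sub_le _ _).trans (add_le_add ?_ ?_)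
      · exact (hb2 n _).trans (by linarith [hC n])
      · exact (hy1 n).trans (by linarith [hC n])
    refine ⟨cl y hyb, ⟨y, hyb, ?_, rfl⟩, ?_⟩
    · filter_upwards [hev] with n hn
      exact (hy2 n hn).1
    · have hTz : BF (fun n => T n (z n)) := (BF_AI inv_le_one' hTI).app hz
      have e1 : (op S - 1) (cl z hz) - cl y hyb =
          cl (fun n => T n (z n) - z n - y n) ((hTz.sub hz).sub hyb) := by
        rw [cl_sub (hTz.sub hz) hyb, cl_sub hTz hz]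
        rfl
      rw [e1]
      refine cl_norm_le _ ?_
      have h1 : ∀ᶠ n in (hyperfilter ℕ : Filter ℕ), ‖z n‖ < 2 :=
        (cl_norm hz).eventually_lt_const (by linarith)
      filter_upwards [hev, h1] with n hn hn2
      refine ((hy2 n hn).2).trans (le_trans ?_ hjε)
      exact mul_le_mul_of_nonneg_left hn2.le (by positivity)
  -- it is not the identity
  have hS1 : S ≠ 1 := by
    intro hcon
    have h1 : ∀ n, ∃ z : E, ‖z‖ ≤ 1 ∧ δ / 2 ≤ ‖T n z - z‖ := by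
      intro n
      by_contra hc
      push Not at hc
      have h2 : ‖((T n : E ≃L[ℝ] E) : E →L[ℝ] E) - 1‖ ≤ δ / 2 := by
        refine ContinuousLinearMap.opNorm_le_of_unit_norm (by positivity) fun z hz => ?_
        exact (hc z hz.le).le
      have := hTδ n
      linarith
    choose z hz1 hz2 using h1
    have hz : BF z := ⟨1, hz1⟩
    have h2 : S (cl z hz) = cl z hz := by rw [hcon]; rfl
    rw [hS, twa_cl, cl_eq] at h2
    have h3 : ∀ᶠ n in (hyperfilter ℕ : Filter ℕ), ‖T n (z n) - z n‖ < δ / 2 :=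
      h2.eventually_lt_const (by positivity)
    obtain ⟨n, hn⟩ := h3.exists
    exact absurd (hz2 n) (not_le.2 hn)
  have hATX : AT (⊤ : Subgroup (UX E ≃ₗᵢ[ℝ] UX E)) := by
    intro u v hu hv ε hε
    obtain ⟨g, hg⟩ := UX_transitive' hAT he u v hu hv
    refine ⟨g, Subgroup.mem_top _, ?_⟩
    rw [hg, sub_self, norm_zero]
    exact hε
  have h := parallelogram_of_compact (UX_infinite hE) hATX S hK hS1 (dia x) (dia y)
  rwa [← map_add, ← map_sub, (dia (E := E)).norm_map, (dia (E := E)).norm_map,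
    (dia (E := E)).norm_map, (dia (E := E)).norm_map] at h

/-! ### Powers -/

lemma pow_lower (T : E ≃ₗᵢ[ℝ] E) (q : ℕ) (h : ∀ i < q, ‖op (T ^ i) - 1‖ ≤ 1 / 4) :
    3 / 4 * q * ‖op T - 1‖ ≤ ‖op (T ^ q) - 1‖ := by
  have key : ∀ q : ℕ, (∀ i < q, ‖op (T ^ i) - 1‖ ≤ 1 / 4) →
      ‖op (T ^ q) - 1 - q • (op T - 1)‖ ≤ q / 4 * ‖op T - 1‖ := by
    intro q
    induction q with
    | zero => intro _; rw [pow_zero, op_one]; simp
    | succ q ih =>
      intro hq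
      have h1 := ih fun i hi => hq i (hi.trans (Nat.lt_succ_self q))
      have h2 := hq q (Nat.lt_succ_self q)
      have e : op (T ^ (q + 1)) - 1 - (q + 1) • (op T - 1) =
          (op (T ^ q) - 1 - q • (op T - 1)) + (op (T ^ q) - 1) * (op T - 1) := by
        rw [pow_succ, op_mul, succ_nsmul]
        noncomm_ring
      rw [e]
      refine (norm_add_le _ _).trans ?_
      have h3 : ‖(op (T ^ q) - 1) * (op T - 1)‖ ≤ 1 / 4 * ‖op T - 1‖ :=
        (norm_mul_le _ _).trans (mul_le_mul_of_nonneg_right h2 (norm_nonneg _))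
      push_cast
      linarith
  have h1 := key q h
  have h2 : ‖q • (op T - 1)‖ = q * ‖op T - 1‖ := by
    rw [← Nat.cast_smul_eq_nsmul ℝ, norm_smul, Real.norm_of_nonneg (Nat.cast_nonneg q)]
  have e : q • (op T - 1) = (op (T ^ q) - 1) - (op (T ^ q) - 1 - q • (op T - 1)) := by abel
  have h3 := norm_sub_le (op (T ^ q) - 1) (op (T ^ q) - 1 - q • (op T - 1))
  rw [← e, h2] at h3
  linarith

lemma op_sub_one_le (T : E ≃ₗᵢ[ℝ] E) : ‖op T - 1‖ ≤ 2 := by
  refine (norm_sub_le _ _).trans ?_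
  have := op_norm_le T
  have := norm_one_le (E := E)
  linarith

lemma exists_power (T : E ≃ₗᵢ[ℝ] E) (hT : 0 < ‖op T - 1‖) :
    ∃ p : ℕ, 1 / 4 ≤ ‖op (T ^ p) - 1‖ ∧ (p : ℝ) * ‖op T - 1‖ ≤ 3 := by
  classical
  have hex : ∃ p : ℕ, 1 / 4 ≤ ‖op (T ^ p) - 1‖ := by
    by_contra hcon
    push Not at hcon
    obtain ⟨q, hq⟩ := exists_nat_gt (1 / ‖op T - 1‖)
    rw [div_lt_iff₀ hT] at hq
    have h1 := pow_lower T q fun i _ => (hcon i).le
    have h2 := hcon q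
    nlinarith
  have h1 := Nat.find_spec hex
  have h2 := pow_lower T (Nat.find hex) fun i hi => (not_le.1 (Nat.find_min hex hi)).le
  refine ⟨Nat.find hex, h1, ?_⟩
  have h3 := op_sub_one_le (T ^ Nat.find hex)
  linarith

lemma pow_factor (T : E ≃ₗᵢ[ℝ] E) (p : ℕ) : ∃ S : E →L[ℝ] E, ‖S‖ ≤ p ∧
    op (T ^ p) - 1 = (op T - 1) * S := by
  induction p with
  | zero => exact ⟨0, by simp, by rw [pow_zero, op_one]; simp⟩
  | succ p ih =>
    obtain ⟨S, hS, hS2⟩ := ih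
    refine ⟨S + op (T ^ p), ?_, ?_⟩
    · push_cast
      exact (norm_add_le _ _).trans (add_le_add hS (op_norm_le _))
    · rw [mul_add, ← hS2, pow_succ', op_mul]
      noncomm_ring

lemma Wd_pow {T : E ≃ₗᵢ[ℝ] E} {m : ℕ} {c : ℝ} (hc : 0 ≤ c) (h : Wd m c (op T - 1)) (p : ℕ) :
    Wd m (p * c) (op (T ^ p) - 1) := by
  obtain ⟨F, h1, h2, h3⟩ := h
  obtain ⟨S, hS, hS2⟩ := pow_factor T p
  refine ⟨F, h1, h2, fun x => ?_⟩
  obtain ⟨y, hy, hy2⟩ := h3 (S x)
  refine ⟨y, hy, ?_⟩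
  rw [hS2]
  refine hy2.trans ?_
  have h4 : ‖S x‖ ≤ p * ‖x‖ :=
    (S.le_opNorm x).trans (mul_le_mul_of_nonneg_right hS (norm_nonneg _))
  calc c * ‖S x‖ ≤ c * (p * ‖x‖) := mul_le_mul_of_nonneg_left h4 hc
    _ = p * c * ‖x‖ := by ring

lemma Wd.mono {m : ℕ} {c c' : ℝ} {a : E →L[ℝ] E} (h : Wd m c a) (hc : c ≤ c') : Wd m c' a := by
  obtain ⟨F, h1, h2, h3⟩ := h
  refine ⟨F, h1, h2, fun x => ?_⟩
  obtain ⟨y, hy, hy2⟩ := h3 x
  exact ⟨y, hy, hy2.trans (mul_le_mul_of_nonneg_right hc (norm_nonneg _))⟩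

/-- from widths relative to the displacement to isometries with large displacement -/
lemma large_of_relative {m : ℕ → ℕ} (h : ∀ n : ℕ, ∃ T : E ≃ₗᵢ[ℝ] E, 0 < ‖op T - 1‖ ∧
    ∀ j : ℕ, 1 ≤ j → j ≤ n → Wd (m j) (‖op T - 1‖ / j) (op T - 1)) (n : ℕ) :
    ∃ T : E ≃ₗᵢ[ℝ] E, 1 / 4 ≤ ‖op T - 1‖ ∧
      ∀ j : ℕ, 1 ≤ j → j ≤ n → Wd (m (3 * j)) (1 / (j : ℝ)) (op T - 1) := by
  obtain ⟨T, hT, hTw⟩ := h (3 * n)
  obtain ⟨p, hp1, hp2⟩ := exists_power T hT
  refine ⟨T ^ p, hp1, fun j hj hjn => ?_⟩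
  have h1 := hTw (3 * j) (by omega) (by omega)
  have hj0 : (0 : ℝ) < j := by exact_mod_cast hj
  refine (Wd_pow (by positivity) h1 p).mono ?_
  push_cast
  rw [← mul_div_assoc, div_le_div_iff₀ (by positivity) hj0]
  nlinarith

end

end Pool.Agent.V5helper96.BM
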