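import Pool.Agent.V5helper96.BM.Bern

/-!
# Almost isometries with small Bernstein widths
-/

set_option autoImplicit false

namespace Pool.Agent.V5helper96.BM

open Filter Topology Metric
open scoped ENNReal
open Pool.H590R3.Ab (op op_apply op_mul op_one op_norm_le)
open Pool.Agent.R287.UP
open Pool.Agent.TH596.RO (cj AT DD)

section
variable {E : Type*} [NormedAddCommGroup E] [NormedSpace ℝ E]

lemma Bn.mono {m : ℕ} {c c' : ℝ} {a : E →L[ℝ] E} (h : Bn m c a) (hc : c ≤ c') : Bn m c' a := by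
  intro G hG hm
  obtain ⟨x, hx, hx0, hxc⟩ := h G hG hm
  exact ⟨x, hx, hx0, hxc.trans (mul_le_mul_of_nonneg_right hc (norm_nonneg _))⟩

lemma Bn_pow {T : E ≃ₗᵢ[ℝ] E} {m : ℕ} {c : ℝ} (h : Bn m c (op T - 1)) (p : ℕ) :
    Bn m (p * c) (op (T ^ p) - 1) := by
  intro G hG hm
  obtain ⟨x, hx, hx0, hxc⟩ := h G hG hm
  refine ⟨x, hx, hx0, ?_⟩
  have key : ∀ p : ℕ, ‖(T ^ p) x - x‖ ≤ p * ‖T x - x‖ := by
    intro p
    induction p with
    | zero => simp
    | succ p ih =>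
      have e : (T ^ (p + 1)) x - x = (T ^ p) (T x - x) + ((T ^ p) x - x) := by
        rw [pow_succ, map_sub (T ^ p)]
        show (T ^ p) (T x) - _ = _
        abel
      rw [e]
      refine (norm_add_le _ _).trans ?_
      rw [(T ^ p).norm_map]
      push_cast
      linarith
  have h1 : ‖T x - x‖ ≤ c * ‖x‖ := hxc
  show ‖(T ^ p) x - x‖ ≤ p * c * ‖x‖
  calc ‖(T ^ p) x - x‖ ≤ p * ‖T x - x‖ := key p
    _ ≤ p * (c * ‖x‖) := mul_le_mul_of_nonneg_left h1 (Nat.cast_nonneg p)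
    _ = p * c * ‖x‖ := by ring

lemma SS_of_Bn {a : E →L[ℝ] E} (h : ∀ ε : ℝ, 0 < ε → ∃ m, Bn m ε a) : SS a := by
  rintro Y ⟨c, hc, hY⟩
  by_contra hcon
  obtain ⟨m, hm⟩ := h (c / 2) (by positivity)
  have h1 : ((m + 1 : ℕ) : Cardinal) ≤ Module.rank ℝ Y := by
    by_contra h2
    push Not at h2
    exact hcon (Module.rank_lt_aleph0_iff.1 (h2.trans Cardinal.natCast_lt_aleph0))
  obtain ⟨f, hf⟩ := exists_linearIndependent_of_le_rank h1
  have hf' : LinearIndependent ℝ (fun i => (f i : E)) :=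
    hf.map' Y.subtype (Submodule.ker_subtype Y)
  have h3 : Module.finrank ℝ (Submodule.span ℝ (Set.range fun i => (f i : E))) = m + 1 := by
    rw [finrank_span_eq_card hf', Fintype.card_fin]
  have h4 : FiniteDimensional ℝ (Submodule.span ℝ (Set.range fun i => (f i : E))) :=
    FiniteDimensional.span_of_finite ℝ (Set.finite_range _)
  obtain ⟨x, hx, hx0, hxc⟩ := hm _ h4 (by rw [h3]; exact Nat.lt_succ_self m)
  have h5 : x ∈ Y := by
    refine (Submodule.span_le.2 ?_) hx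
    rintro _ ⟨i, rfl⟩
    exact (f i).2
  have h6 := hY x h5
  have h7 : 0 < ‖x‖ := norm_pos_iff.2 hx0
  nlinarith

/-- Bernstein widths pass to the ultrapower -/
lemma Bn_tw {m : ℕ} {c : ℝ} {A : ℕ → E →L[ℝ] E} (hA : BF A)
    (hF : ∀ᶠ i in (hyperfilter ℕ : Filter ℕ), Bn m c (A i)) : Bn m c (tw A hA) := by
  intro G hG hm
  let v := Module.finBasis ℝ G
  have hv : LinearIndependent ℝ (fun i => (v i : UX E)) :=
    v.linearIndependent.map' G.subtype (Submodule.ker_subtype G)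
  obtain ⟨d, hd, hd2⟩ := Bn_limit hA hF (ι := Fin (Module.finrank ℝ G))
    (by rw [Fintype.card_fin]; exact hm) _ hv
  exact ⟨_, Submodule.sum_mem _ fun k _ => G.smul_mem _ (v k).2, hd, hd2⟩

/-- **almost isometries**: uniformly small Bernstein widths and large displacement -/
theorem parallelogram_of_bern [CompleteSpace E] (hE : ¬ FiniteDimensional ℝ E)
    (hAT : ∀ x y : E, ‖x‖ = 1 → ‖y‖ = 1 → ∀ ε : ℝ, 0 < ε →
      ∃ T : E ≃L[ℝ] E, AI ε T ∧ ‖T x - y‖ < ε)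
    (m : ℕ → ℕ) {δ : ℝ} (hδ : 0 < δ) (T : ℕ → E ≃L[ℝ] E)
    (hTI : ∀ n : ℕ, AI (1 / ((n : ℝ) + 1)) (T n))
    (hTδ : ∀ n, δ ≤ ‖((T n : E ≃L[ℝ] E) : E →L[ℝ] E) - 1‖)
    (hTw : ∀ n j : ℕ, 1 ≤ j → j ≤ n →
      Bn (m j) (1 / (j : ℝ)) (((T n : E ≃L[ℝ] E) : E →L[ℝ] E) - 1)) (x y : E) :
    ‖x + y‖ ^ 2 + ‖x - y‖ ^ 2 = 2 * ‖x‖ ^ 2 + 2 * ‖y‖ ^ 2 := by
  classical
  have hnt : Nontrivial E := by
    by_contra hc
    rw [not_nontrivial_iff_subsingleton] at hc
    exact hE inferInstance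
  obtain ⟨e, he⟩ := exists_norm_eq E zero_le_one
  set S := twa T (fun i => 1 / ((i : ℝ) + 1)) inv_le_one' tendsto_one_div_add_atTop_nhds_zero_nat
    hTI with hS
  -- the isometry of the ultrapower is a strictly singular perturbation of the identity
  have hA : BF (fun n => ((T n : E ≃L[ℝ] E) : E →L[ℝ] E) - 1) :=
    (BF_AI inv_le_one' hTI).sub (BF.const 1)
  have hSA : op S - 1 = tw (fun n => ((T n : E ≃L[ℝ] E) : E →L[ℝ] E) - 1) hA := by
    ext u
    obtain ⟨z, hz, rfl⟩ := exists_cl u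
    have hTz : BF (fun n => T n (z n)) := (BF_AI inv_le_one' hTI).app hz
    rw [tw_cl]
    have e1 : (op S - 1) (cl z hz) = cl (fun n => T n (z n)) hTz - cl z hz := rfl
    rw [e1, ← cl_sub hTz hz]
    rfl
  have hSS : SS (op S - 1) := by
    refine SS_of_Bn fun ε hε => ?_
    obtain ⟨j, hj⟩ := exists_nat_gt (1 / ε)
    have hj0 : 0 < (j : ℝ) := lt_of_le_of_lt (by positivity) hj
    have hj1 : 1 ≤ j := Nat.cast_pos.1 hj0
    have hjε : 1 / (j : ℝ) ≤ ε := by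
      rw [div_lt_iff₀ hε] at hj
      rw [div_le_iff₀ hj0]
      linarith
    refine ⟨m j, ?_⟩
    rw [hSA]
    refine (Bn_tw hA ?_).mono hjε
    have hev : ∀ᶠ n in (hyperfilter ℕ : Filter ℕ), j ≤ n := hyp_le (eventually_ge_atTop j)
    filter_upwards [hev] with n hn
    exact hTw n j hj1 hn
  have hK : op S - 1 ∈ KK (UX E) := KK_of_SS hSS
  -- it is not the identity
  have hS1 : S ≠ 1 := by
    intro hcon
    have h1 : ∀ n, ∃ z : E, ‖z‖ ≤ 1 ∧ δ / 2 ≤ ‖T n z - z‖ := by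
      intro n
      by_contra hc
      push Not at hc
      have h2 : ‖((T n : E ≃L[ℝ] E) : E →L[ℝ] E) - 1‖ ≤ δ / 2 := by
        refine ContinuousLinearMap.opNorm_le_of_unit_norm (by positivity) fun z hz => ?_
        exact (hc z hz.le).le
      have := hTδ n
      linarith
    choose z hz1 hz2 using h1
    have hz : BF z := ⟨1, hz1⟩
    have h2 : S (cl z hz) = cl z hz := by rw [hcon]; rfl
    rw [hS, twa_cl, cl_eq] at h2
    have h3 : ∀ᶠ n in (hyperfilter ℕ : Filter ℕ), ‖T n (z n) - z n‖ < δ / 2 :=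
      h2.eventually_lt_const (by positivity)
    obtain ⟨n, hn⟩ := h3.exists
    exact absurd (hz2 n) (not_le.2 hn)
  have hATX : AT (⊤ : Subgroup (UX E ≃ₗᵢ[ℝ] UX E)) := by
    intro u v hu hv ε hε
    obtain ⟨g, hg⟩ := UX_transitive' hAT he u v hu hv
    refine ⟨g, Subgroup.mem_top _, ?_⟩
    rw [hg, sub_self, norm_zero]
    exact hε
  have h := parallelogram_of_compact (UX_infinite hE) hATX S hK hS1 (dia x) (dia y)
  rwa [← map_add, ← map_sub, (dia (E := E)).norm_map, (dia (E := E)).norm_map,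
    (dia (E := E)).norm_map, (dia (E := E)).norm_map] at h

/-- from widths relative to the displacement to isometries with large displacement -/
lemma large_of_relative' {m : ℕ → ℕ} (h : ∀ n : ℕ, ∃ T : E ≃ₗᵢ[ℝ] E, 0 < ‖op T - 1‖ ∧
    ∀ j : ℕ, 1 ≤ j → j ≤ n → Bn (m j) (‖op T - 1‖ / j) (op T - 1)) (n : ℕ) :
    ∃ T : E ≃ₗᵢ[ℝ] E, 1 / 4 ≤ ‖op T - 1‖ ∧
      ∀ j : ℕ, 1 ≤ j → j ≤ n → Bn (m (3 * j)) (1 / (j : ℝ)) (op T - 1) := by
  obtain ⟨T, hT, hTw⟩ := h (3 * n)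
  obtain ⟨p, hp1, hp2⟩ := exists_power T hT
  refine ⟨T ^ p, hp1, fun j hj hjn => ?_⟩
  have h1 := hTw (3 * j) (by omega) (by omega)
  have hj0 : (0 : ℝ) < j := by exact_mod_cast hj
  refine (Bn_pow h1 p).mono ?_
  push_cast
  rw [← mul_div_assoc, div_le_div_iff₀ (by positivity) hj0]
  nlinarith

end

end Pool.Agent.V5helper96.BM
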