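import Pool.Agent.V5helper96.BM.FRank

/-!
# The discrete case is impossible
-/

set_option autoImplicit false

namespace Pool.Agent.V5helper96.BM

open Filter Topology Metric
open Pool.H590R3.Ab (op op_apply op_mul op_one op_norm_le Fop)
open Pool.Agent.TH596.RO (cj AT DD)

section
variable {E : Type*} [NormedAddCommGroup E] [NormedSpace ℝ E]

/-- the compact perturbations of the identity -/
noncomputable def GK (E : Type*) [NormedAddCommGroup E] [NormedSpace ℝ E] :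
    Subgroup (E ≃ₗᵢ[ℝ] E) where
  carrier := {g | op g - 1 ∈ KK E}
  mul_mem' ha hb := KK_op_mul ha hb
  one_mem' := by
    show op (1 : E ≃ₗᵢ[ℝ] E) - 1 ∈ KK E
    rw [op_one, sub_self]; exact Submodule.zero_mem _
  inv_mem' ha := KK_op_inv ha

/-- the sequences of compact perturbations of the identity -/
noncomputable def GS (E : Type*) [NormedAddCommGroup E] [NormedSpace ℝ E] :
    Subgroup (ℕ → E ≃ₗᵢ[ℝ] E) where
  carrier := {r | ∀ k, op (r k) - 1 ∈ KK E}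
  mul_mem' ha hb := fun k => KK_op_mul (ha k) (hb k)
  one_mem' := fun k => (GK E).one_mem
  inv_mem' ha := fun k => KK_op_inv (ha k)

lemma exists_leave [CompleteSpace E] (hAT : AT (⊤ : Subgroup (E ≃ₗᵢ[ℝ] E))) {W : Submodule ℝ E}
    [FiniteDimensional ℝ W] {x z : E} (hx : ‖x‖ = 1) (hxW : x ∈ W) (hz : z ∉ W) {η : ℝ}
    (hη : 0 < η) : ∃ h : E ≃ₗᵢ[ℝ] E, ‖h x - x‖ < η ∧ h x ∉ W := by
  have hcl : IsClosed (W : Set E) := Submodule.closed_of_finiteDimensional W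
  have h0 : Tendsto (fun δ : ℝ => ‖x + δ • z‖⁻¹ • (x + δ • z)) (𝓝[≠] 0) (𝓝 x) := by
    have h1 : Tendsto (fun δ : ℝ => x + δ • z) (𝓝[≠] 0) (𝓝 x) := by
      have : Continuous fun δ : ℝ => x + δ • z := by fun_prop
      have h2 := this.tendsto 0
      simp only [zero_smul, add_zero] at h2
      exact h2.mono_left nhdsWithin_le_nhds
    have h2 := (h1.norm.inv₀ (by rw [hx]; norm_num)).smul h1
    simpa [hx] using h2
  have h1 : ∀ᶠ δ : ℝ in 𝓝[≠] 0, ‖‖x + δ • z‖⁻¹ • (x + δ • z) - x‖ < η / 2 := by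
    have := (tendsto_iff_norm_sub_tendsto_zero.1 h0).eventually_lt_const (half_pos hη)
    exact this
  have h2 : ∀ᶠ δ : ℝ in 𝓝[≠] 0, δ ≠ 0 := eventually_mem_nhdsWithin
  obtain ⟨δ, hδ1, hδ2⟩ := (h1.and h2).exists
  have hne : x + δ • z ∉ W := by
    intro h
    have h3 : δ • z ∈ W := by
      have := W.sub_mem h hxW
      rwa [add_sub_cancel_left] at this
    exact hz ((W.smul_mem_iff hδ2).1 h3)
  have hpos : 0 < ‖x + δ • z‖ := by
    rw [norm_pos_iff]
    intro h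
    exact hne (by rw [h]; exact W.zero_mem)
  set y := ‖x + δ • z‖⁻¹ • (x + δ • z) with hy
  have hy1 : ‖y‖ = 1 := by
    rw [hy, norm_smul, norm_inv, norm_norm, inv_mul_cancel₀ hpos.ne']
  have hyW : y ∉ W := by
    intro h
    exact hne ((W.smul_mem_iff (inv_ne_zero hpos.ne')).1 h)
  obtain ⟨r, hr, hball⟩ := Metric.isOpen_iff.1 hcl.isOpen_compl y hyW
  obtain ⟨h, -, hh⟩ := hAT x y hx hy1 (min r (η / 2)) (lt_min hr (half_pos hη))
  refine ⟨h, ?_, ?_⟩
  · have h3 : ‖h x - x‖ ≤ ‖h x - y‖ + ‖y - x‖ := by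
      have := norm_add_le (h x - y) (y - x)
      rwa [sub_add_sub_cancel] at this
    have := lt_of_lt_of_le hh (min_le_right _ _)
    linarith
  · intro h3
    have h4 : h x ∈ ball y r := by
      rw [mem_ball, dist_eq_norm]
      exact lt_of_lt_of_le hh (min_le_left _ _)
    exact hball h4 h3

/-- **no finite displacement rank in the discrete case** -/
theorem no_FR [CompleteSpace E] (hE : ¬ FiniteDimensional ℝ E)
    (hAT : AT (⊤ : Subgroup (E ≃ₗᵢ[ℝ] E))) {ε : ℝ} (hε : 0 < ε)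
    (hdis : ∀ S : E ≃ₗᵢ[ℝ] E, op S - 1 ∈ KK E → ‖op S - 1‖ < ε → S = 1)
    (S : E ≃ₗᵢ[ℝ] E) (hS : FR (op S - 1)) : S = 1 := by
  classical
  by_contra hS1
  have hSK : op S - 1 ∈ KK E := KK_of_FR hS
  -- finite order
  obtain ⟨n, hn, hSn⟩ : ∃ n, 0 < n ∧ S ^ n = 1 := by
    haveI : Finite (Subgroup.closure (Set.range fun _ : Unit => S)) :=
      fin_group (fun _ : Unit => S) (fun _ => hS) hε fun g hg hlt => hdis g (by
        have h1 : Subgroup.closure (Set.range fun _ : Unit => S) ≤ GK E := by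
          rw [Subgroup.closure_le]
          rintro _ ⟨_, rfl⟩
          exact hSK
        exact h1 hg) hlt
    have h2 := isOfFinOrder_of_finite
      (⟨S, Subgroup.subset_closure ⟨(), rfl⟩⟩ : Subgroup.closure (Set.range fun _ : Unit => S))
    obtain ⟨n, hn, h3⟩ := isOfFinOrder_iff_pow_eq_one.1 h2
    exact ⟨n, hn, congrArg Subtype.val h3⟩
  -- a minimal intersection
  let P : ℕ → Prop := fun d => ∃ Φ : Finset (E ≃ₗᵢ[ℝ] E), Φ.Nonempty ∧ WW n S Φ ≠ ⊥ ∧
    Module.finrank ℝ (WW n S Φ) = d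
  have hP : ∃ d, P d := by
    refine ⟨_, {1}, Finset.singleton_nonempty _, ?_, rfl⟩
    intro h
    apply av_ker_ne_bot hn hSn hS1
    rw [Submodule.eq_bot_iff] at h ⊢
    intro x hx
    refine h x (mem_WW.2 fun g hg => ?_)
    rw [Finset.mem_singleton] at hg
    rw [hg, one_mul, inv_one, mul_one]
    exact hx
  obtain ⟨Φ, hΦ, hW, hd⟩ := Nat.find_spec hP
  have hmin : ∀ Ψ : Finset (E ≃ₗᵢ[ℝ] E), Ψ.Nonempty → WW n S Ψ ≠ ⊥ →
      Module.finrank ℝ (WW n S Φ) ≤ Module.finrank ℝ (WW n S Ψ) := by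
    intro Ψ hΨ hne
    rw [hd]
    exact Nat.find_min' hP ⟨Ψ, hΨ, hne, rfl⟩
  haveI := WW_fd hn hSK hΦ
  obtain ⟨x0, hx0, hx0n⟩ := Submodule.exists_mem_ne_zero_of_ne_bot hW
  have hx0p : 0 < ‖x0‖ := norm_pos_iff.2 hx0n
  set x := ‖x0‖⁻¹ • x0 with hx
  have hx1 : ‖x‖ = 1 := by rw [hx, norm_smul, norm_inv, norm_norm, inv_mul_cancel₀ hx0p.ne']
  have hxW : x ∈ WW n S Φ := Submodule.smul_mem _ _ hx0
  obtain ⟨z0, hz0⟩ : ∃ z, z ∉ WW n S Φ := by
    by_contra hcon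
    push Not at hcon
    apply hE
    have h1 : WW n S Φ = ⊤ := Submodule.eq_top_iff'.2 hcon
    haveI : FiniteDimensional ℝ (⊤ : Submodule ℝ E) := h1 ▸ inferInstance
    exact Module.Finite.equiv (Submodule.topEquiv (R := ℝ) (M := E))
  have hh : ∀ k : ℕ, ∃ h : E ≃ₗᵢ[ℝ] E, ‖h x - x‖ < 1 / ((k : ℝ) + 1) ∧ h x ∉ WW n S Φ :=
    fun k => exists_leave hAT hx1 hxW hz0 (by positivity)
  choose h hh1 hh2 using hh
  -- the sequences
  let s : Φ ⊕ Φ → (ℕ → E ≃ₗᵢ[ℝ] E) := fun i => match i with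
    | Sum.inl g => fun _ => (g : E ≃ₗᵢ[ℝ] E) * S * (g : E ≃ₗᵢ[ℝ] E)⁻¹
    | Sum.inr g => fun k => (h k * g) * S * (h k * g)⁻¹
  have hsS : ∀ i, s i ∈ GS E := by
    rintro (g | g) k
    · exact KK_op_conj hSK _
    · exact KK_op_conj hSK _
  have hsn : ∀ i, (s i) ^ n = 1 := by
    rintro (g | g)
    · funext k
      show ((g : E ≃ₗᵢ[ℝ] E) * S * (g : E ≃ₗᵢ[ℝ] E)⁻¹) ^ n = 1
      rw [conj_pow, hSn, mul_one, mul_inv_cancel]
    · funext k
      show ((h k * g) * S * (h k * g)⁻¹) ^ n = 1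
      rw [conj_pow, hSn, mul_one, mul_inv_cancel]
  have hconst : ∀ g : E ≃ₗᵢ[ℝ] E, op (twi fun _ : ℕ => g * S * g⁻¹) - 1 ∈ KK (UX E) := by
    intro g
    rw [op_twi_const]
    exact tw_const_compact (KK_op_conj hSK g)
  have hsK : ∀ i, op (twi (s i)) - 1 ∈ KK (UX E) := by
    rintro (g | g)
    · exact hconst g
    · have e : s (Sum.inr g) = h * (fun _ => (g : E ≃ₗᵢ[ℝ] E) * S * (g : E ≃ₗᵢ[ℝ] E)⁻¹) * h⁻¹ := by
        funext k
        show (h k * g) * S * (h k * g)⁻¹ = h k * (g * S * (g : E ≃ₗᵢ[ℝ] E)⁻¹) * (h k)⁻¹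
        group
      rw [e, ← twH_apply, map_mul, map_mul, map_inv]
      exact KK_op_conj (hconst g) _
  have hsF : ∀ i, FR (op (twi (s i)) - 1) := by
    intro i
    refine FR_of_order hn ?_ (hsK i)
    rw [← twH_apply, ← map_pow, hsn, map_one]
  have hrep : ∀ g ∈ Subgroup.closure (Set.range fun i => twi (s i)), ∃ r ∈ GS E, twH r = g := by
    have h1 : Subgroup.closure (Set.range fun i => twi (s i)) ≤ (GS E).map twH := by
      rw [Subgroup.closure_le]
      rintro _ ⟨i, rfl⟩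
      exact ⟨s i, hsS i, rfl⟩
    intro g hg
    exact h1 hg
  have hsame : ∀ r ∈ GS E, ∀ r' ∈ GS E, twH r = twH r' →
      ∀ᶠ k in (hyperfilter ℕ : Filter ℕ), r k = r' k := by
    intro r hr r' hr' he
    have h1 : r * r'⁻¹ ∈ GS E := (GS E).mul_mem hr ((GS E).inv_mem hr')
    have h2 : twi (r * r'⁻¹) = 1 := by
      rw [← twH_apply, map_mul, map_inv, he, mul_inv_cancel]
    have h3 := sep_twi hε hdis (g := r * r'⁻¹) h1 (by
      rw [h2, op_one, sub_self, norm_zero]; positivity)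
    filter_upwards [h3] with k hk
    exact mul_inv_eq_one.1 hk
  haveI : Finite (Subgroup.closure (Set.range fun i => twi (s i))) := by
    refine fin_group (fun i => twi (s i)) hsF (half_pos hε) fun g hg hlt => ?_
    obtain ⟨r, hr, rfl⟩ := hrep g hg
    have h1 := sep_twi hε hdis (g := r) hr hlt
    have h2 : twi r = twi 1 := twi_congr h1
    rw [twH_apply, h2, ← twH_apply, map_one]
  set Λ := Subgroup.closure (Set.range fun i => twi (s i)) with hΛ
  have hrep' : ∀ g : Λ, ∃ r ∈ GS E, twH r = (g : UX E ≃ₗᵢ[ℝ] UX E) := fun g => hrep g g.2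
  choose r hrS hrg using hrep'
  let sΛ : Φ ⊕ Φ → Λ := fun i => ⟨twi (s i), Subgroup.subset_closure ⟨i, rfl⟩⟩
  have g1 : ∀ᶠ k in (hyperfilter ℕ : Filter ℕ), ∀ a b : Λ, r (a * b) k = r a k * r b k := by
    rw [eventually_all]
    intro a
    rw [eventually_all]
    intro b
    refine hsame (r (a * b)) (hrS _) (r a * r b) ((GS E).mul_mem (hrS a) (hrS b)) ?_
    rw [hrg, map_mul, hrg, hrg]
    rfl
  have g2 : ∀ᶠ k in (hyperfilter ℕ : Filter ℕ), ∀ i, r (sΛ i) k = s i k := by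
    rw [eventually_all]
    intro i
    refine hsame (r (sΛ i)) (hrS _) (s i) (hsS i) ?_
    rw [hrg]
    rfl
  obtain ⟨C, hC⟩ := good_index (E := E) sΛ hn
  have g3 : ∀ᶠ k in (hyperfilter ℕ : Filter ℕ), |C| * ‖h k x - x‖ < 1 := by
    have h1 : Tendsto (fun k : ℕ => |C| * (1 / ((k : ℝ) + 1))) atTop (𝓝 0) := by
      simpa using tendsto_one_div_add_atTop_nhds_zero_nat.const_mul |C|
    have h2 : ∀ᶠ k : ℕ in atTop, |C| * (1 / ((k : ℝ) + 1)) < 1 :=
      h1.eventually_lt_const one_pos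
    filter_upwards [hyp_le h2] with k hk
    exact lt_of_le_of_lt (mul_le_mul_of_nonneg_left (hh1 k).le (abs_nonneg _)) hk
  obtain ⟨k, hk1, hk2, hk3⟩ := (g1.and (g2.and g3)).exists
  let π : Λ →* (E ≃ₗᵢ[ℝ] E) := MonoidHom.mk' (fun a => r a k) hk1
  have hπ : ∀ i, π (sΛ i) = s i k := hk2
  obtain ⟨z, hz1, hz2⟩ := hC π x ‖h k x - x‖ (by
    intro i
    rw [hπ]
    rcases i with g | g
    · have h1 : av n ((g : E ≃ₗᵢ[ℝ] E) * S * (g : E ≃ₗᵢ[ℝ] E)⁻¹) x = 0 := mem_WW.1 hxW g g.2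
      show ‖av n ((g : E ≃ₗᵢ[ℝ] E) * S * (g : E ≃ₗᵢ[ℝ] E)⁻¹) x‖ ≤ _
      rw [h1, norm_zero]
      exact norm_nonneg _
    · have h1 : av n ((g : E ≃ₗᵢ[ℝ] E) * S * (g : E ≃ₗᵢ[ℝ] E)⁻¹) x = 0 := mem_WW.1 hxW g g.2
      show ‖av n ((h k * (g : E ≃ₗᵢ[ℝ] E)) * S * (h k * (g : E ≃ₗᵢ[ℝ] E))⁻¹) x‖ ≤ _
      rw [av_shift, (h k).norm_map]
      have e : av n ((g : E ≃ₗᵢ[ℝ] E) * S * (g : E ≃ₗᵢ[ℝ] E)⁻¹) ((h k)⁻¹ x) =
          av n ((g : E ≃ₗᵢ[ℝ] E) * S * (g : E ≃ₗᵢ[ℝ] E)⁻¹) ((h k)⁻¹ (x - h k x)) := by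
        have e1 : (h k)⁻¹ (h k x) = x := (h k).symm_apply_apply x
        rw [map_sub (h k)⁻¹, e1, map_sub, h1, sub_zero]
      rw [e]
      refine (ContinuousLinearMap.le_opNorm _ _).trans ?_
      rw [((h k)⁻¹).norm_map, norm_sub_rev]
      exact mul_le_of_le_one_left (norm_nonneg _) (av_norm hn _))
  have hz0' : z ≠ 0 := by
    rintro rfl
    rw [sub_zero, hx1] at hz2
    have h1 : C * ‖h k x - x‖ ≤ |C| * ‖h k x - x‖ :=
      mul_le_mul_of_nonneg_right (le_abs_self C) (norm_nonneg _)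
    linarith
  -- the contradiction
  set Φ' := Φ.image (h k * ·) with hΦ'
  set Ψ := Φ ∪ Φ' with hΨ
  have hzΨ : z ∈ WW n S Ψ := by
    refine mem_WW.2 fun g hg => ?_
    rcases Finset.mem_union.1 hg with hg | hg
    · have h1 : av n (s (Sum.inl ⟨g, hg⟩) k) z = 0 := by
        have := hz1 (Sum.inl ⟨g, hg⟩)
        rwa [hπ (Sum.inl ⟨g, hg⟩)] at this
      exact h1
    · obtain ⟨g', hg', rfl⟩ := Finset.mem_image.1 hg
      have h1 : av n (s (Sum.inr ⟨g', hg'⟩) k) z = 0 := by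
        have := hz1 (Sum.inr ⟨g', hg'⟩)
        rwa [hπ (Sum.inr ⟨g', hg'⟩)] at this
      exact h1
  have hΨn : Ψ.Nonempty := hΦ.mono Finset.subset_union_left
  have hΨW : WW n S Ψ ≠ ⊥ := by
    intro hb
    rw [hb, Submodule.mem_bot] at hzΨ
    exact hz0' hzΨ
  have hf1 := hmin Ψ hΨn hΨW
  have hle1 : WW n S Ψ ≤ WW n S Φ := fun y hy =>
    mem_WW.2 fun g hg => mem_WW.1 hy g (Finset.mem_union_left _ hg)
  have hle2 : WW n S Ψ ≤ WW n S Φ' := fun y hy =>
    mem_WW.2 fun g hg => mem_WW.1 hy g (Finset.mem_union_right _ hg)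
  have hle3 : WW n S Φ' ≤ (WW n S Φ).map ((h k).toLinearEquiv : E →ₗ[ℝ] E) := by
    intro y hy
    refine ⟨(h k)⁻¹ y, mem_WW_shift.1 hy, ?_⟩
    exact (h k).apply_symm_apply y
  have hf2 : Module.finrank ℝ (WW n S Φ') ≤ Module.finrank ℝ (WW n S Φ) :=
    (Submodule.finrank_mono hle3).trans (Submodule.finrank_map_le _ _)
  haveI : FiniteDimensional ℝ (WW n S Φ') := WW_fd hn hSK (hΦ.image _)
  have e1 : WW n S Ψ = WW n S Φ := Submodule.eq_of_le_of_finrank_le hle1 hf1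
  have e2 : WW n S Ψ = WW n S Φ' := Submodule.eq_of_le_of_finrank_le hle2 (hf2.trans hf1)
  apply hh2 k
  rw [← e1, e2]
  refine mem_WW_shift.2 ?_
  have e3 : (h k)⁻¹ (h k x) = x := (h k).symm_apply_apply x
  rw [e3]
  exact hxW

/-- **MAIN THEOREM**: dense orbits and one compact perturbation of the identity give the
parallelogram law -/
theorem parallelogram_of_compact [CompleteSpace E] (hE : ¬ FiniteDimensional ℝ E)
    (hAT : AT (⊤ : Subgroup (E ≃ₗᵢ[ℝ] E)))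
    (T : E ≃ₗᵢ[ℝ] E) (hT : op T - 1 ∈ KK E) (hT1 : T ≠ 1) (x y : E) :
    ‖x + y‖ ^ 2 + ‖x - y‖ ^ 2 = 2 * ‖x‖ ^ 2 + 2 * ‖y‖ ^ 2 := by
  by_cases hd : ∃ ε : ℝ, 0 < ε ∧ ∀ S : E ≃ₗᵢ[ℝ] E, op S - 1 ∈ KK E → ‖op S - 1‖ < ε → S = 1
  · exfalso
    obtain ⟨ε, hε, hdis⟩ := hd
    have hcomm : ∀ h : E ≃ₗᵢ[ℝ] E, T * (h * T * h⁻¹) = (h * T * h⁻¹) * T := by
      intro h
      set U := h * T * h⁻¹ with hU
      have hUK : op U - 1 ∈ KK E := KK_op_conj hT h
      obtain ⟨l, hl, hTl⟩ := comm_pow hε hdis T U hT hUK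
      have h1 := comm_FR T U hT hl hTl
      have h2 : FR (op (T * U * T⁻¹ * U⁻¹) - 1) := by
        have e : op (T * U * T⁻¹ * U⁻¹) - 1 =
            (op T * op U - op U * op T) * (op T⁻¹ * op U⁻¹) := by
          have e1 : op U * op T * (op T⁻¹ * op U⁻¹) = 1 := by
            calc op U * op T * (op T⁻¹ * op U⁻¹) = op U * (op T * op T⁻¹) * op U⁻¹ := by
                  simp only [mul_assoc]
              _ = 1 := by rw [op_mul_inv, mul_one, op_mul_inv]
          rw [sub_mul, e1, op_mul, op_mul, op_mul, mul_assoc]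
        rw [e]
        exact FR_comp_right h1 _
      have h3 := no_FR hE hAT hε hdis _ h2
      rw [mul_inv_eq_one, mul_inv_eq_iff_eq_mul] at h3
      exact h3
    haveI : Nontrivial E := by
      by_contra hc
      rw [not_nontrivial_iff_subsingleton] at hc
      exact hE inferInstance
    obtain ⟨a, ha, hR0, hRF⟩ := exists_FR T hT hT1
    set R := 1 - Fop T a with hR
    obtain ⟨u, hu⟩ : ∃ u, R u ≠ 0 := by
      by_contra hc
      push Not at hc
      exact hR0 (ContinuousLinearMap.ext hc)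
    let N : Submodule ℝ (E →L[ℝ] E) :=
      { carrier := {c | ∀ h : E ≃ₗᵢ[ℝ] E, c * cj h R = cj h R * c}
        add_mem' := by
          intro c c' hc hc' h
          rw [add_mul, mul_add, hc, hc']
        zero_mem' := by intro h; rw [zero_mul, mul_zero]
        smul_mem' := by
          intro r c hc h
          rw [smul_mul_assoc, mul_smul_comm, hc] }
    have hN : ∀ S ∈ (⊤ : Subgroup (E ≃ₗᵢ[ℝ] E)), ∀ c ∈ N, cj S c ∈ N := by
      intro S _ c hc h
      have e : cj h R = cj S (cj (S⁻¹ * h) R) := by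
        rw [← cj_mul, mul_inv_cancel_left]
      rw [e, ← map_mul, ← map_mul, hc]
    have hTN : op T ∈ N := by
      intro h
      have e : cj h R = 1 - Fop (h * T * h⁻¹) a := by
        rw [hR, map_sub, map_one, cj_eq, Pool.H590R3.Ab.Fop_conj T h ha]
      rw [e, mul_sub, sub_mul, mul_one, one_mul]
      congr 1
      refine Pool.H590R3.Ab.Fop_comm_of _ ha (op T) fun k => ?_
      rw [← op_mul, ← op_mul]
      congr 1
      exact (Commute.zpow_right (show Commute T (h * T * h⁻¹) from hcomm h) k)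
    haveI : FiniteDimensional ℝ (LinearMap.range (R : E →ₗ[ℝ] E)) := hRF
    have hDD : op T ∈ DD (⊤ : Subgroup (E ≃ₗᵢ[ℝ] E)) :=
      Pool.Agent.TH596.RO.pt_op hE hAT hN hu
        (W := LinearMap.range (R : E →ₗ[ℝ] E)) inferInstance (fun c hc => by
          have h1 := hc 1
          rw [cj_one] at h1
          have h2 : c (R u) = R (c u) := by
            show (c * R) u = (R * c) u
            rw [h1]
          rw [h2]
          exact ⟨c u, rfl⟩) hTN
    exact op_not_mem_DD hE hAT T hT hT1 hDD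
  · push Not at hd
    have h := fun k : ℕ => hd (1 / ((k : ℝ) + 1)) (by positivity)
    choose S hSK hSe hS1 using h
    exact parallelogram_of_seq hE hAT S hS1 hSK
      (squeeze_zero (fun _ => norm_nonneg _) (fun k => (hSe k).le)
        tendsto_one_div_add_atTop_nhds_zero_nat) x y

end

end Pool.Agent.V5helper96.BM
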