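import Pool.Agent.H590R3.AbParti
import Pool.Agent.V5helper96.BM.Gap

/-!
# An isometry which is a strictly singular perturbation of the identity is a compact perturbation
-/

set_option autoImplicit false

namespace Pool.Agent.V5helper96.BM

open Pool.H590R3.Ab Filter Topology Metric

section
variable {E : Type*} [NormedAddCommGroup E] [NormedSpace ℝ E]

/-- strictly singular operators: not bounded below on any infinite-dimensional subspace -/
def SS (a : E →L[ℝ] E) : Prop :=
  ∀ Y : Submodule ℝ E, (∃ c : ℝ, 0 < c ∧ ∀ y ∈ Y, c * ‖y‖ ≤ ‖a y‖) → FiniteDimensional ℝ Y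

/-- an operator which is small on closed subspaces of finite codimension is compact -/
lemma KK_of_small_ker [CompleteSpace E] {a : E →L[ℝ] E} (h : ∀ ε : ℝ, 0 < ε →
    ∃ R : E →L[ℝ] E, FR R ∧ ∀ y : E, R y = 0 → ‖a y‖ ≤ ε * ‖y‖) : a ∈ KK E := by
  have h1 : TotallyBounded (a '' closedBall (0 : E) 1) := by
    refine Metric.totallyBounded_of_finite_discretization fun ε hε => ?_
    obtain ⟨R, hR, hRa⟩ := h (ε / 8) (by positivity)
    haveI : FiniteDimensional ℝ (LinearMap.range (R : E →ₗ[ℝ] E)) := hR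
    haveI : CompleteSpace (LinearMap.range (R : E →ₗ[ℝ] E)) := FiniteDimensional.complete ℝ _
    let f : E →L[ℝ] LinearMap.range (R : E →ₗ[ℝ] E) := R.codRestrict _ fun x => ⟨x, rfl⟩
    have hf : Function.Surjective f := by
      rintro ⟨_, ⟨x, rfl⟩⟩
      exact ⟨x, rfl⟩
    obtain ⟨C, hC0, hC⟩ := f.exists_preimage_norm_le hf
    set η : ℝ := min (1 / C) (ε / (8 * C * (‖a‖ + 1))) with hη
    have hη0 : 0 < η := by positivity
    have hη1 : C * η ≤ 1 := by
      have : η ≤ 1 / C := min_le_left _ _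
      calc C * η ≤ C * (1 / C) := mul_le_mul_of_nonneg_left this hC0.le
        _ = 1 := by field_simp
    have hη2 : ‖a‖ * (C * η) ≤ ε / 8 := by
      have h2 : η ≤ ε / (8 * C * (‖a‖ + 1)) := min_le_right _ _
      have h3 : C * η ≤ ε / (8 * (‖a‖ + 1)) := by
        calc C * η ≤ C * (ε / (8 * C * (‖a‖ + 1))) := mul_le_mul_of_nonneg_left h2 hC0.le
          _ = ε / (8 * (‖a‖ + 1)) := by field_simp
      calc ‖a‖ * (C * η) ≤ (‖a‖ + 1) * (ε / (8 * (‖a‖ + 1))) :=
            mul_le_mul (by linarith) h3 (by positivity) (by positivity)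
        _ = ε / 8 := by field_simp
    have hc : IsCompact (closedBall (0 : LinearMap.range (R : E →ₗ[ℝ] E)) ‖f‖) :=
      isCompact_closedBall _ _
    obtain ⟨t, -, htf, ht⟩ := hc.finite_cover_balls (show 0 < η / 2 by positivity)
    haveI : Fintype t := htf.fintype
    have hsel : ∀ s : a '' closedBall (0 : E) 1, ∃ x : E, ‖x‖ ≤ 1 ∧ a x = s := by
      rintro ⟨_, ⟨x, hx, rfl⟩⟩
      exact ⟨x, by rwa [mem_closedBall_zero_iff] at hx, rfl⟩
    choose x hx1 hx2 using hsel
    have hnet : ∀ s : a '' closedBall (0 : E) 1, ∃ z : t, ‖f (x s) - z‖ < η / 2 := by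
      intro s
      have h2 : f (x s) ∈ closedBall (0 : LinearMap.range (R : E →ₗ[ℝ] E)) ‖f‖ := by
        rw [mem_closedBall_zero_iff]
        exact (f.le_opNorm _).trans (mul_le_of_le_one_right (norm_nonneg _) (hx1 s))
      obtain ⟨z, hz, hyz⟩ := Set.mem_iUnion₂.1 (ht h2)
      rw [mem_ball, dist_eq_norm] at hyz
      exact ⟨⟨z, hz⟩, hyz⟩
    choose z hz using hnet
    refine ⟨t, inferInstance, z, fun s s' hss => ?_⟩
    have h2 : ‖f (x s - x s')‖ ≤ η := by
      have e : f (x s - x s') = (f (x s) - z s) - (f (x s') - z s) := by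
        rw [map_sub]; abel
      rw [e]
      refine (norm_sub_le _ _).trans ?_
      have h3 := hz s
      have h4 := hz s'
      rw [← hss] at h4
      linarith
    obtain ⟨w, hw1, hw2⟩ := hC (f (x s - x s'))
    have hw3 : ‖w‖ ≤ C * η := hw2.trans (mul_le_mul_of_nonneg_left h2 hC0.le)
    have h5 : R (x s - x s' - w) = 0 := by
      have h6 : f (x s - x s' - w) = 0 := by rw [map_sub, hw1, sub_self]
      have h7 : ((f (x s - x s' - w) : LinearMap.range (R : E →ₗ[ℝ] E)) : E) = 0 := by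
        rw [h6]; rfl
      exact h7
    have h6 := hRa _ h5
    have h7 : ‖x s - x s' - w‖ ≤ 3 := by
      refine (norm_sub_le _ _).trans ?_
      have := norm_sub_le (x s) (x s')
      have := hx1 s
      have := hx1 s'
      linarith
    have h8 : ‖a w‖ ≤ ε / 8 :=
      (a.le_opNorm w).trans ((mul_le_mul_of_nonneg_left hw3 (norm_nonneg _)).trans hη2)
    rw [dist_eq_norm, ← hx2 s, ← hx2 s']
    have e : a (x s) - a (x s') = a (x s - x s' - w) + a w := by
      rw [map_sub, map_sub]; abel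
    rw [e]
    have h9 := norm_add_le (a (x s - x s' - w)) (a w)
    have h10 : ε / 8 * ‖x s - x s' - w‖ ≤ ε / 8 * 3 :=
      mul_le_mul_of_nonneg_left h7 (by positivity)
    linarith
  rw [mem_KK]
  refine ⟨closure (a '' closedBall (0 : E) 1), h1.closure.isCompact_of_isClosed
    isClosed_closure, ?_⟩
  refine Filter.mem_of_superset (closedBall_mem_nhds (0 : E) one_pos) ?_
  intro x hx
  exact subset_closure ⟨x, hx, rfl⟩

lemma small_first [CompleteSpace E] {ε : ℝ} (hε : 0 < ε) : ∃ κ : ℝ, 0 < κ ∧ ∀ (T : E ≃ₗᵢ[ℝ] E) (y : E),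
    ‖(Co T - (1 : ℝ) • 1) y‖ ≤ κ * ‖y‖ → ‖T y - y‖ ≤ ε * ‖y‖ := by
  obtain ⟨N, hN⟩ := exists_nat_gt (4 / ε)
  have hN0 : 0 < (N : ℝ) := lt_trans (by positivity) hN
  rw [div_lt_iff₀ hε] at hN
  refine ⟨ε / (4 * N), by positivity, fun T y hy => ?_⟩
  have h1 := first_le_second T y N
  rw [second_eq] at h1
  have h2 : (N : ℝ) ^ 2 * (2 * ‖(Co T - (1 : ℝ) • 1) y‖) ≤ N ^ 2 * (2 * (ε / (4 * N) * ‖y‖)) := by
    have : 0 ≤ (N : ℝ) ^ 2 := by positivity
    nlinarith
  have h3 : (N : ℝ) ^ 2 * (2 * (ε / (4 * N) * ‖y‖)) = N * (ε / 2 * ‖y‖) := by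
    field_simp
    ring
  rw [h3] at h2
  have h4 : 2 * ‖y‖ ≤ N * (ε / 2 * ‖y‖) := by
    have := norm_nonneg y
    nlinarith
  have h5 : (N : ℝ) * ‖T y - y‖ ≤ N * (ε * ‖y‖) := by nlinarith
  exact le_of_mul_le_mul_left h5 hN0

/-- `(T + T⁻¹) / 2 - 1` is bounded by `T - 1` -/
lemma Co_le [CompleteSpace E] (T : E ≃ₗᵢ[ℝ] E) (y : E) : ‖(Co T - (1 : ℝ) • 1) y‖ ≤ ‖T y - y‖ := by
  have h1 := second_eq T y
  have h2 := norm_sub_le (T (T y - y)) (T y - y)
  rw [T.norm_map] at h2
  linarith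

variable [CompleteSpace E]

/-- the pieces of the partition: near one value of `(T + T⁻¹) / 2` -/
lemma piece_near (T : E ≃ₗᵢ[ℝ] E) {ε : ℝ} (hε : 0 < ε) {M : ℕ} {a : ℕ → ℤ → ℝ} {c : ℕ → ℝ}
    (hs : ∀ j, Summable (fun k : ℤ => |a j k|))
    (h1 : ∀ k : ℤ, ∑ j ∈ Finset.range (M + 1), a j k = if k = 0 then 1 else 0)
    (h0 : ∀ i j, i + 2 ≤ j → ∀ m : ℤ, ∑' k : ℤ, a i k * a j (m - k) = 0)
    (hl : ∀ i j, i ≤ j → j ≤ i + 2 →
      ∑' k : ℤ, |(a j (k - 1) + a j (k + 1)) / 2 - c i * a j k| ≤ ε) (i : ℕ) (x : E) :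
    ‖(Co T - c (i - 1) • 1) (Fop T (a i) x)‖ ≤ 3 * ε * ‖Fop T (a i) x‖ := by
  set H : ℕ → (E →L[ℝ] E) := fun j => Fop T (a j) with hH
  have hsum : ∑ j ∈ Finset.range (M + 1), H j = 1 := by
    rw [hH, Fop_sum T hs]
    have : (fun k => ∑ j ∈ Finset.range (M + 1), a j k) =
        fun k : ℤ => if k = 0 then (1:ℝ) else 0 := funext h1
    rw [this, Fop_delta]
  have hzero : ∀ i j, i + 2 ≤ j → H i * H j = 0 := fun i j hij =>
    Fop_mul_eq_zero T (hs i) (hs j) (h0 i j hij)
  have hcomm : ∀ i j, H i * H j = H j * H i := fun i j => Fop_comm T (hs i) (hs j)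
  set y := H i x with hy
  set p := i - 1 with hp
  have hz : ∀ j, j ∉ Finset.Icc p (p + 2) → H j y = 0 := by
    intro j hj
    rw [Finset.mem_Icc, not_and_or] at hj
    have h2 : H j * H i = 0 := by
      rcases hj with hj | hj
      · exact hzero _ _ (by omega)
      · rw [hcomm]; exact hzero _ _ (by omega)
    have h3 : (H j * H i) x = 0 := by rw [h2]; rfl
    exact h3
  have e2 : (Co T - c p • 1) y = ∑ j ∈ Finset.range (M + 1), ((Co T - c p • 1) * H j) y := by
    have e3 : (Co T - c p • (1 : E →L[ℝ] E)) =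
        ∑ j ∈ Finset.range (M + 1), (Co T - c p • (1 : E →L[ℝ] E)) * H j := by
      rw [← Finset.mul_sum, hsum, mul_one]
    conv_lhs => rw [e3]
    rw [ContinuousLinearMap.sum_apply]
  rw [e2]
  refine (norm_sum_le _ _).trans ?_
  have e3 : ∀ j ∈ Finset.range (M + 1), ‖((Co T - c p • (1 : E →L[ℝ] E)) * H j) y‖
      ≤ if j ∈ Finset.Icc p (p + 2) then ε * ‖y‖ else 0 := by
    intro j _
    by_cases hj : j ∈ Finset.Icc p (p + 2)
    · rw [if_pos hj]
      rw [Finset.mem_Icc] at hj
      refine (ContinuousLinearMap.le_opNorm _ _).trans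
        (mul_le_mul_of_nonneg_right ?_ (norm_nonneg _))
      rw [hH, Co_mul_Fop T (hs j)]
      refine (Fop_norm_le T ?_).trans (hl p j hj.1 hj.2)
      have s1 : Summable fun k : ℤ => |a j (k - 1)| := summable_shift (hs j) (-1)
      have s2 : Summable fun k : ℤ => |a j (k + 1)| := summable_shift (hs j) 1
      refine Summable.of_nonneg_of_le (fun _ => abs_nonneg _) (fun k => ?_)
        (((s1.mul_left (1/2)).add (s2.mul_left (1/2))).add ((hs j).mul_left |c p|))
      have h3 : (a j (k - 1) + a j (k + 1)) / 2 - c p * a j k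
          = 1 / 2 * a j (k - 1) + 1 / 2 * a j (k + 1) + - (c p * a j k) := by ring
      rw [h3]
      refine (abs_add_le _ _).trans ?_
      rw [abs_neg, abs_mul (c p)]
      have h4 := abs_add_le (1 / 2 * a j (k - 1)) (1 / 2 * a j (k + 1))
      rw [abs_mul, abs_mul, abs_of_pos (by norm_num : (0:ℝ) < 1/2)] at h4
      linarith
    · rw [if_neg hj]
      have h2 : ((Co T - c p • (1 : E →L[ℝ] E)) * H j) y = (Co T - c p • (1 : E →L[ℝ] E)) (H j y) :=
        rfl
      rw [h2, hz j hj, map_zero, norm_zero]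
  refine (Finset.sum_le_sum e3).trans ?_
  rw [← Finset.sum_filter]
  have e4 : (Finset.filter (fun j => j ∈ Finset.Icc p (p + 2)) (Finset.range (M + 1)))
      ⊆ Finset.Icc p (p + 2) := fun j hj => (Finset.mem_filter.1 hj).2
  refine (Finset.sum_le_sum_of_subset_of_nonneg e4
    (fun _ _ _ => mul_nonneg hε.le (norm_nonneg _))).trans ?_
  rw [Finset.sum_const, Nat.card_Icc]
  have : p + 2 + 1 - p = 3 := by omega
  rw [this]
  simp only [nsmul_eq_mul, Nat.cast_ofNat]
  linarith

lemma FR_sum {ι : Type*} {s : Finset ι} {a : ι → E →L[ℝ] E} (h : ∀ i ∈ s, FR (a i)) :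
    FR (∑ i ∈ s, a i) := by
  classical
  induction s using Finset.induction_on with
  | empty =>
    rw [Finset.sum_empty]
    exact FR_of_le (W := (⊥ : Submodule ℝ E)) fun x => by
      show (0 : E) ∈ (⊥ : Submodule ℝ E)
      exact Submodule.zero_mem _
  | insert i s hi ih =>
    rw [Finset.sum_insert hi]
    exact FR_plus (h i (Finset.mem_insert_self i s))
      (ih fun j hj => h j (Finset.mem_insert_of_mem hj))

/-- a strictly singular perturbation of the identity is near the identity on subspaces of finite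
codimension -/
lemma SS_small {T : E ≃ₗᵢ[ℝ] E} (hT : SS (op T - 1)) {ε : ℝ} (hε : 0 < ε) :
    ∃ R : E →L[ℝ] E, FR R ∧ ∀ y : E, R y = 0 → ‖T y - y‖ ≤ ε * ‖y‖ := by
  obtain ⟨b, hb, hb1, hbb, hbε⟩ := bumps
  obtain ⟨κ, hκ, hκT⟩ := small_first (E := E) hε
  obtain ⟨m, hm⟩ := hbε κ hκ
  have hm := hm m le_rfl
  obtain ⟨η, hη, hnear⟩ := Fop_near (E := E) (hb (m + 1)) (hb1 (m + 1))
  obtain ⟨κ', hκ', hκT'⟩ := small_first (E := E) hη
  obtain ⟨M, a, c, hs, h1, h0, hl⟩ := parti (κ' / 9) (by positivity)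
  set B := Fop T (b m) with hB
  set B' := Fop T (b (m + 1)) with hB'
  have hBB : B * B' = B' := Fop_mul T (hb m) (hb (m + 1)) (hbb m (m + 1) (Nat.lt_succ_self m))
  have hB'B : B' * B = B' := by rw [← Fop_comm T (hb m) (hb (m + 1))]; exact hBB
  refine ⟨1 - B, ?_, ?_⟩
  · have hsum : ∑ j ∈ Finset.range (M + 1), Fop T (a j) = 1 := by
      rw [Fop_sum T hs]
      have : (fun k => ∑ j ∈ Finset.range (M + 1), a j k) =
          fun k : ℤ => if k = 0 then (1:ℝ) else 0 := funext h1
      rw [this, Fop_delta]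
    have e : 1 - B = ∑ j ∈ Finset.range (M + 1), (1 - B) * Fop T (a j) := by
      rw [← Finset.mul_sum, hsum, mul_one]
    rw [e]
    refine FR_sum fun i _ => ?_
    have hp : ∀ x, ‖(Co T - c (i - 1) • 1) (Fop T (a i) x)‖ ≤ κ' / 3 * ‖Fop T (a i) x‖ := by
      intro x
      have := piece_near T (show 0 < κ' / 9 by positivity) hs h1 h0 hl i x
      have e2 : 3 * (κ' / 9) = κ' / 3 := by ring
      rwa [e2] at this
    have hdiff : ∀ y : E, (Co T - (1 : ℝ) • 1) y =
        (Co T - c (i - 1) • 1) y + (c (i - 1) - 1) • y := by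
      intro y
      simp only [ContinuousLinearMap.sub_apply, ContinuousLinearMap.smul_apply,
        ContinuousLinearMap.one_apply]
      module
    by_cases hc : 2 * κ' / 3 ≤ |c (i - 1) - 1|
    · -- a piece away from `1` has finite rank
      refine FR_comp_left (a := Fop T (a i)) ?_ (1 - B)
      refine hT _ ⟨κ' / 3, by positivity, ?_⟩
      rintro _ ⟨x, rfl⟩
      have h2 := hp x
      have h3 := hdiff (Fop T (a i) x)
      have h4 : |c (i - 1) - 1| * ‖Fop T (a i) x‖ ≤
          ‖(Co T - (1 : ℝ) • 1) (Fop T (a i) x)‖ + ‖(Co T - c (i - 1) • 1) (Fop T (a i) x)‖ := by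
        have e3 : (c (i - 1) - 1) • Fop T (a i) x = (Co T - (1 : ℝ) • 1) (Fop T (a i) x) -
            (Co T - c (i - 1) • 1) (Fop T (a i) x) := by rw [h3]; abel
        rw [← Real.norm_eq_abs, ← norm_smul, e3]
        exact norm_sub_le _ _
      have h5 := Co_le T (Fop T (a i) x)
      have h6 := mul_le_mul_of_nonneg_right hc (norm_nonneg (Fop T (a i) x))
      show κ' / 3 * ‖Fop T (a i) x‖ ≤ ‖T (Fop T (a i) x) - Fop T (a i) x‖
      nlinarith
    · -- a piece near `1` is killed by `1 - B`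
      push Not at hc
      have hz : (1 - B) * Fop T (a i) = 0 := by
        ext x
        have e2 : ((1 - B) * Fop T (a i)) x = Fop T (a i) (x - B x) := by
          have : (1 - B) * Fop T (a i) = Fop T (a i) * (1 - B) := by
            rw [sub_mul, mul_sub, one_mul, mul_one, hB, Fop_comm T (hb m) (hs i)]
          rw [this]
          rfl
        rw [e2]
        set y := Fop T (a i) (x - B x) with hy
        have h2 : ‖(Co T - (1 : ℝ) • 1) y‖ ≤ κ' * ‖y‖ := by
          rw [hdiff y]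
          refine (norm_add_le _ _).trans ?_
          rw [norm_smul, Real.norm_eq_abs]
          have h3 := hp (x - B x)
          have h4 := mul_le_mul_of_nonneg_right hc.le (norm_nonneg y)
          nlinarith
        have h3 := hnear T y (hκT' T y h2)
        have h4 : B' y = 0 := by
          have e3 : y = ((1 - B) * Fop T (a i)) x := e2.symm
          rw [e3]
          have e4 : B' (((1 - B) * Fop T (a i)) x) = (B' * (1 - B) * Fop T (a i)) x := rfl
          rw [e4, mul_sub, mul_one, hB'B, sub_self, zero_mul]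
          rfl
        rw [h4, zero_sub, norm_neg] at h3
        have h5 := norm_nonneg y
        have h6 : ‖y‖ = 0 := by linarith
        rw [norm_eq_zero.1 h6]
        rfl
      rw [hz]
      exact FR_of_le (W := (⊥ : Submodule ℝ E)) fun x => by
        show (0 : E) ∈ (⊥ : Submodule ℝ E)
        exact Submodule.zero_mem _
  · intro y hy
    refine hκT T y ?_
    have h2 : B y = y := by
      have : y - B y = 0 := hy
      exact (sub_eq_zero.1 this).symm
    have h3 : (Co T - (1 : ℝ) • 1) y = ((Co T - (1 : ℝ) • 1) * B) y := by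
      show _ = (Co T - (1 : ℝ) • 1) (B y)
      rw [h2]
    rw [h3]
    refine (ContinuousLinearMap.le_opNorm _ _).trans (mul_le_mul_of_nonneg_right ?_ (norm_nonneg _))
    rw [hB, Co_mul_Fop T (hb m)]
    have hm' : ∑' k : ℤ, |(b m (k - 1) + b m (k + 1)) / 2 - 1 * b m k| ≤ κ := by
      simpa using hm
    refine (Fop_norm_le T ?_).trans hm'
    have s1 : Summable fun k : ℤ => |b m (k - 1)| := summable_shift (hb m) (-1)
    have s2 : Summable fun k : ℤ => |b m (k + 1)| := summable_shift (hb m) 1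
    refine Summable.of_nonneg_of_le (fun _ => abs_nonneg _) (fun k => ?_)
      (((s1.mul_left (1/2)).add (s2.mul_left (1/2))).add ((hb m).mul_left |(1 : ℝ)|))
    have h3 : (b m (k - 1) + b m (k + 1)) / 2 - 1 * b m k
        = 1 / 2 * b m (k - 1) + 1 / 2 * b m (k + 1) + - (1 * b m k) := by ring
    rw [h3]
    refine (abs_add_le _ _).trans ?_
    rw [abs_neg, abs_mul (1 : ℝ)]
    have h4 := abs_add_le (1 / 2 * b m (k - 1)) (1 / 2 * b m (k + 1))
    rw [abs_mul, abs_mul, abs_of_pos (by norm_num : (0:ℝ) < 1/2)] at h4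
    linarith

/-- **an isometry which is a strictly singular perturbation of the identity is a compact
perturbation of the identity** -/
theorem KK_of_SS {T : E ≃ₗᵢ[ℝ] E} (hT : SS (op T - 1)) : op T - 1 ∈ KK E :=
  KK_of_small_ker fun _ hε => SS_small hT hε

end

end Pool.Agent.V5helper96.BM
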