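import Pool.Agent.V5helper96.BM.Calc
import Pool.Agent.TH596.RO.Inj

/-!
# Operators which generate groups of isometries
-/

set_option autoImplicit false

namespace Pool.Agent.V5helper96.BM

open Filter Topology Metric
open Pool.H590R3.Ab (op op_apply op_mul op_one op_norm_le)

section ring
variable {A : Type*} [NormedRing A] [NormOneClass A]

lemma pow_sub_bound (a : A) (n : ℕ) :
    ‖(1 + a) ^ n - 1 - (n : A) * a‖ ≤ (1 + ‖a‖) ^ n - 1 - n * ‖a‖ := by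
  induction n with
  | zero => simp
  | succ n ih =>
    have e : (1 + a) ^ (n + 1) - 1 - ((n + 1 : ℕ) : A) * a =
        (1 + a) * ((1 + a) ^ n - 1 - (n : A) * a) + (n : A) * (a * a) := by
      have hc : a * (n : A) = (n : A) * a := (Nat.cast_commute n a).symm.eq
      have h1 : a * ((n : A) * a) = (n : A) * (a * a) := by rw [← mul_assoc, hc, mul_assoc]
      push_cast
      rw [pow_succ']
      have : (1 + a) * ((1 + a) ^ n - 1 - (n : A) * a) =
        (1 + a) * (1 + a) ^ n - (1 + a) - ((n : A) * a + (n : A) * (a * a)) := by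
        rw [mul_sub, mul_sub, mul_one, add_mul 1 a ((n : A) * a), one_mul, h1]
      rw [this]
      noncomm_ring
    rw [e]
    refine (norm_add_le _ _).trans ?_
    have h1 : ‖(1 + a) * ((1 + a) ^ n - 1 - (n : A) * a)‖ ≤
        (1 + ‖a‖) * ((1 + ‖a‖) ^ n - 1 - n * ‖a‖) := by
      refine (norm_mul_le _ _).trans (mul_le_mul ?_ ih (norm_nonneg _) (by positivity))
      refine (norm_add_le _ _).trans ?_
      rw [norm_one]
    have h2 : ‖(n : A) * (a * a)‖ ≤ n * (‖a‖ * ‖a‖) := by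
      rw [← nsmul_eq_mul]
      refine (norm_nsmul_le).trans ?_
      exact mul_le_mul_of_nonneg_left (norm_mul_le _ _) (Nat.cast_nonneg _)
    have h3 : (1 + ‖a‖) ^ (n + 1) - 1 - ((n + 1 : ℕ) : ℝ) * ‖a‖ =
        (1 + ‖a‖) * ((1 + ‖a‖) ^ n - 1 - n * ‖a‖) + n * (‖a‖ * ‖a‖) := by
      push_cast
      ring
    rw [h3]
    linarith

end ring

lemma one_add_pow_le_exp {u : ℝ} (hu : 0 ≤ u) (n : ℕ) : (1 + u) ^ n ≤ Real.exp (n * u) := by
  rw [Real.exp_nat_mul]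
  exact pow_le_pow_left₀ (by linarith) (by linarith [Real.add_one_le_exp u]) n

lemma exp_sub_le {u : ℝ} (hu : 0 ≤ u) : Real.exp u - 1 - u ≤ u ^ 2 * Real.exp u := by
  have h1 := Real.one_sub_le_exp_neg u
  have h2 : Real.exp (-u) * Real.exp u = 1 := by rw [← Real.exp_add, neg_add_cancel, Real.exp_zero]
  have h3 : 0 < Real.exp u := Real.exp_pos u
  nlinarith [mul_le_mul_of_nonneg_right h1 h3.le]

section
variable {E : Type*} [NormedAddCommGroup E] [NormedSpace ℝ E]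

/-- the operator has no growth to first order -/
def Bq (D : E →L[ℝ] E) : Prop := ∃ C : ℝ, ∀ s : ℝ, ‖1 + s • D‖ ≤ 1 + C * s ^ 2

/-- the same with the best constants -/
def Sk (D : E →L[ℝ] E) : Prop :=
  ∀ s : ℝ, ‖1 + s • D‖ ≤ Real.exp (|s| * ‖D‖) - |s| * ‖D‖

lemma norm_one_le : ‖(1 : E →L[ℝ] E)‖ ≤ 1 := ContinuousLinearMap.norm_id_le

lemma Bq_of_le {D : E →L[ℝ] E} {C : ℝ} (h : ∀ s : ℝ, |s| ≤ 1 → ‖1 + s • D‖ ≤ 1 + C * s ^ 2) :
    Bq D := by
  refine ⟨max C ‖D‖, fun s => ?_⟩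
  by_cases hs : |s| ≤ 1
  · refine (h s hs).trans ?_
    have := mul_le_mul_of_nonneg_right (le_max_left C ‖D‖) (sq_nonneg s)
    linarith
  · push Not at hs
    refine (norm_add_le _ _).trans (add_le_add norm_one_le ?_)
    rw [norm_smul, Real.norm_eq_abs]
    have h1 : |s| ≤ s ^ 2 := by rw [← sq_abs]; nlinarith
    calc |s| * ‖D‖ ≤ s ^ 2 * ‖D‖ := mul_le_mul_of_nonneg_right h1 (norm_nonneg _)
      _ ≤ s ^ 2 * max C ‖D‖ := mul_le_mul_of_nonneg_left (le_max_right _ _) (sq_nonneg _)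
      _ = max C ‖D‖ * s ^ 2 := by ring

lemma Bq_add {D D' : E →L[ℝ] E} (h : Bq D) (h' : Bq D') : Bq (D + D') := by
  obtain ⟨C, hC⟩ := h
  obtain ⟨C', hC'⟩ := h'
  refine ⟨2 * C + 2 * C', fun s => ?_⟩
  have e : 1 + s • (D + D') = (1 / 2 : ℝ) • (1 + (2 * s) • D) + (1 / 2 : ℝ) • (1 + (2 * s) • D') := by
    module
  rw [e]
  refine (norm_add_le _ _).trans ?_
  rw [norm_smul, norm_smul, Real.norm_of_nonneg (by norm_num : (0 : ℝ) ≤ 1 / 2)]
  have h1 := hC (2 * s)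
  have h2 := hC' (2 * s)
  nlinarith

lemma Bq_smul {D : E →L[ℝ] E} (h : Bq D) (c : ℝ) : Bq (c • D) := by
  obtain ⟨C, hC⟩ := h
  refine ⟨C * c ^ 2, fun s => ?_⟩
  rw [smul_smul]
  refine (hC (s * c)).trans (le_of_eq ?_)
  ring

lemma Bq_zero : Bq (0 : E →L[ℝ] E) := by
  refine ⟨0, fun s => ?_⟩
  rw [smul_zero, add_zero, zero_mul, add_zero]
  exact norm_one_le

lemma norm_pow_le_exp {B : E →L[ℝ] E} {C s : ℝ} (hC : 0 ≤ C) (hB : ‖B‖ ≤ 1 + C * s ^ 2) (n : ℕ) :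
    ‖B ^ n‖ ≤ Real.exp (n * (C * s ^ 2)) := by
  have h0 : ‖B ^ n‖ ≤ ‖B‖ ^ n := by
    cases n with
    | zero => rw [pow_zero, pow_zero]; exact norm_one_le
    | succ n => exact norm_pow_le' B (Nat.succ_pos n)
  refine h0.trans ((pow_le_pow_left₀ (norm_nonneg _) hB n).trans ?_)
  exact one_add_pow_le_exp (by positivity) n

lemma Sk_of_Bq [Nontrivial E] {D : E →L[ℝ] E} (h : Bq D) : Sk D := by
  obtain ⟨C0, hC0⟩ := h
  obtain ⟨C, hC1, hC⟩ : ∃ C : ℝ, 0 ≤ C ∧ ∀ s : ℝ, ‖1 + s • D‖ ≤ 1 + C * s ^ 2 := by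
    refine ⟨|C0|, abs_nonneg _, fun s => (hC0 s).trans ?_⟩
    have := mul_le_mul_of_nonneg_right (le_abs_self C0) (sq_nonneg s)
    linarith
  intro s
  have key : ∀ n : ℕ, ‖1 + s • D‖ ≤ Real.exp (C * s ^ 2 * (1 / ((n : ℝ) + 1))) +
      (Real.exp (|s| * ‖D‖) - 1 - |s| * ‖D‖) := by
    intro n
    set m : ℝ := (n : ℝ) + 1 with hm
    have hm0 : 0 < m := by positivity
    set a : E →L[ℝ] E := (s / m) • D with ha
    have hna : ‖a‖ = |s| * ‖D‖ / m := by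
      rw [ha, norm_smul, Real.norm_eq_abs, abs_div, abs_of_pos hm0]; ring
    have h1 := pow_sub_bound a (n + 1)
    have h2 : ((n + 1 : ℕ) : E →L[ℝ] E) * a = s • D := by
      rw [← nsmul_eq_mul, ha, ← Nat.cast_smul_eq_nsmul ℝ, smul_smul]
      congr 1
      push_cast
      rw [← hm]
      field_simp
    have h3 : (1 + ‖a‖) ^ (n + 1) - 1 - ((n + 1 : ℕ) : ℝ) * ‖a‖ ≤
        Real.exp (|s| * ‖D‖) - 1 - |s| * ‖D‖ := by
      have e1 : ((n + 1 : ℕ) : ℝ) * ‖a‖ = |s| * ‖D‖ := by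
        rw [hna]; push_cast; rw [← hm]; field_simp
      have := one_add_pow_le_exp (norm_nonneg a) (n + 1)
      rw [e1] at this
      rw [e1]
      linarith
    have h4 : ‖(1 + a) ^ (n + 1)‖ ≤ Real.exp (C * s ^ 2 * (1 / m)) := by
      refine (norm_pow_le_exp hC1 (hC (s / m)) (n + 1)).trans (le_of_eq ?_)
      congr 1
      push_cast
      rw [← hm]
      field_simp
    have e : 1 + s • D = (1 + a) ^ (n + 1) - ((1 + a) ^ (n + 1) - 1 - ((n + 1 : ℕ) : E →L[ℝ] E) * a) := by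
      rw [h2]; abel
    rw [e]
    exact (norm_sub_le _ _).trans (add_le_add h4 (h1.trans h3))
  have hl : Tendsto (fun n : ℕ => Real.exp (C * s ^ 2 * (1 / ((n : ℝ) + 1))) +
      (Real.exp (|s| * ‖D‖) - 1 - |s| * ‖D‖)) atTop
      (𝓝 (Real.exp (C * s ^ 2 * 0) + (Real.exp (|s| * ‖D‖) - 1 - |s| * ‖D‖))) := by
    refine Tendsto.add_const _ ?_
    exact (Real.continuous_exp.tendsto _).comp
      (tendsto_one_div_add_atTop_nhds_zero_nat.const_mul (C * s ^ 2))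
  have := ge_of_tendsto' hl key
  rw [mul_zero, Real.exp_zero] at this
  linarith

lemma Bq_of_Sk {D : E →L[ℝ] E} (h : Sk D) : Bq D := by
  refine Bq_of_le (C := ‖D‖ ^ 2 * Real.exp ‖D‖) fun s hs => ?_
  refine (h s).trans ?_
  have hu : 0 ≤ |s| * ‖D‖ := by positivity
  have h1 := exp_sub_le hu
  have h2 : |s| * ‖D‖ ≤ ‖D‖ := by
    have := mul_le_mul_of_nonneg_right hs (norm_nonneg D)
    linarith
  have h3 : Real.exp (|s| * ‖D‖) ≤ Real.exp ‖D‖ := Real.exp_le_exp.2 h2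
  have h4 : (|s| * ‖D‖) ^ 2 * Real.exp (|s| * ‖D‖) ≤ ‖D‖ ^ 2 * Real.exp ‖D‖ * s ^ 2 := by
    rw [mul_pow, sq_abs]
    calc s ^ 2 * ‖D‖ ^ 2 * Real.exp (|s| * ‖D‖) ≤ s ^ 2 * ‖D‖ ^ 2 * Real.exp ‖D‖ :=
          mul_le_mul_of_nonneg_left h3 (by positivity)
      _ = ‖D‖ ^ 2 * Real.exp ‖D‖ * s ^ 2 := by ring
  linarith

lemma Sk_iff [Nontrivial E] {D : E →L[ℝ] E} : Sk D ↔ Bq D := ⟨Bq_of_Sk, Sk_of_Bq⟩

lemma Sk_closed : IsClosed {D : E →L[ℝ] E | Sk D} := by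
  have e : {D : E →L[ℝ] E | Sk D} =
      ⋂ s : ℝ, {D | ‖1 + s • D‖ ≤ Real.exp (|s| * ‖D‖) - |s| * ‖D‖} := by
    ext D; simp [Sk]
  rw [e]
  refine isClosed_iInter fun s => ?_
  refine isClosed_le (by fun_prop) ?_
  exact (Real.continuous_exp.comp (continuous_const.mul continuous_norm)).sub
    (continuous_const.mul continuous_norm)

/-- the operators which generate isometries -/
def gg (E : Type*) [NormedAddCommGroup E] [NormedSpace ℝ E] [Nontrivial E] :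
    Submodule ℝ (E →L[ℝ] E) where
  carrier := {D | Sk D}
  add_mem' := fun {a b} ha hb => Sk_iff.2 (Bq_add (Sk_iff.1 ha) (Sk_iff.1 hb))
  zero_mem' := Sk_iff.2 Bq_zero
  smul_mem' := fun c a ha => Sk_iff.2 (Bq_smul (Sk_iff.1 ha) c)

lemma gg_closed [Nontrivial E] : IsClosed (gg E : Set (E →L[ℝ] E)) := Sk_closed

lemma mem_gg [Nontrivial E] {D : E →L[ℝ] E} : D ∈ gg E ↔ Bq D := Sk_iff

open Pool.Agent.TH596.RO (cj cj_apply norm_cj)

lemma gg_cj [Nontrivial E] {D : E →L[ℝ] E} (h : D ∈ gg E) (T : E ≃ₗᵢ[ℝ] E) : cj T D ∈ gg E := by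
  rw [mem_gg] at *
  obtain ⟨C, hC⟩ := h
  refine ⟨C, fun s => ?_⟩
  have e : 1 + s • cj T D = cj T (1 + s • D) := by rw [map_add, map_one, map_smul]
  rw [e, norm_cj]
  exact hC s

/-- a nilpotent generator of isometries vanishes -/
lemma gg_ker [Nontrivial E] {D : E →L[ℝ] E} (h : D ∈ gg E) {y : E} (hy : D (D y) = 0) :
    D y = 0 := by
  rw [mem_gg] at h
  obtain ⟨C, hC⟩ := h
  by_contra hne
  have hp : 0 < ‖D y‖ := norm_pos_iff.2 hne
  -- `(1 + s / n D) ^ n y = y + s D y`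
  have h1 : ∀ (s : ℝ) (n : ℕ), ((1 + s • D) ^ n) y = y + (n * s) • D y := by
    intro s n
    induction n with
    | zero => simp
    | succ n ih =>
      rw [pow_succ']
      show (1 + s • D) (((1 + s • D) ^ n) y) = _
      rw [ih, ContinuousLinearMap.add_apply, ContinuousLinearMap.one_apply,
        ContinuousLinearMap.smul_apply, map_add, map_smul, hy, smul_zero, add_zero]
      push_cast
      module
  have h2 : ∀ t : ℝ, ‖y + t • D y‖ ≤ ‖y‖ := by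
    intro t
    have key : ∀ n : ℕ, ‖y + t • D y‖ ≤ Real.exp (|C| * t ^ 2 * (1 / ((n : ℝ) + 1))) * ‖y‖ := by
      intro n
      have hm0 : (0 : ℝ) < (n : ℝ) + 1 := by positivity
      have h3 := h1 (t / ((n : ℝ) + 1)) (n + 1)
      have e : ((n + 1 : ℕ) : ℝ) * (t / ((n : ℝ) + 1)) = t := by push_cast; field_simp
      rw [e] at h3
      rw [← h3]
      refine (ContinuousLinearMap.le_opNorm _ _).trans ?_
      refine mul_le_mul_of_nonneg_right ?_ (norm_nonneg _)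
      have hC' : ‖1 + (t / ((n : ℝ) + 1)) • D‖ ≤ 1 + |C| * (t / ((n : ℝ) + 1)) ^ 2 := by
        refine (hC _).trans ?_
        have := mul_le_mul_of_nonneg_right (le_abs_self C) (sq_nonneg (t / ((n : ℝ) + 1)))
        linarith
      refine (norm_pow_le_exp (abs_nonneg C) hC' (n + 1)).trans (le_of_eq ?_)
      congr 1
      push_cast
      field_simp
    have hl : Tendsto (fun n : ℕ => Real.exp (|C| * t ^ 2 * (1 / ((n : ℝ) + 1))) * ‖y‖) atTop
        (𝓝 (Real.exp (|C| * t ^ 2 * 0) * ‖y‖)) :=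
      ((Real.continuous_exp.tendsto _).comp
        (tendsto_one_div_add_atTop_nhds_zero_nat.const_mul (|C| * t ^ 2))).mul_const _
    have := ge_of_tendsto' hl key
    rwa [mul_zero, Real.exp_zero, one_mul] at this
  obtain ⟨n, hn⟩ := exists_nat_gt (2 * ‖y‖ / ‖D y‖)
  rw [div_lt_iff₀ hp] at hn
  have h3 := h2 n
  have h4 : (n : ℝ) * ‖D y‖ ≤ ‖y + (n : ℝ) • D y‖ + ‖y‖ := by
    have : (n : ℝ) • D y = (y + (n : ℝ) • D y) - y := by abel
    calc (n : ℝ) * ‖D y‖ = ‖(n : ℝ) • D y‖ := by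
          rw [norm_smul, Real.norm_of_nonneg (Nat.cast_nonneg n)]
      _ = ‖(y + (n : ℝ) • D y) - y‖ := by rw [← this]
      _ ≤ _ := norm_sub_le _ _
  linarith

end

end Pool.Agent.V5helper96.BM
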