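import Pool.Agent.V5helper96.BM.Ult

/-!
# The ultrapower argument
-/

set_option autoImplicit false

namespace Pool.Agent.V5helper96.BM

open Filter Topology Metric
open scoped ENNReal
open Pool.H590R3.Ab (op op_apply op_mul op_one op_norm_le)
open Pool.Agent.R287.UP
open Pool.Agent.TH596.RO (cj AT DD)

lemma hyp_le : (hyperfilter ℕ : Filter ℕ) ≤ atTop := Nat.hyperfilter_le_atTop

section
variable {E : Type*} [NormedAddCommGroup E] [NormedSpace ℝ E]

/-- unit vectors have representatives which are unit vectors -/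
lemma exists_unit_cl {e : E} (he : ‖e‖ = 1) {u : UX E} (hu : ‖u‖ = 1) :
    ∃ x : ℕ → E, ∃ hx : BF x, (∀ i, ‖x i‖ = 1) ∧ cl x hx = u := by
  classical
  obtain ⟨x, hx, rfl⟩ := exists_cl u
  have h1 := cl_norm hx
  rw [hu] at h1
  let x' : ℕ → E := fun i => if x i = 0 then e else ‖x i‖⁻¹ • x i
  have hx' : ∀ i, ‖x' i‖ = 1 := by
    intro i
    show ‖if x i = 0 then e else ‖x i‖⁻¹ • x i‖ = 1
    split_ifs with h
    · exact he
    · rw [norm_smul, norm_inv, norm_norm, inv_mul_cancel₀ (norm_ne_zero_iff.2 h)]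
  refine ⟨x', ⟨1, fun i => (hx' i).le⟩, hx', ?_⟩
  rw [cl_eq]
  have h2 : Tendsto (fun i => |1 - ‖x i‖|) (hyperfilter ℕ : Filter ℕ) (𝓝 0) := by
    have := (tendsto_const_nhds (x := (1 : ℝ)) (f := (hyperfilter ℕ : Filter ℕ))).sub h1
    rw [sub_self] at this
    simpa using this.abs
  refine h2.congr' ?_
  have h3 : ∀ᶠ i in (hyperfilter ℕ : Filter ℕ), (0 : ℝ) < ‖x i‖ :=
    h1.eventually_const_lt (by norm_num)
  filter_upwards [h3] with i hi
  have hne : x i ≠ 0 := norm_pos_iff.1 hi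
  have e1 : x' i - x i = (‖x i‖⁻¹ * (1 - ‖x i‖)) • x i := by
    show (if x i = 0 then e else ‖x i‖⁻¹ • x i) - x i = _
    rw [if_neg hne, mul_sub, mul_one, inv_mul_cancel₀ hi.ne', sub_smul, one_smul]
  rw [e1, norm_smul, norm_mul, norm_inv, norm_norm, Real.norm_eq_abs]
  field_simp

lemma UX_transitive (hAT : AT (⊤ : Subgroup (E ≃ₗᵢ[ℝ] E))) {e : E} (he : ‖e‖ = 1) (u v : UX E)
    (hu : ‖u‖ = 1) (hv : ‖v‖ = 1) : ∃ g : UX E ≃ₗᵢ[ℝ] UX E, g u = v := by
  obtain ⟨x, hx, hx1, rfl⟩ := exists_unit_cl he hu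
  obtain ⟨y, hy, hy1, rfl⟩ := exists_unit_cl he hv
  have hg : ∀ i : ℕ, ∃ g : E ≃ₗᵢ[ℝ] E, ‖g (x i) - y i‖ < 1 / ((i : ℝ) + 1) := by
    intro i
    obtain ⟨g, -, hg⟩ := hAT (x i) (y i) (hx1 i) (hy1 i) (1 / ((i : ℝ) + 1)) (by positivity)
    exact ⟨g, hg⟩
  choose g hg using hg
  refine ⟨twi g, ?_⟩
  rw [twi_cl, cl_eq]
  refine squeeze_zero (fun i => norm_nonneg _) (fun i => (hg i).le) ?_
  exact tendsto_one_div_add_atTop_nhds_zero_nat.mono_left hyp_le

lemma UX_infinite (hE : ¬ FiniteDimensional ℝ E) : ¬ FiniteDimensional ℝ (UX E) := by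
  intro h
  apply hE
  exact Module.Finite.of_injective (dia (E := E)).toLinearMap (dia (E := E)).injective

lemma tw_const_compact [CompleteSpace E] {a : E →L[ℝ] E} (ha : a ∈ KK E) :
    tw (fun _ : ℕ => a) (BF.const a) ∈ KK (UX E) := by
  rw [mem_KK] at *
  obtain ⟨K, hK, hKa⟩ := ha.image_ball_subset_compact (r := 2)
  have hKc : IsCompact ((dia : E →ₗᵢ[ℝ] UX E) '' K) := hK.image (dia : E →ₗᵢ[ℝ] UX E).continuous
  refine ⟨(dia : E →ₗᵢ[ℝ] UX E) '' K, hKc, ?_⟩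
  refine Filter.mem_of_superset (ball_mem_nhds (0 : UX E) one_pos) ?_
  intro u hu
  rw [mem_ball_zero_iff] at hu
  obtain ⟨x, hx, rfl⟩ := exists_cl u
  have h1 : ∀ᶠ i in (hyperfilter ℕ : Filter ℕ), ‖x i‖ < 2 :=
    (cl_norm hx).eventually_lt_const (by linarith)
  have h2 : ∀ᶠ i in (hyperfilter ℕ : Filter ℕ), a (x i) ∈ K := by
    filter_upwards [h1] with i hi
    exact hKa ⟨x i, by rwa [mem_ball_zero_iff], rfl⟩
  have h3 : ((hyperfilter ℕ).map fun i => a (x i)) ≤ 𝓟 K := by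
    rw [le_principal_iff]
    exact h2
  obtain ⟨c, hcK, hc⟩ := hK.ultrafilter_le_nhds _ h3
  refine ⟨c, hcK, ?_⟩
  rw [dia_apply, tw_cl, cl_eq]
  have h4 : Tendsto (fun i => a (x i)) (hyperfilter ℕ : Filter ℕ) (𝓝 c) := hc
  have h5 := (tendsto_const_nhds (x := c) (f := (hyperfilter ℕ : Filter ℕ))).sub h4
  rw [sub_self] at h5
  simpa using h5.norm

lemma op_twi_const (T : E ≃ₗᵢ[ℝ] E) :
    op (twi fun _ : ℕ => T) - 1 = tw (fun _ : ℕ => op T - 1) (BF.const _) := by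
  have h1 : op (twi fun _ : ℕ => T) = tw (fun _ : ℕ => op T) (BF.op fun _ => T) := by
    ext u; rfl
  have h2 : tw (fun _ : ℕ => op T) (BF.const _) =
      tw (fun _ : ℕ => (op T - 1) + (1 : E →L[ℝ] E)) ((BF.const (op T - 1)).add (BF.const 1)) := by
    congr 1
    funext i
    rw [sub_add_cancel]
  rw [h1, h2, tw_add (BF.const _) (BF.const _), tw_one, add_sub_cancel_right]

lemma quasi_pos [Nontrivial E] (S : E ≃ₗᵢ[ℝ] E) {ε : ℝ} (hε : ‖op S - 1‖ = ε) (h0 : 0 < ε) {s : ℝ}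
    (hs0 : 0 ≤ s) (hs : s ≤ 1) : ‖1 + s • (ε⁻¹ • (op S - 1))‖ ≤ 1 + 3 * s ^ 2 + ε := by
  set L := op S - 1 with hL
  set n := ⌊s / ε⌋₊ with hn
  have hn1 : (n : ℝ) ≤ s / ε := Nat.floor_le (by positivity)
  have hn2 : s / ε < n + 1 := Nat.lt_floor_add_one _
  have hne : (n : ℝ) * ε ≤ s := by rwa [le_div_iff₀ h0] at hn1
  have hn0 : 0 ≤ (n : ℝ) * ε := by positivity
  have hSn : op (S ^ n) = (1 + L) ^ n := by
    rw [hL, add_sub_cancel]
    generalize n = m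
    induction m with
    | zero => rw [pow_zero, pow_zero, op_one]
    | succ m ih => rw [pow_succ, pow_succ, op_mul, ih]
  have h1 : ‖op (S ^ n) - 1 - (n : E →L[ℝ] E) * L‖ ≤ 3 * s ^ 2 := by
    rw [hSn]
    refine (pow_sub_bound L n).trans ?_
    rw [hε]
    have h2 := one_add_pow_le_exp h0.le n
    have h3 := exp_sub_le hn0
    have h4 : Real.exp (n * ε) ≤ 3 := by
      have : Real.exp (n * ε) ≤ Real.exp 1 := Real.exp_le_exp.2 (hne.trans hs)
      have := Real.exp_one_lt_d9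
      linarith
    have h5 : ((n : ℝ) * ε) ^ 2 * Real.exp (n * ε) ≤ s ^ 2 * 3 :=
      mul_le_mul (pow_le_pow_left₀ hn0 hne 2) h4 (Real.exp_pos _).le (sq_nonneg _)
    linarith
  have e : 1 + s • (ε⁻¹ • L) = op (S ^ n) - (op (S ^ n) - 1 - (n : E →L[ℝ] E) * L) +
      (s / ε - n) • L := by
    rw [← nsmul_eq_mul, smul_smul, sub_smul, ← div_eq_mul_inv, Nat.cast_smul_eq_nsmul]
    abel
  rw [e]
  have h6 : ‖(s / ε - n) • L‖ ≤ ε := by
    rw [norm_smul, hε, Real.norm_of_nonneg (by linarith)]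
    nlinarith
  have h7 : ‖op (S ^ n) - (op (S ^ n) - 1 - (n : E →L[ℝ] E) * L)‖ ≤ 1 + 3 * s ^ 2 :=
    (norm_sub_le _ _).trans (add_le_add (op_norm_le _) h1)
  exact (norm_add_le _ _).trans (add_le_add h7 h6)

lemma quasi [Nontrivial E] (S : E ≃ₗᵢ[ℝ] E) {ε : ℝ} (hε : ‖op S - 1‖ = ε) (h0 : 0 < ε) {s : ℝ}
    (hs : |s| ≤ 1) : ‖1 + s • (ε⁻¹ • (op S - 1))‖ ≤ 1 + 3 * s ^ 2 + 2 * ε := by
  rcases le_total 0 s with h | h
  · rw [abs_of_nonneg h] at hs
    have := quasi_pos S hε h0 h hs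
    linarith
  · rw [abs_of_nonpos h] at hs
    have e1 : op S⁻¹ - 1 = -(op S⁻¹ * (op S - 1)) := by
      rw [mul_sub, op_inv_mul]; noncomm_ring
    have hε' : ‖op S⁻¹ - 1‖ = ε := by
      refine le_antisymm ?_ ?_
      · rw [e1, norm_neg]
        refine (norm_mul_le _ _).trans ?_
        rw [hε]
        have := mul_le_mul_of_nonneg_right (op_norm_le S⁻¹) h0.le
        linarith
      · have e2 : op S - 1 = -(op S * (op S⁻¹ - 1)) := by
          rw [mul_sub, op_mul_inv]; noncomm_ring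
        rw [← hε, e2, norm_neg]
        refine (norm_mul_le _ _).trans ?_
        have := mul_le_mul_of_nonneg_right (op_norm_le S) (norm_nonneg (op S⁻¹ - 1))
        linarith
    have h1 := quasi_pos S⁻¹ hε' h0 (neg_nonneg.2 h) hs
    have e3 : (op S⁻¹ - 1) + (op S - 1) = op S⁻¹ * ((op S - 1) * (op S - 1)) := by
      have : op S⁻¹ * ((op S - 1) * (op S - 1)) = (op S⁻¹ * op S) * op S - 2 • (op S⁻¹ * op S) +
          op S⁻¹ := by noncomm_ring
      rw [this, op_inv_mul]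
      noncomm_ring
    have h2 : ‖(op S⁻¹ - 1) + (op S - 1)‖ ≤ ε * ε := by
      rw [e3]
      refine (norm_mul_le _ _).trans ?_
      have h3 : ‖(op S - 1) * (op S - 1)‖ ≤ ε * ε := by
        refine (norm_mul_le _ _).trans ?_
        rw [hε]
      calc ‖op S⁻¹‖ * ‖(op S - 1) * (op S - 1)‖ ≤ 1 * (ε * ε) :=
            mul_le_mul (op_norm_le _) h3 (norm_nonneg _) zero_le_one
        _ = ε * ε := one_mul _
    have e4 : 1 + s • (ε⁻¹ • (op S - 1)) = (1 + (-s) • (ε⁻¹ • (op S⁻¹ - 1))) +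
        (s * ε⁻¹) • ((op S⁻¹ - 1) + (op S - 1)) := by
      module
    rw [e4]
    refine (norm_add_le _ _).trans ?_
    have h4 : ‖(s * ε⁻¹) • ((op S⁻¹ - 1) + (op S - 1))‖ ≤ ε := by
      rw [norm_smul, norm_mul, norm_inv, Real.norm_of_nonneg h0.le, Real.norm_eq_abs]
      have h5 : |s| ≤ 1 := by rw [abs_of_nonpos h]; exact hs
      calc |s| * ε⁻¹ * ‖op S⁻¹ - 1 + (op S - 1)‖ ≤ 1 * ε⁻¹ * (ε * ε) :=
            mul_le_mul (mul_le_mul_of_nonneg_right h5 (by positivity)) h2 (norm_nonneg _)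
              (by positivity)
        _ = ε := by field_simp
    have h6 : (-s) ^ 2 = s ^ 2 := by ring
    rw [h6] at h1
    linarith

/-- **the ultrapower argument**: a compact perturbation of the identity, isometries near the
identity which do not move all vectors by the same amount, and an almost transitive norm -/
theorem parallelogram_of_near [CompleteSpace E] (hE : ¬ FiniteDimensional ℝ E)
    (hAT : AT (⊤ : Subgroup (E ≃ₗᵢ[ℝ] E))) (T : E ≃ₗᵢ[ℝ] E) (hT : op T - 1 ∈ KK E) (hT1 : T ≠ 1)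
    (S : ℕ → E ≃ₗᵢ[ℝ] E) (hS1 : ∀ k, S k ≠ 1)
    (hS0 : Tendsto (fun k => ‖op (S k) - 1‖) atTop (𝓝 0)) {c : ℝ} (hc : c < 1) (z : ℕ → E)
    (hz : ∀ k, ‖z k‖ = 1) (hSz : ∀ k, ‖S k (z k) - z k‖ ≤ c * ‖op (S k) - 1‖)
    (x y : E) : ‖x + y‖ ^ 2 + ‖x - y‖ ^ 2 = 2 * ‖x‖ ^ 2 + 2 * ‖y‖ ^ 2 := by
  haveI : Nontrivial E := by
    by_contra hc
    rw [not_nontrivial_iff_subsingleton] at hc
    exact hE inferInstance
  have hpos : ∀ k, 0 < ‖op (S k) - 1‖ := by
    intro k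
    rw [norm_pos_iff, sub_ne_zero]
    intro h
    rw [← op_one] at h
    exact hS1 k (op_injective h)
  set D : ℕ → E →L[ℝ] E := fun k => ‖op (S k) - 1‖⁻¹ • (op (S k) - 1) with hDdef
  have hD1 : ∀ k, ‖D k‖ = 1 := by
    intro k
    show ‖‖op (S k) - 1‖⁻¹ • (op (S k) - 1)‖ = 1
    rw [norm_smul, norm_inv, norm_norm, inv_mul_cancel₀ (hpos k).ne']
  have hDb : BF D := ⟨1, fun k => (hD1 k).le⟩
  -- the limit operator generates isometries
  have hBq : Bq (tw D hDb) := by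
    refine Bq_of_le (C := 3) fun s hs => ?_
    refine le_of_forall_pos_le_add fun δ hδ => ?_
    have e1 : 1 + s • tw D hDb = tw (fun k => 1 + s • D k) ((BF.const 1).add (hDb.smul s)) := by
      rw [tw_add (BF.const 1) (hDb.smul s), tw_one, tw_smul hDb s]
    rw [e1]
    refine tw_norm_le _ (by positivity) ?_
    have h1 : ∀ᶠ k in (hyperfilter ℕ : Filter ℕ), ‖op (S k) - 1‖ < δ / 2 :=
      (hS0.mono_left hyp_le).eventually_lt_const (by positivity)
    filter_upwards [h1] with k hk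
    have h2 := quasi (S k) rfl (hpos k) hs
    have h3 : ‖1 + s • D k‖ ≤ 1 + 3 * s ^ 2 + 2 * ‖op (S k) - 1‖ := h2
    linarith
  -- its norm is one
  have hne : 1 ≤ ‖tw D hDb‖ := by
    refine le_of_forall_pos_lt_add fun δ hδ => ?_
    have h1 : ∀ k, ∃ v : E, ‖v‖ ≤ 1 ∧ 1 - δ / 2 ≤ ‖D k v‖ := by
      intro k
      by_contra hcon
      push Not at hcon
      have h3 : 0 ≤ 1 - δ / 2 := by
        have := hcon 0 (by simp)
        simp only [map_zero, norm_zero] at this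
        exact this.le
      have : ‖D k‖ ≤ 1 - δ / 2 := by
        refine ContinuousLinearMap.opNorm_le_of_unit_norm h3 fun v hv => ?_
        exact (hcon v hv.le).le
      rw [hD1 k] at this
      linarith
    choose v hv hv2 using h1
    have h2 : 1 - δ / 2 ≤ ‖tw D hDb (cl v ⟨1, hv⟩)‖ := by
      rw [tw_cl]
      exact le_cl_norm _ (Eventually.of_forall hv2)
    have h3 : ‖cl v ⟨1, hv⟩‖ ≤ 1 := cl_norm_le _ (Eventually.of_forall hv)
    have h4 := (tw D hDb).le_opNorm (cl v ⟨1, hv⟩)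
    have h5 : ‖tw D hDb‖ * ‖cl v ⟨1, hv⟩‖ ≤ ‖tw D hDb‖ * 1 :=
      mul_le_mul_of_nonneg_left h3 (norm_nonneg _)
    linarith
  -- it is not a homothety
  have hb : BF z := ⟨1, fun k => (hz k).le⟩
  have hz1 : ‖cl z hb‖ = 1 := le_antisymm (cl_norm_le hb (Eventually.of_forall fun k => (hz k).le))
    (le_cl_norm hb (Eventually.of_forall fun k => (hz k).ge))
  have hDz : ‖tw D hDb (cl z hb)‖ ≤ c := by
    rw [tw_cl]
    refine cl_norm_le _ (Eventually.of_forall fun k => ?_)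
    show ‖‖op (S k) - 1‖⁻¹ • (S k (z k) - z k)‖ ≤ c
    rw [norm_smul, norm_inv, norm_norm, inv_mul_le_iff₀ (hpos k), mul_comm]
    exact hSz k
  have hTc : op (twi fun _ : ℕ => T) - 1 ∈ KK (UX E) := by
    rw [op_twi_const]
    exact tw_const_compact hT
  have hT1' : (twi fun _ : ℕ => T) ≠ 1 := by
    intro h
    apply hT1
    ext v
    have h1 : (twi fun _ : ℕ => T) (dia v) = dia v := by rw [h]; rfl
    have h2 : (twi fun _ : ℕ => T) (dia v) = dia (T v) := rfl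
    rw [h2] at h1
    exact (dia (E := E)).injective h1
  have h := stepX (UX_infinite hE) (UX_transitive hAT (hz 0)) (twi fun _ : ℕ => T) hTc hT1' hBq
    (z := cl z hb) (by rw [hz1, mul_one]; linarith) (dia x) (dia y)
  rwa [← map_add, ← map_sub, (dia (E := E)).norm_map, (dia (E := E)).norm_map,
    (dia (E := E)).norm_map, (dia (E := E)).norm_map] at h

/-- small compact perturbations of the identity and an almost transitive norm give the
parallelogram law -/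
theorem parallelogram_of_seq [CompleteSpace E] (hE : ¬ FiniteDimensional ℝ E)
    (hAT : AT (⊤ : Subgroup (E ≃ₗᵢ[ℝ] E))) (S : ℕ → E ≃ₗᵢ[ℝ] E) (hS1 : ∀ k, S k ≠ 1)
    (hSK : ∀ k, op (S k) - 1 ∈ KK E) (hS0 : Tendsto (fun k => ‖op (S k) - 1‖) atTop (𝓝 0))
    (x y : E) : ‖x + y‖ ^ 2 + ‖x - y‖ ^ 2 = 2 * ‖x‖ ^ 2 + 2 * ‖y‖ ^ 2 := by
  have h : ∀ k, ∃ z : E, ‖z‖ = 1 ∧ ‖(op (S k) - 1) z‖ < 1 / 2 * ‖op (S k) - 1‖ := by
    intro k
    have hpos : 0 < ‖op (S k) - 1‖ := by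
      rw [norm_pos_iff, sub_ne_zero]
      intro h
      rw [← op_one] at h
      exact hS1 k (op_injective h)
    exact KK_small hE (hSK k) (by positivity)
  choose z hz hz2 using h
  exact parallelogram_of_near hE hAT (S 0) (hSK 0) (hS1 0) S hS1 hS0 (c := 1 / 2) (by norm_num) z hz
    (fun k => (hz2 k).le) x y

end

end Pool.Agent.V5helper96.BM
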