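import Pool.Agent.TH596.RO.LaC
import Pool.Agent.V5helper96.BM.Ult2

/-!
# One compact perturbation of the identity gives arbitrarily small ones
-/

set_option autoImplicit false

namespace Pool.Agent.V5helper96.BM

open Filter Topology Metric
open Pool.H590R3.Ab (op op_apply op_mul op_one op_norm_le)
open Pool.Agent.TH596.RO (cj AT DD)

section
variable {E : Type*} [NormedAddCommGroup E] [NormedSpace ℝ E]

lemma small_from_sq (S : E ≃ₗᵢ[ℝ] E) {γ : ℝ} (hγ : ‖(op S - 1) * (op S - 1)‖ ≤ γ) (n : ℕ) :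
    n * ‖op S - 1‖ ≤ 2 + n ^ 2 * γ := by
  have hγ0 : 0 ≤ γ := (norm_nonneg _).trans hγ
  set L := op S - 1 with hL
  have key : ∀ n : ℕ, ‖op (S ^ n) - 1 - n • L‖ ≤ n ^ 2 * γ := by
    intro n
    induction n with
    | zero => rw [pow_zero, op_one]; simp
    | succ n ih =>
      have e : op (S ^ (n + 1)) - 1 - (n + 1) • L =
          op S * (op (S ^ n) - 1 - n • L) + n • (L * L) := by
        have hS : op S = 1 + L := by rw [hL, add_sub_cancel]
        have h1 : op (S ^ (n + 1)) = op S * op (S ^ n) := by rw [← op_mul, pow_succ']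
        rw [h1, hS, succ_nsmul]
        simp only [mul_sub, add_mul, one_mul, mul_one, mul_smul_comm, smul_add]
        abel
      rw [e]
      refine (norm_add_le _ _).trans ?_
      have h1 : ‖op S * (op (S ^ n) - 1 - n • L)‖ ≤ n ^ 2 * γ := by
        refine (norm_mul_le _ _).trans ?_
        calc ‖op S‖ * ‖op (S ^ n) - 1 - n • L‖ ≤ 1 * (n ^ 2 * γ) :=
              mul_le_mul (op_norm_le S) ih (norm_nonneg _) zero_le_one
          _ = n ^ 2 * γ := one_mul _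
      have h2 : ‖n • (L * L)‖ ≤ n * γ := by
        refine norm_nsmul_le.trans ?_
        exact mul_le_mul_of_nonneg_left hγ (Nat.cast_nonneg n)
      push_cast
      nlinarith [mul_nonneg (Nat.cast_nonneg (α := ℝ) n) hγ0]
  have h1 : ‖n • L‖ = n * ‖L‖ := by
    rw [← Nat.cast_smul_eq_nsmul ℝ, norm_smul, Real.norm_of_nonneg (Nat.cast_nonneg n)]
  have e : n • L = (op (S ^ n) - 1) - (op (S ^ n) - 1 - n • L) := by abel
  rw [← h1, e]
  refine (norm_sub_le _ _).trans (add_le_add ?_ (key n))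
  refine (norm_sub_le _ _).trans ?_
  have := op_norm_le (S ^ n)
  have := norm_one_le (E := E)
  linarith

lemma net {K : E →L[ℝ] E} (hK : K ∈ KK E) {η : ℝ} (hη : 0 < η) :
    ∃ t : Set E, t.Finite ∧ ∀ g : E ≃ₗᵢ[ℝ] E, (∀ x ∈ t, ‖g x - x‖ ≤ η) →
      ‖(op g - 1) * K‖ ≤ 3 * η := by
  rw [mem_KK] at hK
  obtain ⟨C, hC, hCK⟩ := hK.image_closedBall_subset_compact (r := 1)
  obtain ⟨t, -, htf, ht⟩ := hC.finite_cover_balls hη
  refine ⟨t, htf, fun g hg => ?_⟩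
  refine ContinuousLinearMap.opNorm_le_of_unit_norm (by positivity) fun x hx => ?_
  have h1 : K x ∈ C := hCK ⟨x, by rw [mem_closedBall_zero_iff]; exact hx.le, rfl⟩
  obtain ⟨y, hy, hxy⟩ := Set.mem_iUnion₂.1 (ht h1)
  rw [mem_ball, dist_eq_norm] at hxy
  have e : ((op g - 1) * K) x = g (K x - y) + (g y - y) - (K x - y) := by
    show g (K x) - K x = _
    rw [map_sub]; abel
  rw [e]
  have h2 := norm_sub_le (g (K x - y) + (g y - y)) (K x - y)
  have h3 := norm_add_le (g (K x - y)) (g y - y)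
  rw [g.norm_map] at h3
  have h4 := hg y hy
  linarith

lemma op_not_mem_DD [CompleteSpace E] (hE : ¬ FiniteDimensional ℝ E)
    (hAT : AT (⊤ : Subgroup (E ≃ₗᵢ[ℝ] E))) (T : E ≃ₗᵢ[ℝ] E) (hT : op T - 1 ∈ KK E) (hT1 : T ≠ 1) :
    op T ∉ DD (⊤ : Subgroup (E ≃ₗᵢ[ℝ] E)) := by
  intro h
  haveI : Nontrivial E := by
    by_contra hc
    rw [not_nontrivial_iff_subsingleton] at hc
    exact hE inferInstance
  have h1 : op T - 1 ∈ DD (⊤ : Subgroup (E ≃ₗᵢ[ℝ] E)) := Subalgebra.sub_mem _ h (Subalgebra.one_mem _)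
  have h2 : 0 < ‖op T - 1‖ := by
    rw [norm_pos_iff, sub_ne_zero]
    intro h
    rw [← op_one] at h
    exact hT1 (op_injective h)
  obtain ⟨z, hz, hz2⟩ := KK_small hE hT h2
  have h3 := (Pool.Agent.TH596.RO.core_DD hE hAT).2 _ h1 z
  rw [hz, mul_one] at h3
  linarith

/-- **small compact perturbations** -/
theorem exists_small [CompleteSpace E] [TopologicalSpace.SeparableSpace E]
    (hE : ¬ FiniteDimensional ℝ E)
    (htr : ∀ x y : E, ‖x‖ = 1 → ‖y‖ = 1 → ∃ g : E ≃ₗᵢ[ℝ] E, g x = y)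
    (T : E ≃ₗᵢ[ℝ] E) (hT : op T - 1 ∈ KK E) (hT1 : T ≠ 1) {ε : ℝ} (hε : 0 < ε) :
    ∃ S : E ≃ₗᵢ[ℝ] E, S ≠ 1 ∧ op S - 1 ∈ KK E ∧ ‖op S - 1‖ < ε := by
  have hAT : AT (⊤ : Subgroup (E ≃ₗᵢ[ℝ] E)) := by
    intro x y hx hy ε hε
    obtain ⟨g, hg⟩ := htr x y hx hy
    exact ⟨g, Subgroup.mem_top _, by rw [hg, sub_self, norm_zero]; exact hε⟩
  set K := op T - 1 with hKdef
  -- the parameters
  obtain ⟨n, hn⟩ := exists_nat_gt (4 / ε)
  have hn0 : (0 : ℝ) < n := lt_trans (by positivity) hn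
  set η : ℝ := ε / (120 * n) with hη
  have hη0 : 0 < η := by positivity
  obtain ⟨t1, ht1, h1⟩ := net hT hη0
  obtain ⟨t2, ht2, h2⟩ := net (KK_mul_left (b := op T⁻¹) hT) hη0
  have htf : (t1 ∪ t2).Finite := ht1.union ht2
  obtain ⟨t, ht⟩ := htf.exists_finset_coe
  obtain ⟨g, hg, hgT⟩ : ∃ g : E ≃ₗᵢ[ℝ] E, (∀ x ∈ t1 ∪ t2, ‖g x - x‖ ≤ η) ∧
      (g * T * g⁻¹) * T ≠ T * (g * T * g⁻¹) := by
    by_contra hcon
    push Not at hcon
    refine op_not_mem_DD hE hAT T hT hT1 ?_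
    refine Pool.Agent.TH596.RO.loc_single hE (G := ⊤)
      (fun x y hx hy => by
        obtain ⟨g, hg⟩ := htr x y hx hy
        exact ⟨g, Subgroup.mem_top _, hg⟩) T
      (fun i : Fin t.card => ((t.equivFin.symm i : t) : E)) hη0 fun g _ hgf => ?_
    refine hcon g fun x hx => ?_
    rw [← ht] at hx
    have := hgf (t.equivFin ⟨x, hx⟩)
    rwa [Equiv.symm_apply_apply] at this
  set S := (g * T * g⁻¹) * T⁻¹ with hSdef
  have hS1 : S ≠ 1 := by
    intro h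
    apply hgT
    have h3 : g * T * g⁻¹ = T := by
      rw [hSdef, mul_inv_eq_one] at h
      exact h
    rw [h3]
  have hSK : op S - 1 ∈ KK E := KK_op_mul (KK_op_conj hT g) (KK_op_inv hT)
  refine ⟨S, hS1, hSK, ?_⟩
  -- the decomposition
  set A : E →L[ℝ] E := (op g - 1) * K * op (g⁻¹ * T⁻¹) with hA
  set B : E →L[ℝ] E := (1 - op g⁻¹) * op T⁻¹ with hB
  have hα : ‖(op g - 1) * K‖ ≤ 3 * η := h1 g fun x hx => hg x (Or.inl hx)
  have hβ : ‖(op g - 1) * (op T⁻¹ * K)‖ ≤ 3 * η := h2 g fun x hx => hg x (Or.inr hx)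
  have hAn : ‖A‖ ≤ 3 * η := by
    refine (norm_mul_le _ _).trans ?_
    calc ‖(op g - 1) * K‖ * ‖op (g⁻¹ * T⁻¹)‖ ≤ (3 * η) * 1 :=
          mul_le_mul hα (op_norm_le _) (norm_nonneg _) (by positivity)
      _ = 3 * η := mul_one _
  have hBK : ‖B * K‖ ≤ 3 * η := by
    have e : B * K = op g⁻¹ * ((op g - 1) * (op T⁻¹ * K)) := by
      have e0 : op g⁻¹ * (op g - 1) = 1 - op g⁻¹ := by rw [mul_sub, op_inv_mul, mul_one]
      rw [hB, ← e0]
      simp only [mul_assoc]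
    rw [e]
    refine (norm_mul_le _ _).trans ?_
    calc ‖op g⁻¹‖ * ‖(op g - 1) * (op T⁻¹ * K)‖ ≤ 1 * (3 * η) :=
          mul_le_mul (op_norm_le _) hβ (norm_nonneg _) zero_le_one
      _ = 3 * η := one_mul _
  have htwo : ∀ V : E ≃ₗᵢ[ℝ] E, ‖op V - 1‖ ≤ 2 := by
    intro V
    refine (norm_sub_le _ _).trans ?_
    have := op_norm_le V
    have := norm_one_le (E := E)
    linarith
  have hK2 : ‖K‖ ≤ 2 := htwo T
  have hB2 : ‖B‖ ≤ 2 := by
    refine (norm_mul_le _ _).trans ?_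
    have e : ‖(1 : E →L[ℝ] E) - op g⁻¹‖ ≤ 2 := by rw [norm_sub_rev]; exact htwo _
    calc ‖(1 : E →L[ℝ] E) - op g⁻¹‖ * ‖op T⁻¹‖ ≤ 2 * 1 :=
          mul_le_mul e (op_norm_le _) (norm_nonneg _) (by norm_num)
      _ = 2 := mul_one _
  set L := op S - 1 with hL
  have hL2 : ‖L‖ ≤ 2 := htwo S
  have hLe : L = A - K * B := by
    have e1 : op T = 1 + K := by rw [hKdef, add_sub_cancel]
    have e2 : op S = op g * op T * op g⁻¹ * op T⁻¹ := by
      rw [hSdef, op_mul, op_mul, op_mul]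
    have e3 : op (g⁻¹ * T⁻¹) = op g⁻¹ * op T⁻¹ := op_mul _ _
    have e4 : (1 : E →L[ℝ] E) = op T * op T⁻¹ := (op_mul_inv T).symm
    have e5 : op g * op T * op g⁻¹ = 1 + op g * K * op g⁻¹ := by
      rw [e1, mul_add, mul_one, add_mul, op_mul_inv]
    rw [hL, e2, e5, hA, hB, e3]
    have e6 : (1 + op g * K * op g⁻¹) * op T⁻¹ - 1 =
        (1 + op g * K * op g⁻¹) * op T⁻¹ - (1 + K) * op T⁻¹ := by
      rw [← e1, ← e4]
    rw [e6]
    noncomm_ring
  have hsq : ‖L * L‖ ≤ 30 * η := by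
    have e : L * L = A * L - K * (B * A) + K * (B * K) * B := by
      conv_lhs => rw [hLe]
      rw [sub_mul, mul_sub A A, mul_sub (K * B), hLe]
      noncomm_ring
    rw [e]
    refine (norm_add_le _ _).trans ?_
    have i1 : ‖A * L‖ ≤ (3 * η) * 2 := (norm_mul_le _ _).trans
      (mul_le_mul hAn hL2 (norm_nonneg _) (by positivity))
    have i2 : ‖K * (B * A)‖ ≤ 2 * (2 * (3 * η)) := (norm_mul_le _ _).trans
      (mul_le_mul hK2 ((norm_mul_le _ _).trans (mul_le_mul hB2 hAn (norm_nonneg _) (by norm_num)))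
        (norm_nonneg _) (by norm_num))
    have i3 : ‖K * (B * K) * B‖ ≤ (2 * (3 * η)) * 2 := (norm_mul_le _ _).trans
      (mul_le_mul ((norm_mul_le _ _).trans (mul_le_mul hK2 hBK (norm_nonneg _) (by norm_num))) hB2
        (norm_nonneg _) (by positivity))
    have i4 := norm_sub_le (A * L) (K * (B * A))
    linarith
  have hfin := small_from_sq S hsq n
  rw [← hL] at hfin
  have h5 : (n : ℝ) ^ 2 * (30 * η) = n * (ε / 4) := by
    rw [hη]; field_simp; norm_num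
  rw [h5] at hfin
  have h6 : 4 < n * ε := by rwa [div_lt_iff₀ hε] at hn
  by_contra hcon
  push Not at hcon
  have h7 : n * ε ≤ n * ‖L‖ := mul_le_mul_of_nonneg_left hcon hn0.le
  nlinarith

/-- **transitive separable case** -/
theorem parallelogram_of_one [CompleteSpace E] [TopologicalSpace.SeparableSpace E]
    (hE : ¬ FiniteDimensional ℝ E)
    (htr : ∀ x y : E, ‖x‖ = 1 → ‖y‖ = 1 → ∃ g : E ≃ₗᵢ[ℝ] E, g x = y)
    (T : E ≃ₗᵢ[ℝ] E) (hT : op T - 1 ∈ KK E) (hT1 : T ≠ 1) (x y : E) :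
    ‖x + y‖ ^ 2 + ‖x - y‖ ^ 2 = 2 * ‖x‖ ^ 2 + 2 * ‖y‖ ^ 2 := by
  have hAT : AT (⊤ : Subgroup (E ≃ₗᵢ[ℝ] E)) := by
    intro x y hx hy ε hε
    obtain ⟨g, hg⟩ := htr x y hx hy
    exact ⟨g, Subgroup.mem_top _, by rw [hg, sub_self, norm_zero]; exact hε⟩
  have h := fun k : ℕ => exists_small hE htr T hT hT1 (ε := 1 / ((k : ℝ) + 1)) (by positivity)
  choose S hS1 hSK hSe using h
  exact parallelogram_of_seq hE hAT S hS1 hSK
    (squeeze_zero (fun _ => norm_nonneg _) (fun k => (hSe k).le)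
      tendsto_one_div_add_atTop_nhds_zero_nat) x y

end

end Pool.Agent.V5helper96.BM
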