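import Pool.Agent.V5helper96.BM.Form
import Pool.Agent.TH596.RO.Main

/-!
# Transitive norm, a compact perturbation of the identity and a generator which is not a homothety
-/

set_option autoImplicit false

namespace Pool.Agent.V5helper96.BM

open Filter Topology
open Pool.H590R3.Ab
open Pool.Agent.TH596.RO (cj cj_apply norm_cj AT DD)

section
variable {X : Type*} [NormedAddCommGroup X] [NormedSpace ℝ X] [CompleteSpace X]

/-- a nontrivial compact perturbation of the identity has a nonzero bump of finite rank -/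
lemma exists_FR (T : X ≃ₗᵢ[ℝ] X) (hT : op T - 1 ∈ KK X) (hT1 : T ≠ 1) :
    ∃ a : ℤ → ℝ, (Summable fun k => |a k|) ∧ 1 - Fop T a ≠ 0 ∧ FR (1 - Fop T a) := by
  obtain ⟨a, ha, ha1, hab, hε⟩ := bumps
  obtain ⟨n, hn⟩ : ∃ n, 1 - Fop T (a n) ≠ 0 := by
    by_contra hcon
    push Not at hcon
    apply hT1
    have h0 : Co T - (1 : ℝ) • 1 = 0 := by
      rw [← norm_le_zero_iff]
      refine le_of_forall_pos_le_add fun δ hδ => ?_
      obtain ⟨n0, hn0⟩ := hε δ hδ
      have h1 : Fop T (a n0) = 1 := (sub_eq_zero.1 (hcon n0)).symm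
      have h2 : Co T - (1 : ℝ) • 1 = (Co T - (1 : ℝ) • 1) * Fop T (a n0) := by rw [h1, mul_one]
      rw [h2, Co_mul_Fop T (ha n0) 1, zero_add]
      have hs : Summable fun k : ℤ => |(a n0 (k - 1) + a n0 (k + 1)) / 2 - 1 * a n0 k| := by
        have s1 : Summable fun k : ℤ => |a n0 (k - 1)| := summable_shift (ha n0) (-1)
        have s2 : Summable fun k : ℤ => |a n0 (k + 1)| := summable_shift (ha n0) 1
        refine Summable.of_nonneg_of_le (fun _ => abs_nonneg _) (fun k => ?_)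
          (((s1.add s2).div_const 2).add (ha n0))
        rw [one_mul]
        refine (abs_sub _ _).trans (add_le_add ?_ le_rfl)
        rw [abs_div, abs_of_pos (by norm_num : (0 : ℝ) < 2)]
        exact div_le_div_of_nonneg_right (abs_add_le _ _) (by norm_num)
      refine (Fop_norm_le T hs).trans ?_
      simpa using hn0 n0 le_rfl
    ext y
    exact fix_of_Co T y (by rw [h0]; rfl)
  refine ⟨a n, ha n, hn, FR_one_sub T hT (ha (n + 1)) (ha1 (n + 1)) ?_⟩
  rw [mul_sub, mul_one, Fop_comm T (ha (n + 1)) (ha n),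
    Fop_mul T (ha n) (ha (n + 1)) (hab n (n + 1) (Nat.lt_succ_self n)), sub_self]

lemma cj_fix_zpow {U : X ≃ₗᵢ[ℝ] X} {D : X →L[ℝ] X} (h : cj U D = D) (k : ℤ) : cj (U ^ k) D = D := by
  let S : Subgroup (X ≃ₗᵢ[ℝ] X) :=
    { carrier := {V | cj V D = D}
      mul_mem' := by
        intro V V' hV hV'
        show cj (V * V') D = D
        rw [cj_mul, hV', hV]
      one_mem' := cj_one D
      inv_mem' := by
        intro V hV
        show cj V⁻¹ D = D
        conv_lhs => rw [← (hV : cj V D = D)]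
        rw [← cj_mul, inv_mul_cancel, cj_one] }
  have hU : U ∈ S := h
  exact S.zpow_mem hU k

lemma comm_of_cj {U : X ≃ₗᵢ[ℝ] X} {D : X →L[ℝ] X} (h : cj U D = D) : D * op U = op U * D := by
  have h1 : op U * D * op U⁻¹ = D := h
  calc D * op U = (op U * D * op U⁻¹) * op U := by rw [h1]
    _ = op U * D := by rw [mul_assoc, op_inv_mul, mul_one]

/-- **the structural theorem** -/
theorem stepX (hX : ¬ FiniteDimensional ℝ X)
    (htr : ∀ x y : X, ‖x‖ = 1 → ‖y‖ = 1 → ∃ g : X ≃ₗᵢ[ℝ] X, g x = y)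
    (T : X ≃ₗᵢ[ℝ] X) (hT : op T - 1 ∈ KK X) (hT1 : T ≠ 1) {D : X →L[ℝ] X} (hD : Bq D)
    {z : X} (hDz : ‖D z‖ < ‖D‖ * ‖z‖) (x y : X) :
    ‖x + y‖ ^ 2 + ‖x - y‖ ^ 2 = 2 * ‖x‖ ^ 2 + 2 * ‖y‖ ^ 2 := by
  haveI : Nontrivial X := ⟨⟨z, 0, fun hz => by simp [hz] at hDz⟩⟩
  have hDg : D ∈ gg X := mem_gg.2 hD
  have hAT : AT (⊤ : Subgroup (X ≃ₗᵢ[ℝ] X)) := by
    intro x y hx hy ε hε
    obtain ⟨g, hg⟩ := htr x y hx hy
    exact ⟨g, Subgroup.mem_top _, by rw [hg, sub_self, norm_zero]; exact hε⟩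
  obtain ⟨h, hh⟩ : ∃ h : X ≃ₗᵢ[ℝ] X, cj (h * T * h⁻¹) D ≠ D := by
    by_contra hcon
    push Not at hcon
    obtain ⟨a, ha, hR0, hRF⟩ := exists_FR T hT hT1
    set R := 1 - Fop T a with hR
    obtain ⟨u, hu⟩ : ∃ u, R u ≠ 0 := by
      by_contra hc
      push Not at hc
      exact hR0 (ContinuousLinearMap.ext hc)
    let N : Submodule ℝ (X →L[ℝ] X) :=
      { carrier := {c | ∀ h : X ≃ₗᵢ[ℝ] X, c * cj h R = cj h R * c}
        add_mem' := by
          intro c c' hc hc' h
          rw [add_mul, mul_add, hc, hc']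
        zero_mem' := by intro h; rw [zero_mul, mul_zero]
        smul_mem' := by
          intro r c hc h
          rw [smul_mul_assoc, mul_smul_comm, hc] }
    have hN : ∀ S ∈ (⊤ : Subgroup (X ≃ₗᵢ[ℝ] X)), ∀ c ∈ N, cj S c ∈ N := by
      intro S _ c hc h
      have e : cj h R = cj S (cj (S⁻¹ * h) R) := by
        rw [← cj_mul, mul_inv_cancel_left]
      rw [e, ← map_mul, ← map_mul, hc]
    have hDN : D ∈ N := by
      intro h
      have e : cj h R = 1 - Fop (h * T * h⁻¹) a := by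
        rw [hR, map_sub, map_one, cj_eq, Fop_conj T h ha]
      rw [e, mul_sub, sub_mul, mul_one, one_mul]
      congr 1
      exact Fop_comm_of _ ha D fun k => comm_of_cj (cj_fix_zpow (hcon h) k)
    haveI : FiniteDimensional ℝ (LinearMap.range (R : X →ₗ[ℝ] X)) := hRF
    have hDD : D ∈ DD (⊤ : Subgroup (X ≃ₗᵢ[ℝ] X)) :=
      Pool.Agent.TH596.RO.pt_op hX hAT hN hu
        (W := LinearMap.range (R : X →ₗ[ℝ] X)) inferInstance (fun c hc => by
          have h1 := hc 1
          rw [cj_one] at h1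
          have h2 : c (R u) = R (c u) := by
            show (c * R) u = (R * c) u
            rw [h1]
          rw [h2]
          exact ⟨c u, rfl⟩) hDN
    have h3 := (Pool.Agent.TH596.RO.core_DD hX hAT).2 D hDD z
    linarith
  obtain ⟨F, hFg, hF0, hFR⟩ := finrk (h * T * h⁻¹) (KK_op_conj hT h) hDg hh
  exact form_step hX htr hFg hF0 hFR x y

end

end Pool.Agent.V5helper96.BM
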