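import Pool.Agent.R287.UPa
import Pool.Agent.V5helper96.BM.StepX

/-!
# Passing to an ultrapower
-/

set_option autoImplicit false

namespace Pool.Agent.V5helper96.BM

open Filter Topology Metric
open scoped ENNReal
open Pool.H590R3.Ab (op op_apply op_mul op_one op_norm_le)
open Pool.Agent.R287.UP
open Pool.Agent.TH596.RO (cj AT DD)

section
variable (E : Type*) [NormedAddCommGroup E] [NormedSpace ℝ E]

/-- the ultrapower -/
abbrev UX : Type _ := UltraProd ℝ (hyperfilter ℕ) (fun _ : ℕ => E)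

noncomputable instance instCompleteUX [CompleteSpace E] : CompleteSpace (UX E) :=
  inferInstanceAs (CompleteSpace
    (lp (fun _ : ℕ => E) ∞ ⧸ nullFam ℝ (hyperfilter ℕ) (fun _ : ℕ => E)))

variable {E}

/-- bounded family -/
def BF {F : Type*} [NormedAddCommGroup F] (x : ℕ → F) : Prop := ∃ C : ℝ, ∀ i, ‖x i‖ ≤ C

lemma BF.add {F : Type*} [NormedAddCommGroup F] {x y : ℕ → F} (hx : BF x) (hy : BF y) :
    BF (fun i => x i + y i) := by
  obtain ⟨C, hC⟩ := hx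
  obtain ⟨C', hC'⟩ := hy
  exact ⟨C + C', fun i => (norm_add_le _ _).trans (add_le_add (hC i) (hC' i))⟩

lemma BF.smul {F : Type*} [NormedAddCommGroup F] [NormedSpace ℝ F] {x : ℕ → F} (hx : BF x) (c : ℝ) :
    BF (fun i => c • x i) := by
  obtain ⟨C, hC⟩ := hx
  exact ⟨‖c‖ * C, fun i => by
    rw [norm_smul]; exact mul_le_mul_of_nonneg_left (hC i) (norm_nonneg _)⟩

lemma BF.app {A : ℕ → E →L[ℝ] E} {x : ℕ → E} (hA : BF A) (hx : BF x) :
    BF (fun i => A i (x i)) := by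
  obtain ⟨C, hC⟩ := hA
  obtain ⟨C', hC'⟩ := hx
  exact ⟨C * C', fun i => ((A i).le_opNorm _).trans
    (mul_le_mul (hC i) (hC' i) (norm_nonneg _) ((norm_nonneg _).trans (hC i)))⟩

lemma BF.mul {A B : ℕ → E →L[ℝ] E} (hA : BF A) (hB : BF B) : BF (fun i => A i * B i) := by
  obtain ⟨C, hC⟩ := hA
  obtain ⟨C', hC'⟩ := hB
  exact ⟨C * C', fun i => (norm_mul_le _ _).trans
    (mul_le_mul (hC i) (hC' i) (norm_nonneg _) ((norm_nonneg _).trans (hC i)))⟩

lemma BF.const {F : Type*} [NormedAddCommGroup F] (x : F) : BF (fun _ : ℕ => x) := ⟨‖x‖, fun _ => le_rfl⟩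

lemma BF.op (g : ℕ → E ≃ₗᵢ[ℝ] E) : BF (fun i => Pool.H590R3.Ab.op (g i)) :=
  ⟨1, fun i => op_norm_le _⟩

/-- a bounded family as an element of `ℓ_∞` -/
def tolp (x : ℕ → E) (hx : BF x) : lp (fun _ : ℕ => E) ∞ :=
  ⟨x, memℓp_infty (by
    obtain ⟨C, hC⟩ := hx
    exact ⟨C, by rintro _ ⟨i, rfl⟩; exact hC i⟩)⟩

/-- the class of a bounded family -/
noncomputable def cl (x : ℕ → E) (hx : BF x) : UX E :=
  mk ℝ (hyperfilter ℕ) (fun _ => E) (tolp x hx)

lemma BF_lp (x : lp (fun _ : ℕ => E) ∞) : BF (fun i => x i) :=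
  ⟨‖x‖, fun i => lp.norm_apply_le_norm (by simp) x i⟩

lemma exists_cl (u : UX E) : ∃ x : ℕ → E, ∃ hx : BF x, cl x hx = u := by
  obtain ⟨y, hy⟩ := mk_surjective (𝕜 := ℝ) (U := hyperfilter ℕ) (X := fun _ : ℕ => E) u
  exact ⟨fun i => y i, BF_lp y, hy⟩

lemma cl_norm {x : ℕ → E} (hx : BF x) :
    Tendsto (fun i => ‖x i‖) (hyperfilter ℕ : Filter ℕ) (𝓝 ‖cl x hx‖) :=
  tendsto_norm (𝕜 := ℝ) (U := hyperfilter ℕ) (tolp x hx)

lemma cl_eq {x y : ℕ → E} {hx : BF x} {hy : BF y} :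
    cl x hx = cl y hy ↔ Tendsto (fun i => ‖x i - y i‖) (hyperfilter ℕ : Filter ℕ) (𝓝 0) :=
  mk_eq_mk (𝕜 := ℝ) (U := hyperfilter ℕ) (X := fun _ : ℕ => E)

lemma cl_add {x y : ℕ → E} (hx : BF x) (hy : BF y) :
    cl (fun i => x i + y i) (hx.add hy) = cl x hx + cl y hy :=
  (mk ℝ (hyperfilter ℕ) (fun _ : ℕ => E)).map_add (tolp x hx) (tolp y hy)

lemma cl_smul {x : ℕ → E} (hx : BF x) (c : ℝ) :
    cl (fun i => c • x i) (hx.smul c) = c • cl x hx :=
  (mk ℝ (hyperfilter ℕ) (fun _ : ℕ => E)).map_smul c (tolp x hx)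

lemma cl_norm_le {x : ℕ → E} (hx : BF x) {c : ℝ} (h : ∀ᶠ i in (hyperfilter ℕ : Filter ℕ), ‖x i‖ ≤ c) :
    ‖cl x hx‖ ≤ c := le_of_tendsto (cl_norm hx) h

lemma le_cl_norm {x : ℕ → E} (hx : BF x) {c : ℝ} (h : ∀ᶠ i in (hyperfilter ℕ : Filter ℕ), c ≤ ‖x i‖) :
    c ≤ ‖cl x hx‖ := ge_of_tendsto (cl_norm hx) h

/-- termwise operator on `ℓ_∞` -/
def twl (A : ℕ → E →L[ℝ] E) (hA : BF A) :
    lp (fun _ : ℕ => E) ∞ →ₗ[ℝ] lp (fun _ : ℕ => E) ∞ where
  toFun x := tolp (fun i => A i (x i)) (hA.app (BF_lp x))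
  map_add' x y := by
    ext i
    show A i ((x + y) i) = A i (x i) + A i (y i)
    rw [lp.coeFn_add, Pi.add_apply, map_add]
  map_smul' c x := by
    ext i
    show A i ((c • x) i) = c • A i (x i)
    rw [lp.coeFn_smul, Pi.smul_apply, map_smul]

/-- termwise operator on the ultrapower, as a linear map -/
noncomputable def twq (A : ℕ → E →L[ℝ] E) (hA : BF A) : UX E →ₗ[ℝ] UX E :=
  Submodule.liftQ (nullFam ℝ (hyperfilter ℕ) (fun _ : ℕ => E))
    ((mk ℝ (hyperfilter ℕ) (fun _ : ℕ => E)).comp (twl A hA)) (by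
      intro x hx
      rw [LinearMap.mem_ker, LinearMap.comp_apply]
      have h0 : (mk ℝ (hyperfilter ℕ) (fun _ : ℕ => E)) 0 = 0 := map_zero _
      rw [← h0, mk_eq_mk, sub_zero, mem_nullFam]
      rw [mem_nullFam] at hx
      obtain ⟨C, hC⟩ := hA
      have h1 : Tendsto (fun i => C * ‖x i‖) (hyperfilter ℕ : Filter ℕ) (𝓝 0) := by
        simpa using hx.const_mul C
      refine squeeze_zero (fun i => norm_nonneg _) (fun i => ?_) h1
      exact ((A i).le_opNorm _).trans (mul_le_mul_of_nonneg_right (hC i) (norm_nonneg _)))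

lemma twq_cl {A : ℕ → E →L[ℝ] E} (hA : BF A) {x : ℕ → E} (hx : BF x) :
    twq A hA (cl x hx) = cl (fun i => A i (x i)) (hA.app hx) := rfl

/-- termwise operator on the ultrapower -/
noncomputable def tw (A : ℕ → E →L[ℝ] E) (hA : BF A) : UX E →L[ℝ] UX E :=
  LinearMap.mkContinuousOfExistsBound (twq A hA) (by
    obtain ⟨C, hC⟩ := hA
    refine ⟨C, fun u => ?_⟩
    obtain ⟨x, hx, rfl⟩ := exists_cl u
    rw [twq_cl]
    refine le_of_tendsto_of_tendsto (cl_norm _) ((cl_norm hx).const_mul C)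
      (Eventually.of_forall fun i => ?_)
    exact ((A i).le_opNorm _).trans (mul_le_mul_of_nonneg_right (hC i) (norm_nonneg _)))

lemma tw_cl {A : ℕ → E →L[ℝ] E} (hA : BF A) {x : ℕ → E} (hx : BF x) :
    tw A hA (cl x hx) = cl (fun i => A i (x i)) (hA.app hx) := rfl

lemma tw_norm_le {A : ℕ → E →L[ℝ] E} (hA : BF A) {c : ℝ} (hc : 0 ≤ c)
    (h : ∀ᶠ i in (hyperfilter ℕ : Filter ℕ), ‖A i‖ ≤ c) : ‖tw A hA‖ ≤ c := by
  refine ContinuousLinearMap.opNorm_le_bound _ hc fun u => ?_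
  obtain ⟨x, hx, rfl⟩ := exists_cl u
  rw [tw_cl]
  refine le_of_tendsto_of_tendsto (cl_norm _) ((cl_norm hx).const_mul c) ?_
  filter_upwards [h] with i hi
  exact ((A i).le_opNorm _).trans (mul_le_mul_of_nonneg_right hi (norm_nonneg _))

lemma tw_add {A B : ℕ → E →L[ℝ] E} (hA : BF A) (hB : BF B) :
    tw (fun i => A i + B i) (hA.add hB) = tw A hA + tw B hB := by
  ext u
  obtain ⟨x, hx, rfl⟩ := exists_cl u
  rw [ContinuousLinearMap.add_apply, tw_cl, tw_cl, tw_cl, ← cl_add]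
  rfl

lemma tw_smul {A : ℕ → E →L[ℝ] E} (hA : BF A) (c : ℝ) :
    tw (fun i => c • A i) (hA.smul c) = c • tw A hA := by
  ext u
  obtain ⟨x, hx, rfl⟩ := exists_cl u
  rw [ContinuousLinearMap.smul_apply, tw_cl, tw_cl, ← cl_smul]
  rfl

lemma tw_one : tw (fun _ : ℕ => (1 : E →L[ℝ] E)) (BF.const _) = 1 := by
  ext u
  obtain ⟨x, hx, rfl⟩ := exists_cl u
  rfl

/-- termwise isometry -/
noncomputable def twi (g : ℕ → E ≃ₗᵢ[ℝ] E) : UX E ≃ₗᵢ[ℝ] UX E where
  toFun := tw (fun i => op (g i)) (BF.op g)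
  invFun := tw (fun i => op (g i)⁻¹) (BF.op _)
  map_add' := map_add _
  map_smul' := map_smul _
  left_inv := by
    intro u
    obtain ⟨x, hx, rfl⟩ := exists_cl u
    rw [tw_cl, tw_cl]
    congr 1
    funext i
    exact (g i).symm_apply_apply (x i)
  right_inv := by
    intro u
    obtain ⟨x, hx, rfl⟩ := exists_cl u
    rw [tw_cl, tw_cl]
    congr 1
    funext i
    exact (g i).apply_symm_apply (x i)
  norm_map' := by
    intro u
    obtain ⟨x, hx, rfl⟩ := exists_cl u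
    show ‖tw (fun i => op (g i)) (BF.op g) (cl x hx)‖ = ‖cl x hx‖
    rw [tw_cl]
    refine tendsto_nhds_unique (cl_norm _) ((cl_norm hx).congr fun i => ?_)
    exact ((g i).norm_map (x i)).symm

lemma twi_cl (g : ℕ → E ≃ₗᵢ[ℝ] E) {x : ℕ → E} (hx : BF x) :
    twi g (cl x hx) = cl (fun i => g i (x i)) ((BF.op g).app hx) := rfl

/-- the diagonal embedding -/
noncomputable def dia : E →ₗᵢ[ℝ] UX E where
  toFun x := cl (fun _ => x) (BF.const x)
  map_add' x y := cl_add (BF.const x) (BF.const y)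
  map_smul' c x := cl_smul (BF.const x) c
  norm_map' x := tendsto_nhds_unique (cl_norm (BF.const x)) tendsto_const_nhds

lemma dia_apply (x : E) : dia x = cl (fun _ => x) (BF.const x) := rfl

end

end Pool.Agent.V5helper96.BM
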