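import Pool.Agent.V5helper96.BM.Sot

/-!
# Weak recurrence of an isometry which is a compact perturbation of the identity
-/

set_option autoImplicit false

namespace Pool.Agent.V5helper96.BM

open Filter Topology Metric
open Pool.H590R3.Ab (op op_apply op_mul op_one op_norm_le)

section
variable {E : Type*} [NormedAddCommGroup E] [NormedSpace ℝ E]

lemma two_bd (V : E ≃ₗᵢ[ℝ] E) : ‖op V - 1‖ ≤ 2 := by
  refine (norm_sub_le _ _).trans ?_
  have := op_norm_le V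
  have := norm_one_le (E := E)
  linarith

/-- recurrence on the range of `T - 1` -/
lemma rec0 (T : E ≃ₗᵢ[ℝ] E) (hT : op T - 1 ∈ KK E) {δ : ℝ} (hδ : 0 < δ) :
    ∃ l : ℕ, 1 ≤ l ∧ ‖(op (T ^ l) - 1) * (op T - 1)‖ ≤ δ := by
  classical
  set K := op T - 1 with hK
  set C := closure (K '' closedBall (0 : E) 1) with hC
  have hCc : IsCompact C :=
    IsCompactOperator.isCompact_closure_image_closedBall (f := (K : E →ₗ[ℝ] E)) hT 1
  have hTC : ∀ y ∈ C, T y ∈ C := by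
    intro y hy
    have h1 : Set.MapsTo T (K '' closedBall (0 : E) 1) (K '' closedBall (0 : E) 1) := by
      rintro _ ⟨z, hz, rfl⟩
      refine ⟨T z, by rw [mem_closedBall_zero_iff, T.norm_map]; simpa using hz, ?_⟩
      show T (T z) - T z = T (T z - z)
      rw [map_sub]
    exact h1.closure T.continuous hy
  have hTl : ∀ l : ℕ, ∀ y ∈ C, (T ^ l) y ∈ C := by
    intro l
    induction l with
    | zero => intro y hy; exact hy
    | succ l ih => intro y hy; rw [pow_succ]; exact ih _ (hTC y hy)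
  obtain ⟨t, htC, htf, ht⟩ := hCc.finite_cover_balls (e := δ / 4) (by positivity)
  haveI := htf.fintype
  let f : ℕ → (t → E) := fun l y => (T ^ l) (y : E)
  have hf : ∀ l, f l ∈ Set.pi Set.univ (fun _ : t => C) := fun l y _ => hTl l y (htC y.2)
  obtain ⟨a, -, φ, hφ, hlim⟩ := (isCompact_univ_pi (fun _ : t => hCc)).tendsto_subseq hf
  have hc := hlim.cauchySeq
  rw [Metric.cauchySeq_iff'] at hc
  obtain ⟨N, hN⟩ := hc (δ / 4) (by positivity)
  have h1 := hN (N + 1) (Nat.le_succ N)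
  have hlt : φ N < φ (N + 1) := hφ (Nat.lt_succ_self N)
  refine ⟨φ (N + 1) - φ N, by omega, ?_⟩
  have h2 : ∀ y ∈ t, ‖(T ^ (φ (N + 1) - φ N)) y - y‖ ≤ δ / 4 := by
    intro y hy
    have h3 : dist ((T ^ (φ (N + 1))) y) ((T ^ (φ N)) y) ≤ δ / 4 :=
      (dist_le_pi_dist (f (φ (N + 1))) (f (φ N)) ⟨y, hy⟩).trans h1.le
    rw [dist_eq_norm] at h3
    have e : (T ^ (φ (N + 1))) y - (T ^ (φ N)) y =
        (T ^ (φ N)) ((T ^ (φ (N + 1) - φ N)) y - y) := by
      rw [map_sub]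
      congr 1
      show _ = (T ^ (φ N) * T ^ (φ (N + 1) - φ N)) y
      rw [← pow_add, Nat.add_sub_cancel' hlt.le]
    rwa [e, (T ^ (φ N)).norm_map] at h3
  refine ContinuousLinearMap.opNorm_le_of_unit_norm hδ.le fun x hx => ?_
  have h4 : K x ∈ C := subset_closure ⟨x, by rw [mem_closedBall_zero_iff]; exact hx.le, rfl⟩
  obtain ⟨y, hy, hxy⟩ := Set.mem_iUnion₂.1 (ht h4)
  rw [mem_ball, dist_eq_norm] at hxy
  set g := T ^ (φ (N + 1) - φ N) with hg
  have e : ((op g - 1) * K) x = g (K x - y) + (g y - y) - (K x - y) := by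
    show g (K x) - K x = _
    rw [map_sub]; abel
  rw [e]
  have h5 := norm_sub_le (g (K x - y) + (g y - y)) (K x - y)
  have h6 := norm_add_le (g (K x - y)) (g y - y)
  rw [g.norm_map] at h6
  have h7 := h2 y hy
  linarith

/-- the recurrence times -/
lemma exists_times (T : E ≃ₗᵢ[ℝ] E) (hT : op T - 1 ∈ KK E) :
    ∃ l : ℕ → ℕ, (∀ i, 1 ≤ l i) ∧ ∀ j, ((∑ i ∈ Finset.range j, l i : ℕ) : ℝ) *
      ‖(op (T ^ (l j)) - 1) * (op T - 1)‖ ≤ (1 / 2) ^ (j + 1) := by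
  have h0 : ∀ (j S : ℕ), ∃ l : ℕ, 1 ≤ l ∧
      ‖(op (T ^ l) - 1) * (op T - 1)‖ ≤ (1 / 2) ^ (j + 1) / ((S : ℝ) + 1) :=
    fun j S => rec0 T hT (by positivity)
  choose c hc1 hc2 using h0
  let S : ℕ → ℕ := fun j => Nat.rec (motive := fun _ => ℕ) 0 (fun j s => s + c j s) j
  have hS0 : S 0 = 0 := rfl
  have hS1 : ∀ j, S (j + 1) = S j + c j (S j) := fun j => rfl
  have hsum : ∀ j, ∑ i ∈ Finset.range j, c i (S i) = S j := by
    intro j
    induction j with
    | zero => rw [Finset.sum_range_zero, hS0]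
    | succ j ih => rw [Finset.sum_range_succ, ih, hS1]
  refine ⟨fun j => c j (S j), fun i => hc1 _ _, fun j => ?_⟩
  rw [hsum]
  have h1 := hc2 j (S j)
  have h2 : (0 : ℝ) ≤ ((S j : ℕ) : ℝ) := Nat.cast_nonneg _
  calc (S j : ℝ) * ‖(op (T ^ (c j (S j))) - 1) * (op T - 1)‖
      ≤ (S j : ℝ) * ((1 / 2) ^ (j + 1) / ((S j : ℝ) + 1)) := mul_le_mul_of_nonneg_left h1 h2
    _ ≤ (1 / 2) ^ (j + 1) := by
        rw [mul_div_assoc', div_le_iff₀ (by positivity)]
        have h3 : (0 : ℝ) < (1 / 2) ^ (j + 1) := by positivity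
        nlinarith

lemma mul_pow_sub_one (U : E ≃ₗᵢ[ℝ] E) (A : E →L[ℝ] E) (m : ℕ) :
    ‖A * (op (U ^ m) - 1)‖ ≤ m * ‖A * (op U - 1)‖ := by
  induction m with
  | zero => rw [pow_zero, op_one]; simp
  | succ m ih =>
    have e : A * (op (U ^ (m + 1)) - 1) = A * (op (U ^ m) - 1) * op U + A * (op U - 1) := by
      rw [pow_succ, op_mul]; noncomm_ring
    rw [e]
    refine (norm_add_le _ _).trans ?_
    have h1 : ‖A * (op (U ^ m) - 1) * op U‖ ≤ ‖A * (op (U ^ m) - 1)‖ :=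
      (norm_mul_le _ _).trans (mul_le_of_le_one_right (norm_nonneg _) (op_norm_le _))
    push_cast
    linarith

lemma geo_le (s : Finset ℕ) : ∑ i ∈ s, (1 / 2 : ℝ) ^ (i + 1) ≤ 1 := by
  have h1 : ∀ n : ℕ, ∑ i ∈ Finset.range n, (1 / 2 : ℝ) ^ (i + 1) = 1 - (1 / 2) ^ n := by
    intro n
    induction n with
    | zero => simp
    | succ n ih => rw [Finset.sum_range_succ, ih, pow_succ]; ring
  obtain ⟨n, hn⟩ := s.exists_nat_subset_range
  refine (Finset.sum_le_sum_of_subset_of_nonneg hn fun i _ _ => by positivity).trans ?_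
  rw [h1]
  have : (0 : ℝ) < (1 / 2) ^ n := by positivity
  linarith

/-- all the subset sums of `U ^ (l i) - 1` are bounded -/
lemma sum_bound (U : E ≃ₗᵢ[ℝ] E) (l : ℕ → ℕ) (h : ∀ j, ((∑ i ∈ Finset.range j, l i : ℕ) : ℝ) *
      ‖(op (U ^ (l j)) - 1) * (op U - 1)‖ ≤ (1 / 2) ^ (j + 1)) (s : Finset ℕ) :
    ‖∑ i ∈ s, (op (U ^ (l i)) - 1)‖ ≤ 3 := by
  have key : ‖op (U ^ (∑ i ∈ s, l i)) - 1 - ∑ i ∈ s, (op (U ^ (l i)) - 1)‖ ≤
      ∑ i ∈ s, (1 / 2 : ℝ) ^ (i + 1) := by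
    induction s using Finset.induction_on_max with
    | empty => simp [op_one]
    | insert a s ha ih =>
      have has : a ∉ s := fun h => lt_irrefl _ (ha a h)
      rw [Finset.sum_insert has, Finset.sum_insert has, Finset.sum_insert has]
      set m := ∑ i ∈ s, l i with hm
      have e : op (U ^ (l a + m)) - 1 - (op (U ^ (l a)) - 1 + ∑ i ∈ s, (op (U ^ (l i)) - 1)) =
          (op (U ^ (l a)) - 1) * (op (U ^ m) - 1) +
          (op (U ^ m) - 1 - ∑ i ∈ s, (op (U ^ (l i)) - 1)) := by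
        rw [pow_add, op_mul]; noncomm_ring
      rw [e]
      refine (norm_add_le _ _).trans (add_le_add ?_ ih)
      refine (mul_pow_sub_one U _ m).trans (le_trans ?_ (h a))
      refine mul_le_mul_of_nonneg_right ?_ (norm_nonneg _)
      rw [hm]
      exact_mod_cast Finset.sum_le_sum_of_subset fun i hi => Finset.mem_range.2 (ha i hi)
  have h1 := key.trans (geo_le s)
  have h2 := two_bd (U ^ (∑ i ∈ s, l i))
  have e : ∑ i ∈ s, (op (U ^ (l i)) - 1) = (op (U ^ (∑ i ∈ s, l i)) - 1) -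
      (op (U ^ (∑ i ∈ s, l i)) - 1 - ∑ i ∈ s, (op (U ^ (l i)) - 1)) := by abel
  rw [e]
  refine (norm_sub_le _ _).trans ?_
  linarith

/-- a compact operator maps the terms of a weakly unconditionally Cauchy series to a null
sequence -/
lemma wnull_vec {v : ℕ → E} {C : ℝ} (hv : ∀ s : Finset ℕ, ‖∑ i ∈ s, v i‖ ≤ C) {A : E →L[ℝ] E}
    (hA : A ∈ KK E) : Tendsto (fun i => A (v i)) atTop (𝓝 0) := by
  refine tendsto_of_subseq_tendsto fun ns hns => ?_
  have hC : IsCompact (closure (A '' closedBall (0 : E) C)) :=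
    IsCompactOperator.isCompact_closure_image_closedBall (f := (A : E →ₗ[ℝ] E)) hA C
  have hmem : ∀ n, A (v (ns n)) ∈ closure (A '' closedBall (0 : E) C) := fun n =>
    subset_closure ⟨v (ns n), by
      have := hv {ns n}
      rwa [Finset.sum_singleton, ← mem_closedBall_zero_iff] at this, rfl⟩
  obtain ⟨w, -, φ, hφ, hlim⟩ := hC.tendsto_subseq hmem
  refine ⟨φ, ?_⟩
  suffices hw : w = 0 by rw [← hw]; exact hlim
  by_contra hw
  have hw0 : 0 < ‖w‖ := norm_pos_iff.2 hw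
  set J : Set ℕ := {i | ‖A (v i) - w‖ ≤ ‖w‖ / 2} with hJ
  have hev : ∀ᶠ n in atTop, ns (φ n) ∈ J := by
    have := (tendsto_iff_norm_sub_tendsto_zero.1 hlim).eventually_le_const
      (show (0 : ℝ) < ‖w‖ / 2 by positivity)
    exact this
  have hJi : J.Infinite := by
    intro hfin
    obtain ⟨M, hM⟩ := hfin.bddAbove
    have h1 : ∀ᶠ n in atTop, M + 1 ≤ ns (φ n) := (hns.comp hφ.tendsto_atTop).eventually_ge_atTop _
    obtain ⟨n, hn1, hn2⟩ := (hev.and h1).exists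
    have := hM hn1
    omega
  obtain ⟨N, hN⟩ := exists_nat_gt (2 * (‖A‖ * C) / ‖w‖)
  obtain ⟨s, hsJ, hs⟩ := hJi.exists_subset_card_eq N
  have h1 : ‖∑ i ∈ s, A (v i)‖ ≤ ‖A‖ * C := by
    rw [← map_sum]
    exact (A.le_opNorm _).trans (mul_le_mul_of_nonneg_left (hv s) (norm_nonneg _))
  have h2 : ‖∑ i ∈ s, (A (v i) - w)‖ ≤ N * (‖w‖ / 2) := by
    refine (norm_sum_le _ _).trans ?_
    have := Finset.sum_le_card_nsmul s (fun i => ‖A (v i) - w‖) (‖w‖ / 2) fun i hi => hsJ hi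
    rwa [hs, nsmul_eq_mul] at this
  have h3 : (N : ℝ) • w = ∑ i ∈ s, A (v i) - ∑ i ∈ s, (A (v i) - w) := by
    rw [Finset.sum_sub_distrib, Finset.sum_const, hs, Nat.cast_smul_eq_nsmul]
    abel
  have h4 : (N : ℝ) * ‖w‖ ≤ ‖A‖ * C + N * (‖w‖ / 2) := by
    have : (N : ℝ) * ‖w‖ = ‖(N : ℝ) • w‖ := by
      rw [norm_smul, Real.norm_of_nonneg (Nat.cast_nonneg _)]
    rw [this, h3]
    exact (norm_sub_le _ _).trans (add_le_add h1 h2)
  rw [div_lt_iff₀ hw0] at hN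
  linarith

/-- `A D i B` tends to `0` in norm for compact `A`, `B` -/
lemma wnull {D : ℕ → E →L[ℝ] E} {C : ℝ} (hD : ∀ s : Finset ℕ, ‖∑ i ∈ s, D i‖ ≤ C)
    {A B : E →L[ℝ] E} (hA : A ∈ KK E) (hB : B ∈ KK E) :
    Tendsto (fun i => ‖A * D i * B‖) atTop (𝓝 0) := by
  have hC0 : 0 ≤ C := (norm_nonneg _).trans (hD ∅)
  have hD1 : ∀ i, ‖D i‖ ≤ C := fun i => by
    have := hD {i}
    rwa [Finset.sum_singleton] at this
  rw [Metric.tendsto_atTop]
  intro η hη
  set ρ : ℝ := η / (4 * (‖A‖ * C + 1)) with hρ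
  have hAC : 0 ≤ ‖A‖ * C := by positivity
  have hρ0 : 0 < ρ := by positivity
  have hB' := hB
  rw [mem_KK] at hB'
  obtain ⟨Q, hQ, hQB⟩ := hB'.image_closedBall_subset_compact (r := 1)
  obtain ⟨t, -, htf, ht⟩ := hQ.finite_cover_balls hρ0
  have hy : ∀ y : E, ∀ᶠ i in atTop, ‖A (D i y)‖ ≤ η / 4 := by
    intro y
    have h1 : Tendsto (fun i => A (D i y)) atTop (𝓝 0) := by
      refine wnull_vec (v := fun i => D i y) (C := C * ‖y‖) (fun s => ?_) hA
      have e : ∑ i ∈ s, D i y = (∑ i ∈ s, D i) y := (ContinuousLinearMap.sum_apply _ _ _).symm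
      rw [e]
      exact (ContinuousLinearMap.le_opNorm _ _).trans
        (mul_le_mul_of_nonneg_right (hD s) (norm_nonneg _))
    have h2 := h1.norm
    rw [norm_zero] at h2
    exact h2.eventually_le_const (by positivity)
  have hall : ∀ᶠ i in atTop, ∀ y ∈ t, ‖A (D i y)‖ ≤ η / 4 :=
    (eventually_all_finite htf).2 fun y _ => hy y
  obtain ⟨N, hN⟩ := eventually_atTop.1 hall
  refine ⟨N, fun i hi => ?_⟩
  rw [dist_zero_right, norm_norm]
  refine lt_of_le_of_lt ?_ (half_lt_self hη)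
  refine ContinuousLinearMap.opNorm_le_of_unit_norm (by positivity) fun x hx => ?_
  have h1 : B x ∈ Q := hQB ⟨x, by rw [mem_closedBall_zero_iff]; exact hx.le, rfl⟩
  obtain ⟨y, hyt, hxy⟩ := Set.mem_iUnion₂.1 (ht h1)
  rw [mem_ball, dist_eq_norm] at hxy
  have e : (A * D i * B) x = A (D i (B x - y)) + A (D i y) := by
    show A (D i (B x)) = _
    rw [map_sub, map_sub]; abel
  rw [e]
  refine (norm_add_le _ _).trans ?_
  have h2 : ‖A (D i (B x - y))‖ ≤ ‖A‖ * C * ρ := by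
    refine (A.le_opNorm _).trans ?_
    rw [mul_assoc]
    refine mul_le_mul_of_nonneg_left ?_ (norm_nonneg _)
    exact ((D i).le_opNorm _).trans (mul_le_mul (hD1 i) hxy.le (norm_nonneg _) hC0)
  have h3 : ‖A‖ * C * ρ ≤ η / 4 := by
    rw [hρ, mul_div_assoc', div_le_iff₀ (by positivity)]
    nlinarith
  have h4 := hN i hi y hyt
  linarith

end

end Pool.Agent.V5helper96.BM
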