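import Pool.Agent.V5helper96.BM.AIso

/-!
# Operators with bounded approximation numbers in the ultrapower
-/

set_option autoImplicit false

namespace Pool.Agent.V5helper96.BM

open Filter Topology Metric
open scoped ENNReal
open Pool.H590R3.Ab (op op_apply op_mul op_one op_norm_le)
open Pool.Agent.R287.UP
open Pool.Agent.TH596.RO (cj AT DD)

section
variable {E : Type*} [NormedAddCommGroup E] [NormedSpace ℝ E]

/-- the ultraproduct of subspaces, as a subspace of the ultrapower -/
noncomputable def WL (F : ℕ → Submodule ℝ E) : Submodule ℝ (UX E) where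
  carrier := {u | ∃ (y : ℕ → E) (hy : BF y), (∀ᶠ i in (hyperfilter ℕ : Filter ℕ), y i ∈ F i) ∧
    cl y hy = u}
  add_mem' := by
    rintro _ _ ⟨y, hy, h1, rfl⟩ ⟨z, hz, h2, rfl⟩
    refine ⟨_, hy.add hz, ?_, cl_add hy hz⟩
    filter_upwards [h1, h2] with i a b
    exact (F i).add_mem a b
  zero_mem' := by
    refine ⟨fun _ => 0, BF.const 0, Eventually.of_forall fun i => (F i).zero_mem, ?_⟩
    rw [← dia_apply, map_zero]
  smul_mem' := by
    rintro c _ ⟨y, hy, h1, rfl⟩
    refine ⟨_, hy.smul c, ?_, cl_smul hy c⟩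
    filter_upwards [h1] with i a
    exact (F i).smul_mem c a

lemma mem_WL {F : ℕ → Submodule ℝ E} {u : UX E} : u ∈ WL F ↔ ∃ (y : ℕ → E) (hy : BF y),
    (∀ᶠ i in (hyperfilter ℕ : Filter ℕ), y i ∈ F i) ∧ cl y hy = u := Iff.rfl

/-- more than `m` vectors of the ultraproduct are linearly dependent -/
lemma WL_dep {m : ℕ} {F : ℕ → Submodule ℝ E}
    (hF : ∀ᶠ i in (hyperfilter ℕ : Filter ℕ), FiniteDimensional ℝ (F i) ∧
      Module.finrank ℝ (F i) ≤ m) {ι : Type} [Fintype ι] (hι : m < Fintype.card ι)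
    (w : ι → WL F) : ¬ LinearIndependent ℝ w := by
  classical
  have hw : ∀ k, ∃ (y : ℕ → E) (hy : BF y),
      (∀ᶠ i in (hyperfilter ℕ : Filter ℕ), y i ∈ F i) ∧ cl y hy = (w k : UX E) := fun k => (w k).2
  choose y hy hyF hyw using hw
  have h1 : ∀ᶠ i in (hyperfilter ℕ : Filter ℕ), ∃ c : ι → ℝ, ∑ k, |c k| = 1 ∧
      ∑ k, c k • y k i = 0 := by
    have hyF' : ∀ᶠ i in (hyperfilter ℕ : Filter ℕ), ∀ k, y k i ∈ F i := eventually_all.2 hyF
    filter_upwards [hyF', hF] with i hi hFi
    haveI := hFi.1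
    have h2 : ¬ LinearIndependent ℝ (fun k => (⟨y k i, hi k⟩ : F i)) := by
      intro h
      have := h.fintype_card_le_finrank
      omega
    rw [Fintype.not_linearIndependent_iff] at h2
    obtain ⟨g, hg, k0, hk0⟩ := h2
    have hs : 0 < ∑ k, |g k| := lt_of_lt_of_le (abs_pos.2 hk0)
      (Finset.single_le_sum (f := fun k => |g k|) (fun k _ => abs_nonneg _) (Finset.mem_univ k0))
    refine ⟨fun k => (∑ k, |g k|)⁻¹ * g k, ?_, ?_⟩
    · have : ∀ k, |(∑ k, |g k|)⁻¹ * g k| = (∑ k, |g k|)⁻¹ * |g k| := by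
        intro k
        rw [abs_mul, abs_of_pos (inv_pos.2 hs)]
      rw [Finset.sum_congr rfl fun k _ => this k, ← Finset.mul_sum, inv_mul_cancel₀ hs.ne']
    · have h3 : ∑ k, g k • y k i = 0 := by
        have := congrArg (fun v : F i => (v : E)) hg
        simpa using this
      have h4 : ∀ k, ((∑ k, |g k|)⁻¹ * g k) • y k i = (∑ k, |g k|)⁻¹ • (g k • y k i) := by
        intro k
        rw [mul_smul]
      rw [Finset.sum_congr rfl fun k _ => h4 k, ← Finset.smul_sum, h3, smul_zero]
  have hne : ∃ c : ι → ℝ, ∑ k, |c k| = 1 := by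
    obtain ⟨i, c, hc, -⟩ := h1.exists
    exact ⟨c, hc⟩
  obtain ⟨c0, hc0⟩ := hne
  have h2 : ∀ i, ∃ c : ι → ℝ, ∑ k, |c k| = 1 ∧
      ((∃ c : ι → ℝ, ∑ k, |c k| = 1 ∧ ∑ k, c k • y k i = 0) → ∑ k, c k • y k i = 0) := by
    intro i
    by_cases h : ∃ c : ι → ℝ, ∑ k, |c k| = 1 ∧ ∑ k, c k • y k i = 0
    · obtain ⟨c, hc, hc2⟩ := h
      exact ⟨c, hc, fun _ => hc2⟩
    · exact ⟨c0, hc0, fun h' => absurd h' h⟩
  choose c hc1 hc2 using h2
  have hK : IsCompact {c : ι → ℝ | ∑ k, |c k| = 1} := by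
    refine Metric.isCompact_of_isClosed_isBounded ?_ ?_
    · exact isClosed_eq (continuous_finsetSum _ fun k _ => (continuous_apply k).abs) continuous_const
    · refine (isBounded_closedBall (x := (0 : ι → ℝ)) (r := 1)).subset ?_
      intro c hc
      rw [mem_closedBall_zero_iff, pi_norm_le_iff_of_nonneg zero_le_one]
      intro k
      rw [Real.norm_eq_abs]
      have h3 : |c k| ≤ ∑ k, |c k| :=
        Finset.single_le_sum (f := fun k => |c k|) (fun k _ => abs_nonneg _) (Finset.mem_univ k)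
      rw [hc] at h3
      exact h3
  have h3 : ((hyperfilter ℕ).map c : Filter (ι → ℝ)) ≤ 𝓟 {c : ι → ℝ | ∑ k, |c k| = 1} := by
    rw [le_principal_iff]
    exact Filter.mem_map.2 (Filter.univ_mem' hc1)
  obtain ⟨d, hd, hcd⟩ := hK.ultrafilter_le_nhds ((hyperfilter ℕ).map c) h3
  have hcd' : Tendsto c (hyperfilter ℕ : Filter ℕ) (𝓝 d) := hcd
  rw [Fintype.not_linearIndependent_iff]
  refine ⟨d, ?_, ?_⟩
  · obtain ⟨hb, hb2⟩ := cl_sum Finset.univ d y hy
    have h4 : cl _ hb = 0 := by
      have e0 : (0 : UX E) = cl (fun _ => (0 : E)) (BF.const 0) := by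
        rw [← dia_apply, map_zero]
      rw [e0, cl_eq]
      have h5 : Tendsto (fun i => ∑ k, |d k - c i k| * ‖y k i‖) (hyperfilter ℕ : Filter ℕ)
          (𝓝 0) := by
        have h6 : ∀ k, Tendsto (fun i => |d k - c i k| * ‖y k i‖) (hyperfilter ℕ : Filter ℕ)
            (𝓝 0) := by
          intro k
          have h7 : Tendsto (fun i => c i k) (hyperfilter ℕ : Filter ℕ) (𝓝 (d k)) :=
            ((continuous_apply k).tendsto d).comp hcd'
          have h8 : Tendsto (fun i => |d k - c i k|) (hyperfilter ℕ : Filter ℕ) (𝓝 0) := by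
            have := (tendsto_const_nhds (x := d k) (f := (hyperfilter ℕ : Filter ℕ))).sub h7
            rw [sub_self] at this
            simpa using this.abs
          have h9 := h8.mul (cl_norm (hy k))
          rw [zero_mul] at h9
          exact h9
        simpa using tendsto_finsetSum Finset.univ fun k _ => h6 k
      refine squeeze_zero' (Eventually.of_forall fun i => norm_nonneg _) ?_ h5
      filter_upwards [h1] with i hi
      have h6 := hc2 i hi
      have h7 : (∑ k, d k • y k i) - 0 = ∑ k, (d k - c i k) • y k i := by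
        rw [sub_zero]
        have : ∑ k, (d k - c i k) • y k i = ∑ k, d k • y k i - ∑ k, c i k • y k i := by
          rw [← Finset.sum_sub_distrib]
          exact Finset.sum_congr rfl fun k _ => sub_smul _ _ _
        rw [this, h6, sub_zero]
      rw [h7]
      refine (norm_sum_le _ _).trans (le_of_eq (Finset.sum_congr rfl fun k _ => ?_))
      rw [norm_smul, Real.norm_eq_abs]
    apply Subtype.ext
    have h5 : ((∑ k, d k • w k : WL F) : UX E) = ∑ k, d k • (w k : UX E) := by simp
    rw [h5]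
    have h6 : ∑ k, d k • (w k : UX E) = ∑ k, d k • cl (y k) (hy k) :=
      Finset.sum_congr rfl fun k _ => by rw [hyw k]
    rw [h6, ← hb2, h4]
    rfl
  · by_contra hcon
    push Not at hcon
    have h4 : ∑ k, |d k| = 0 := Finset.sum_eq_zero fun k _ => by rw [hcon k, abs_zero]
    have h5 : ∑ k, |d k| = 1 := hd
    rw [h4] at h5
    exact zero_ne_one h5

lemma WL_fd {m : ℕ} {F : ℕ → Submodule ℝ E}
    (hF : ∀ᶠ i in (hyperfilter ℕ : Filter ℕ), FiniteDimensional ℝ (F i) ∧
      Module.finrank ℝ (F i) ≤ m) : FiniteDimensional ℝ (WL F) := by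
  by_contra hcon
  have h1 : ¬ Module.rank ℝ (WL F) ≤ m := by
    intro h
    apply hcon
    exact Module.rank_lt_aleph0_iff.1 (lt_of_le_of_lt h (Cardinal.natCast_lt_aleph0))
  apply h1
  refine rank_le fun s hs => ?_
  by_contra hc
  push Not at hc
  let f : Fin s.card ≃ s := s.equivFin.symm
  have h2 : LinearIndependent ℝ (fun i : Fin s.card => ((f i : s) : WL F)) :=
    hs.comp f f.injective
  exact WL_dep hF (ι := Fin s.card) (by rw [Fintype.card_fin]; exact hc) _ h2

end

end Pool.Agent.V5helper96.BM
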